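import Mathlib
import Pool.Agent.Lib_helper9.LG.StmtsD
import Pool.Agent.Lib_helper9.LG.EXPd

set_option autoImplicit false

/-!
Interfaces of block P (MP_e1dc24_nt): equidistribution on primes of functions which depend only on
hits modulo primes larger than `z`, by box norms.
-/

namespace Pool.Agent.IPP

open Finset Pool.Agent.Lib_helper9.LG

noncomputable section

/-- Functions of level at most `a` over `Q`. -/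
inductive Lev (Q : Finset ℕ) : ℝ → (ℕ → ℝ) → Prop
  | base (E : Finset ℕ) (f : ℕ → ℕ → ℝ) (hE : E ⊆ Q) (hp : ∀ l ∈ E, ∀ n, f l (n + l) = f l n)
      (hb : ∀ l ∈ E, ∀ n, |f l n| ≤ 1) : Lev Q (∏ l ∈ E, (l : ℝ)) (fun n => ∏ l ∈ E, f l n)
  | zero : Lev Q 0 (fun _ => 0)
  | add {a b : ℝ} {g h : ℕ → ℝ} (hg : Lev Q a g) (hh : Lev Q b h) :
      Lev Q (a + b) (fun n => g n + h n)
  | smul {a : ℝ} {g : ℕ → ℝ} (c : ℝ) (hg : Lev Q a g) : Lev Q (|c| * a) (fun n => c * g n)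
  | mono {a b : ℝ} {g : ℕ → ℝ} (hg : Lev Q a g) (hab : a ≤ b) : Lev Q b g

/-- The product of the elements of `Q`. -/
def pr (Q : Finset ℕ) : ℕ := ∏ l ∈ Q, l

/-- The mean over `range q`. -/
def mean (q : ℕ) (g : ℕ → ℝ) : ℝ := (∑ n ∈ range q, g n) / q

/-- The correlation of two dilations. -/
def cor (q : ℕ) (F : ℕ → ℝ) (u u' : ℕ) : ℝ := mean q fun v => F (u * v) * F (u' * v)

/-- The box norm, to the fourth power. -/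
def box (q : ℕ) (F : ℕ → ℝ) : ℝ := mean q fun u => mean q fun u' => cor q F u u' ^ 2

/-- For every prime `l` of `Q` the classes `ρ l k` are distinct and different from `0`. -/
structure Hits {κ : Type} (Q : Finset ℕ) (ρ : ℕ → κ → ℕ) : Prop where
  prime : ∀ l ∈ Q, l.Prime
  lt : ∀ l ∈ Q, ∀ k, ρ l k < l
  pos : ∀ l ∈ Q, ∀ k, 0 < ρ l k
  inj : ∀ l ∈ Q, Function.Injective (ρ l)

/-- `F n` depends only on the set of pairs `(l, k)` with `n % l = ρ l k`. -/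
def Fac {κ : Type} (Q : Finset ℕ) (ρ : ℕ → κ → ℕ) (F : ℕ → ℝ) : Prop :=
  ∀ n n' : ℕ, (∀ l ∈ Q, ∀ k, n % l = ρ l k ↔ n' % l = ρ l k) → F n = F n'

/-- LEV: closure properties of the level. -/
def StmtLEV : Prop := ∀ Q : Finset ℕ, (∀ l ∈ Q, l.Prime) →
  (∀ c : ℝ, Lev Q |c| (fun _ => c)) ∧
  (∀ (a b : ℝ) (g h : ℕ → ℝ), Lev Q a g → Lev Q b h → Lev Q (a * b) (fun n => g n * h n)) ∧
  (∀ (a : ℝ) (g : ℕ → ℝ) (d : ℕ), Lev Q a g → Lev Q a (fun n => g (d * n))) ∧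
  (∀ (a : ℝ) (g : ℕ → ℝ) (d : ℕ), Lev Q a g → Lev Q a (fun n => g (n + d))) ∧
  (∀ (a : ℝ) (g : ℕ → ℝ), Lev Q a g →
    0 ≤ a ∧ (∀ n, |g n| ≤ a) ∧ ∀ n, g (n + pr Q) = g n) ∧
  (∀ (ι : Type) (s : Finset ι) (a : ι → ℝ) (g : ι → ℕ → ℝ), (∀ i ∈ s, Lev Q (a i) (g i)) →
    Lev Q (∑ i ∈ s, a i) (fun n => ∑ i ∈ s, g i n)) ∧
  (∀ (a : ℝ) (g : ℕ → ℝ), EXPd.Lev Q a g → Lev Q a g)

/-- AVG: averages over a progression with a coprimality condition. -/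
def StmtAVG : Prop := ∀ (Q : Finset ℕ) (m W b M : ℕ) (a : ℝ) (g : ℕ → ℝ), 1 ≤ m → 1 ≤ W →
  W.Coprime m → (∀ l ∈ Q, l.Prime ∧ ¬ l ∣ m ∧ ¬ l ∣ W) → Lev Q a g →
  |∑ x ∈ (range M).filter (fun x => (b + W * x).Coprime m), g (b + W * x) -
    (M : ℝ) * ((m.totient : ℝ) / m) * mean (pr Q) g| ≤ 2 ^ m.primeFactors.card * a

/-- AVI: averages over the elements of an interval in a class. -/
def StmtAVI : Prop := ∀ (Q : Finset ℕ) (W s Y₁ Y₂ : ℕ) (a : ℝ) (g : ℕ → ℝ), 1 ≤ W → Y₁ ≤ Y₂ →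
  (∀ l ∈ Q, l.Prime ∧ ¬ l ∣ W) → Lev Q a g →
  |∑ n ∈ (Ioc Y₁ Y₂).filter (fun n => n % W = s % W), g n -
    (((Ioc Y₁ Y₂).filter (fun n => n % W = s % W)).card : ℝ) * mean (pr Q) g| ≤ a ∧
  (((Ioc Y₁ Y₂).filter (fun n => n % W = s % W)).card : ℝ) ≤ ((Y₂ : ℝ) - Y₁) / W + 1

open Classical in
/-- The site which is hit by `x`. -/
def hit {κ : Type} {l : ℕ} (r : κ → ZMod l) (x : ZMod l) : Option κ :=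
  if h : ∃ k, r k = x then some h.choose else none

open Classical in
/-- The law of one hit. -/
def P1 {κ : Type} {l : ℕ} [Fact l.Prime] (r : κ → ZMod l) (a : Option κ) : ℝ :=
  ((univ.filter (fun x : ZMod l => hit r x = a)).card : ℝ) / l

open Classical in
/-- The joint law of the hits of the four products `u₀ u₂`, `u₁ u₂`, `u₀ u₃`, `u₁ u₃`. -/
def P4 {κ : Type} {l : ℕ} [Fact l.Prime] (r : κ → ZMod l) (a b c d : Option κ) : ℝ :=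
  ((univ.filter (fun u : Fin 4 → ZMod l => hit r (u 0 * u 2) = a ∧ hit r (u 1 * u 2) = b ∧
    hit r (u 0 * u 3) = c ∧ hit r (u 1 * u 3) = d)).card : ℝ) / (l : ℝ) ^ 4

/-- CHI: the four hits are nearly independent. -/
def StmtCHI : Prop := ∀ (l : ℕ) [Fact l.Prime] (κ : Type) [Fintype κ] (r : κ → ZMod l),
  Function.Injective r → (∀ k, r k ≠ 0) → 16 * (Fintype.card κ : ℝ) ^ 2 ≤ l →
  (∀ a, 0 < P1 r a) ∧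
  ∑ a, ∑ b, ∑ c, ∑ d, P4 r a b c d ^ 2 / (P1 r a * P1 r b * P1 r c * P1 r d) ≤
    1 + 60 * (Fintype.card κ : ℝ) ^ 3 / (l : ℝ) ^ 2

/-- BOX: the box norm of a function of the hits is small. -/
def StmtBOX : Prop := ∀ (Q : Finset ℕ) (κ : Type) [Fintype κ] (ρ : ℕ → κ → ℕ) (F : ℕ → ℝ) (z : ℝ),
  Hits Q ρ → Fac Q ρ F → (∀ l ∈ Q, z ≤ l) → 1 ≤ z → 16 * (Fintype.card κ : ℝ) ^ 2 ≤ z →
  mean (pr Q) F = 0 →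
  box (pr Q) F ≤ Real.sqrt (Real.exp (120 * (Fintype.card κ : ℝ) ^ 3 / z) - 1) *
    (mean (pr Q) fun n => F n ^ 2) ^ 2

/-- TYM: the mean of a dilation. -/
def StmtTYM : Prop := ∀ (Q : Finset ℕ) (κ : Type) [Fintype κ] (ρ : ℕ → κ → ℕ) (F : ℕ → ℝ) (z : ℝ)
  (t : ℕ), Hits Q ρ → Fac Q ρ F → (∀ l ∈ Q, z ≤ l) → 1 ≤ z → 2 * (Fintype.card κ : ℝ) ≤ z →
  1 ≤ t →
  |mean (pr Q) (fun n => F (t * n)) - mean (pr Q) F| ≤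
    Real.sqrt (mean (pr Q) fun n => F n ^ 2) *
      Real.sqrt (Real.exp (4 * (Fintype.card κ : ℝ) * Real.log t / z) - 1)

/-- T1: Type I sums. -/
def StmtT1 : Prop := ∀ (Q : Finset ℕ) (κ : Type) [Fintype κ] (ρ : ℕ → κ → ℕ) (F : ℕ → ℝ) (z a : ℝ)
  (W s t Y₁ Y₂ : ℕ), Hits Q ρ → Fac Q ρ F → Lev Q a F → (∀ l ∈ Q, z ≤ l ∧ ¬ l ∣ W) → 1 ≤ z →
  2 * (Fintype.card κ : ℝ) ≤ z → mean (pr Q) F = 0 → 1 ≤ W → s.Coprime W → 1 ≤ t → Y₁ ≤ Y₂ →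
  |∑ n ∈ (Ioc Y₁ Y₂).filter (fun n => (t * n) % W = s % W), F (t * n)| ≤
    (((Y₂ : ℝ) - Y₁) / W + 1) * (Real.sqrt (mean (pr Q) fun n => F n ^ 2) *
      Real.sqrt (Real.exp (4 * (Fintype.card κ : ℝ) * Real.log t / z) - 1)) + a

/-- T2: Type II sums of one dyadic block. -/
def StmtT2 : Prop := ∀ (Q : Finset ℕ) (F : ℕ → ℝ) (D A : ℝ) (W s N X₁ X₂ : ℕ) (α β : ℕ → ℝ),
  (∀ l ∈ Q, l.Prime ∧ ¬ l ∣ W) → Lev Q D F → 1 ≤ D → 0 ≤ A → (∀ v, |α v| ≤ 1) →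
  (∀ u ≤ X₂, |β u| ≤ A) → 1 ≤ W → s.Coprime W → 1 ≤ N → 1 ≤ X₁ → X₁ ≤ X₂ →
  ∀ U Pn Y : ℝ, U = (X₂ : ℝ) / N → Pn = U * (U / W + 1) →
  Y = 2 * N * ((X₂ : ℝ) - X₁) / (X₁ * W) + 2 →
  |∑ v ∈ Ico N (2 * N), α v * ∑ u ∈ (Ioc (X₁ / v) (X₂ / v)).filter (fun u => (u * v) % W = s % W),
      β u * F (u * v)| ^ 4 ≤
    (N : ℝ) ^ 2 * A ^ 4 * Pn * (4 * Y ^ 2 * W * (U / W + 1) ^ 2 * box (pr Q) F +
      4 * Y ^ 2 * W * D ^ 4 + 2 * D ^ 4 * Pn)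

/-- VAU: Vaughan's identity for an arbitrary weight. -/
def StmtVAU : Prop := ∀ (V X₁ X₂ : ℕ) (w T : ℕ → ℝ) (B : ℝ), 1 ≤ V → V ≤ X₁ → X₁ ≤ X₂ →
  V ^ 2 ≤ X₂ →
  (∀ t : ℕ, 1 ≤ t → t ≤ V ^ 2 → ∀ Y₁ Y₂ : ℕ, X₁ / t ≤ Y₁ → Y₁ ≤ Y₂ → Y₂ ≤ X₂ / t →
    |∑ k ∈ Ioc Y₁ Y₂, w (t * k)| ≤ T t) →
  (∀ N : ℕ, V < 2 * N → N * V ≤ X₂ → ∀ α β : ℕ → ℝ, (∀ v, |α v| ≤ 1) →
    (∀ u ≤ X₂, |β u| ≤ Real.log X₂) →
    |∑ v ∈ Ico N (2 * N), α v * ∑ u ∈ Ioc (X₁ / v) (X₂ / v), β u * w (u * v)| ≤ B) →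
  |∑ n ∈ Ioc X₁ X₂, ArithmeticFunction.vonMangoldt n * w n| ≤
    ∑ t ∈ Ioc 0 (V ^ 2), 3 * Real.log X₂ * T t + (2 * Real.log X₂ + 1) * B

/-- LP: functions of the hits are equidistributed on primes of a class and an interval. -/
def StmtLP : Prop := ∃ C : ℝ, 0 < C ∧ ∀ (Q : Finset ℕ) (κ : Type) [Fintype κ] (ρ : ℕ → κ → ℕ)
  (F : ℕ → ℝ) (z D : ℝ) (W s X₁ X₂ : ℕ), Hits Q ρ → Fac Q ρ F → Lev Q D F → 1 ≤ D →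
  (∀ l ∈ Q, z ≤ l ∧ ¬ l ∣ W) → 1 ≤ z → 16 * (Fintype.card κ : ℝ) ^ 2 ≤ z →
  120 * (Fintype.card κ : ℝ) ^ 3 ≤ z → 4 * (Fintype.card κ : ℝ) * Real.log X₂ ≤ z →
  1 ≤ W → s.Coprime W → C ≤ X₂ → X₁ < X₂ → X₂ ≤ 2 * X₁ →
  (X₂ : ℝ) ^ (9 / 10 : ℝ) ≤ (X₂ : ℝ) - X₁ → (W : ℝ) ≤ (X₂ : ℝ) ^ (1 / 10 : ℝ) →
  |∑ n ∈ (Ioc X₁ X₂).filter (fun n => n % W = s % W),
      ArithmeticFunction.vonMangoldt n * (F n - mean (pr Q) F)| ≤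
    C * Real.log X₂ ^ 4 * (Real.sqrt ((X₂ : ℝ) * ((X₂ : ℝ) - X₁)) / W *
      ((Fintype.card κ : ℝ) ^ 3 * Real.log X₂ / z) ^ (1 / 8 : ℝ) *
        Real.sqrt (mean (pr Q) fun n => F n ^ 2) + (X₂ : ℝ) ^ (5 / 6 : ℝ) * (W : ℝ) ^ (1 / 4 : ℝ) * D)

/-- INT: the form used for the numbers `c + k₁ m` with `c = b + W x`. -/
def StmtINT : Prop := ∃ C : ℝ, 0 < C ∧ ∀ (Q : Finset ℕ) (κ : Type) [Fintype κ] (ρ : ℕ → κ → ℕ)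
  (F : ℕ → ℝ) (z D : ℝ) (m W b k₁ n₀ : ℕ), Hits Q ρ →
  Fac Q ρ (fun n => F (n + k₁ * m * (pr Q - 1))) → Lev Q D F → 1 ≤ D →
  (∀ l ∈ Q, z ≤ l ∧ ¬ l ∣ W) → 1 ≤ z → 16 * (Fintype.card κ : ℝ) ^ 2 ≤ z →
  120 * (Fintype.card κ : ℝ) ^ 3 ≤ z → 8 * (Fintype.card κ : ℝ) * Real.log m ≤ z →
  1 ≤ W → b < W → (b + k₁ * m).Coprime W → C ≤ m → 2 ≤ k₁ →
  (k₁ : ℝ) + 1 ≤ (m : ℝ) ^ (1 / 20 : ℝ) → W * n₀ ≤ m → m ≤ 2 * (W * n₀) →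
  (W : ℝ) ≤ (m : ℝ) ^ (1 / 20 : ℝ) →
  |∑ x ∈ (range n₀).filter (fun x => (b + W * x + k₁ * m).Prime),
      Real.log ((b + W * x + k₁ * m : ℕ) : ℝ) * (F (b + W * x) - mean (pr Q) F)| ≤
    C * Real.log m ^ 4 * (Real.sqrt ((k₁ : ℝ) + 1) * m / W *
      ((Fintype.card κ : ℝ) ^ 3 * Real.log m / z) ^ (1 / 8 : ℝ) *
        Real.sqrt (mean (pr Q) fun n => F n ^ 2) + (m : ℝ) ^ (9 / 10 : ℝ) * D)

/-- The function `G` of the positive proportion theorem. -/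
def Gc (P : ℕ → Finset ℕ) (b : ℕ → ℕ) (N m : ℕ) (Q' S : Finset ℕ) (a B B₁ : ℝ) (c : ℕ) : ℝ :=
  GD (fun i : {l // l ∈ Q'} => Real.log ((i : ℕ) : ℝ)) a B B₁
    (fun (i : {l // l ∈ Q'}) (k : {k // k ∈ S}) (c : ℕ) => xx m i k c)
    (fun (A : Finset {k // k ∈ S}) (c : ℕ) =>
      Lm P b N m (A.map (Function.Embedding.subtype _)) c) c

/-- The class modulo `l` of `n = c + k₁ m` such that `l` divides `c + k m`. -/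
def rho (m k₁ l k : ℕ) : ℕ := ((k₁ + (l - 1) * k) * m) % l

/-- FAC: the function `G` depends only on the hits. -/
def StmtFAC : Prop := ∀ (P : ℕ → Finset ℕ) (b : ℕ → ℕ) (N m k₁ : ℕ) (Q' S : Finset ℕ)
  (a B B₁ : ℝ), (∀ l ∈ SS P N ∪ Q', l.Prime ∧ ¬ l ∣ m ∧ k₁ < l) →
  (∀ l ∈ SS P N ∪ Q', ∀ k ∈ S, k < l) → k₁ ∉ S →
  Hits (SS P N ∪ Q') (fun l (k : {k // k ∈ S}) => rho m k₁ l k) ∧
  Fac (SS P N ∪ Q') (fun l (k : {k // k ∈ S}) => rho m k₁ l k)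
    (fun n => Gc P b N m Q' S a B B₁ (n + k₁ * m * (pr (SS P N ∪ Q') - 1)))

/-- GLEV: the level of `G`. -/
def StmtGLEV : Prop := ∀ (P : ℕ → Finset ℕ) (b : ℕ → ℕ) (N m : ℕ) (Q' S : Finset ℕ)
  (a B B₁ C : ℝ), (∀ l ∈ SS P N ∪ Q', l.Prime) → 0 ≤ a → (∀ l ∈ Q', a ≤ Real.log l) →
  ∑ α : {l // l ∈ Q'} → Option {k // k ∈ S},
    Real.exp (-2 * sz (fun i : {l // l ∈ Q'} => Real.log ((i : ℕ) : ℝ)) (spp α)) ≤ C →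
  Lev (SS P N ∪ Q') (Real.exp (3 * B) * C * LV P b N) (fun c => Gc P b N m Q' S a B B₁ c)

end

end Pool.Agent.IPP
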