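import Mathlib
import Pool.Agent.IPP.Stmts

set_option autoImplicit false

/-!
GLEV: the level of the function `G`.
-/

namespace Pool.Agent.IPP

open Finset Pool.Agent.Lib_helper9.LG

noncomputable section

namespace GLEVx

/-- The local functions have period `l`. -/
lemma xx_per (m l k c : ℕ) : xx m l k (c + l) = xx m l k c := by
  unfold xx
  have h : (l ∣ c + l + k * m) ↔ (l ∣ c + k * m) := by
    have h1 : c + l + k * m = (c + k * m) + l := by ring
    rw [h1]
    exact Nat.dvd_add_self_right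
  simp only [h]

/-- The local functions are bounded by one. -/
lemma abs_xx_le {l : ℕ} (hl : 2 ≤ l) (m k c : ℕ) : |xx m l k c| ≤ 1 := by
  unfold xx
  split_ifs
  · simp
  · have h1 : (2 : ℝ) ≤ l := by exact_mod_cast hl
    have h2 : (1 : ℝ) ≤ (l : ℝ) - 1 := by linarith
    rw [abs_of_nonneg (by positivity)]
    rw [div_le_one (by linarith)]
    exact h2

lemma LV_nonneg (P : ℕ → Finset ℕ) (b : ℕ → ℕ) (N : ℕ) : 0 ≤ LV P b N := by
  unfold LV
  refine Finset.prod_nonneg fun j _ => pow_nonneg ?_ _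
  have : (0 : ℝ) ≤ ∑ l ∈ P j, (l : ℝ) := Finset.sum_nonneg fun l _ => Nat.cast_nonneg l
  linarith

/-- The level of the sieve functions over a larger set of primes. -/
lemma lev_Lm {S : Finset ℕ} (hS : ∀ l ∈ S, 1 ≤ l) (P : ℕ → Finset ℕ) (b : ℕ → ℕ) (N m : ℕ)
    (hP : SS P N ⊆ S) (A : Finset ℕ) :
    EXPd.Lev S (LV P b N) (fun c => Lm P b N m A c) := by
  unfold Lm LV
  refine EXPd.Lev.prod hS _ fun j hj => ?_
  refine EXPd.lev_FF (P j) ?_ (b j) m A
  intro l hl
  exact hP (Finset.mem_biUnion.2 ⟨j, hj, hl⟩)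

/-- The local factor at the natural number `l`. -/
def fl (m : ℕ) {Q' S : Finset ℕ} (α : {l // l ∈ Q'} → Option {k // k ∈ S}) (l c : ℕ) : ℝ :=
  if h : l ∈ Q' then (α ⟨l, h⟩).elim 1 (fun k => xx m l k c) else 1

lemma fl_per (m : ℕ) {Q' S : Finset ℕ} (α : {l // l ∈ Q'} → Option {k // k ∈ S}) (l c : ℕ) :
    fl m α l (c + l) = fl m α l c := by
  unfold fl
  split_ifs with h
  · cases α ⟨l, h⟩ with
    | none => rfl
    | some k => exact xx_per m l k c
  · rfl

lemma abs_fl_le (m : ℕ) {Q' S : Finset ℕ} (α : {l // l ∈ Q'} → Option {k // k ∈ S}) {l : ℕ}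
    (hl : 2 ≤ l) (c : ℕ) : |fl m α l c| ≤ 1 := by
  unfold fl
  split_ifs with h
  · cases α ⟨l, h⟩ with
    | none => simp
    | some k => exact abs_xx_le hl m k c
  · simp

/-- The primes of the support. -/
def EE {Q' S : Finset ℕ} (α : {l // l ∈ Q'} → Option {k // k ∈ S}) : Finset ℕ :=
  (spp α).map (Function.Embedding.subtype _)

lemma EE_sub {Q' S : Finset ℕ} (α : {l // l ∈ Q'} → Option {k // k ∈ S}) : EE α ⊆ Q' := by
  intro l hl
  obtain ⟨i, _, rfl⟩ := Finset.mem_map.1 hl
  exact i.2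

lemma vl_eq (m : ℕ) {Q' S : Finset ℕ} (α : {l // l ∈ Q'} → Option {k // k ∈ S}) (c : ℕ) :
    vl (fun (i : {l // l ∈ Q'}) (k : {k // k ∈ S}) (c : ℕ) => xx m i k c) α c =
      ∏ l ∈ EE α, fl m α l c := by
  unfold EE vl
  rw [Finset.prod_map]
  rw [← Finset.prod_subset (Finset.subset_univ (spp α))]
  · refine Finset.prod_congr rfl fun i _ => ?_
    unfold fl
    rw [Function.Embedding.subtype_apply, dif_pos i.2]
  · intro i _ hi
    have h1 : α i = none := by
      by_contra h
      exact hi (mem_spp.2 h)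
    rw [h1]
    rfl

lemma level_eq {Q' S : Finset ℕ} (hQ : ∀ l ∈ Q', 0 < l)
    (α : {l // l ∈ Q'} → Option {k // k ∈ S}) :
    ∏ l ∈ EE α, (l : ℝ) =
      Real.exp (sz (fun i : {l // l ∈ Q'} => Real.log ((i : ℕ) : ℝ)) (spp α)) := by
  unfold EE sz
  rw [Finset.prod_map, Real.exp_sum]
  refine Finset.prod_congr rfl fun i _ => ?_
  rw [Function.Embedding.subtype_apply, Real.exp_log]
  exact_mod_cast hQ i i.2

end GLEVx

open GLEVx in
theorem glev : StmtLEV → StmtGLEV := by
  intro hLEV P b N m Q' S a B B₁ C hpr ha hal hC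
  obtain ⟨hconst, hmul, -, -, -, hsum, hexp⟩ := hLEV (SS P N ∪ Q') hpr
  have h1 : ∀ l ∈ SS P N ∪ Q', 1 ≤ l := fun l hl => (hpr l hl).one_lt.le
  have hlam : ∀ i : {l // l ∈ Q'}, 0 < Real.log ((i : ℕ) : ℝ) := by
    intro i
    refine Real.log_pos ?_
    exact_mod_cast (hpr i (mem_union_right _ i.2)).one_lt
  have hLV := LV_nonneg P b N
  have key : ∀ α ∈ (univ : Finset ({l // l ∈ Q'} → Option {k // k ∈ S})),
      Lev (SS P N ∪ Q')
        (Real.exp (3 * B) * Real.exp (-2 * sz (fun i : {l // l ∈ Q'} =>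
          Real.log ((i : ℕ) : ℝ)) (spp α)) * LV P b N)
        (fun c => yy (fun i : {l // l ∈ Q'} => Real.log ((i : ℕ) : ℝ)) a B B₁ α *
          (Lm P b N m ((act α).map (Function.Embedding.subtype _)) c *
            vl (fun (i : {l // l ∈ Q'}) (k : {k // k ∈ S}) (c : ℕ) => xx m i k c) α c)) := by
    intro α _
    by_cases hB : sz (fun i : {l // l ∈ Q'} => Real.log ((i : ℕ) : ℝ)) (spp α) ≤ B
    · have h2 := hconst (yy (fun i : {l // l ∈ Q'} => Real.log ((i : ℕ) : ℝ)) a B B₁ α)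
      have h3 : Lev (SS P N ∪ Q') (LV P b N)
          (fun c => Lm P b N m ((act α).map (Function.Embedding.subtype _)) c) :=
        hexp _ _ (lev_Lm h1 P b N m subset_union_left _)
      have h4 : Lev (SS P N ∪ Q')
          (Real.exp (sz (fun i : {l // l ∈ Q'} => Real.log ((i : ℕ) : ℝ)) (spp α)))
          (fun c => vl (fun (i : {l // l ∈ Q'}) (k : {k // k ∈ S}) (c : ℕ) => xx m i k c)
            α c) := by
        rw [← level_eq (fun l hl => (hpr l (mem_union_right _ hl)).pos) α]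
        have h5 : (fun c => vl (fun (i : {l // l ∈ Q'}) (k : {k // k ∈ S}) (c : ℕ) =>
            xx m i k c) α c) = fun c => ∏ l ∈ EE α, fl m α l c :=
          funext fun c => vl_eq m α c
        rw [h5]
        refine Lev.base (EE α) (fl m α) ((EE_sub α).trans subset_union_right) ?_ ?_
        · intro l _ c
          exact fl_per m α l c
        · intro l hl c
          exact abs_fl_le m α (hpr l (mem_union_right _ (EE_sub α hl))).two_le c
      refine Lev.mono (hmul _ _ _ _ h2 (hmul _ _ _ _ h3 h4)) ?_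
      have h5 := abs_yy_le (B := B) (B1 := B₁) hlam ha (fun i => hal i i.2) α
      have h6 : Real.exp (sz (fun i : {l // l ∈ Q'} => Real.log ((i : ℕ) : ℝ)) (spp α)) ≤
          Real.exp (3 * B) * Real.exp (-2 * sz (fun i : {l // l ∈ Q'} =>
            Real.log ((i : ℕ) : ℝ)) (spp α)) := by
        rw [← Real.exp_add]
        refine Real.exp_le_exp.2 ?_
        linarith
      have h7 : 0 ≤ LV P b N *
          Real.exp (sz (fun i : {l // l ∈ Q'} => Real.log ((i : ℕ) : ℝ)) (spp α)) :=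
        mul_nonneg hLV (Real.exp_pos _).le
      calc _ ≤ 1 * (LV P b N *
            Real.exp (sz (fun i : {l // l ∈ Q'} => Real.log ((i : ℕ) : ℝ)) (spp α))) :=
            mul_le_mul_of_nonneg_right h5 h7
        _ = Real.exp (sz (fun i : {l // l ∈ Q'} => Real.log ((i : ℕ) : ℝ)) (spp α)) *
            LV P b N := by ring
        _ ≤ _ := mul_le_mul_of_nonneg_right h6 hLV
    · have h2 : yy (fun i : {l // l ∈ Q'} => Real.log ((i : ℕ) : ℝ)) a B B₁ α = 0 := by
        unfold yy wt
        rw [if_neg hB]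
      rw [h2]
      simp only [zero_mul]
      refine Lev.mono Lev.zero ?_
      exact mul_nonneg (mul_nonneg (Real.exp_pos _).le (Real.exp_pos _).le) hLV
  have h8 := hsum _ univ _ _ key
  refine Lev.mono h8 ?_
  rw [← Finset.sum_mul, ← Finset.mul_sum]
  exact mul_le_mul_of_nonneg_right (mul_le_mul_of_nonneg_left hC (Real.exp_pos _).le) hLV

end

end Pool.Agent.IPP
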