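import Pool.Agent.IPP.Stmts

set_option autoImplicit false

/-!
FAC: the function `G` depends only on the hits.
-/

namespace Pool.Agent.IPP

open Finset Pool.Agent.Lib_helper9.LG

namespace FACx

lemma dvd_iff {m k₁ k l n p : ℕ} (hl : 0 < l) (hp : l ∣ p) (hp1 : 1 ≤ p) :
    l ∣ (n + k₁ * m * (p - 1)) + k * m ↔ n % l = rho m k₁ l k := by
  unfold rho
  have h0 : n % l = ((k₁ + (l - 1) * k) * m) % l ↔
      (l : ℤ) ∣ ((k₁ + (l - 1) * k) * m : ℕ) - (n : ℤ) := by
    rw [← Nat.modEq_iff_dvd]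
    rfl
  rw [h0, ← Int.natCast_dvd_natCast]
  obtain ⟨c, rfl⟩ := hp
  have e : (((n + k₁ * m * (l * c - 1)) + k * m : ℕ) : ℤ) =
      -((((k₁ + (l - 1) * k) * m : ℕ) : ℤ) - (n : ℤ)) + (l : ℤ) * (k₁ * m * c + k * m) := by
    push_cast [Nat.cast_sub hp1, Nat.cast_sub (show 1 ≤ l from hl)]
    ring
  rw [e, dvd_add_left (dvd_mul_right _ _), dvd_neg]

lemma rho_modEq {m k₁ k l : ℕ} (hl : 0 < l) :
    ((rho m k₁ l k : ℕ) : ZMod l) = ((k₁ : ZMod l) - k) * m := by
  unfold rho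
  rw [ZMod.natCast_mod]
  have h1 : ((l - 1 : ℕ) : ZMod l) = -1 := by
    rw [Nat.cast_sub (show 1 ≤ l from hl)]
    simp
  push_cast
  rw [h1]
  ring

end FACx

open FACx in
theorem fac : StmtFAC := by
  intro P b N m k₁ Q' S a B B₁ hQ hS hk₁
  have hne : ∀ l ∈ SS P N ∪ Q', ∀ k ∈ S, ∀ k' : ℕ, (k' = k₁ ∨ k' ∈ S) → k' ≠ k →
      ((k' : ZMod l) - k) * m ≠ 0 := by
    intro l hl k hk k' hk' hkk'
    obtain ⟨hp, hlm, hkl⟩ := hQ l hl
    haveI : Fact l.Prime := ⟨hp⟩
    have h1 : (m : ZMod l) ≠ 0 := fun h => hlm ((ZMod.natCast_eq_zero_iff m l).1 h)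
    have hk'l : k' < l := by
      rcases hk' with rfl | h
      · exact hkl
      · exact hS l hl k' h
    refine mul_ne_zero (fun h => hkk' ?_) h1
    have h2 : (k' : ZMod l) = k := sub_eq_zero.1 h
    have h3 := (ZMod.natCast_eq_natCast_iff' k' k l).1 h2
    rwa [Nat.mod_eq_of_lt hk'l, Nat.mod_eq_of_lt (hS l hl k hk)] at h3
  refine ⟨⟨fun l hl => (hQ l hl).1, fun l hl k => Nat.mod_lt _ (hQ l hl).1.pos,
    fun l hl k => ?_, fun l hl k k' hkk' => ?_⟩, ?_⟩
  · rw [Nat.pos_iff_ne_zero]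
    intro h0
    have h1 := rho_modEq (m := m) (k₁ := k₁) (k := k) (hQ l hl).1.pos
    have h2 : (rho m k₁ l k : ZMod l) = 0 := by
      have h3 : rho m k₁ l k = 0 := h0
      rw [h3, Nat.cast_zero]
    rw [h2] at h1
    exact hne l hl k k.2 k₁ (Or.inl rfl) (fun h => hk₁ (h ▸ k.2)) h1.symm
  · by_contra hc
    have h1 := rho_modEq (m := m) (k₁ := k₁) (k := k) (hQ l hl).1.pos
    have h2 := rho_modEq (m := m) (k₁ := k₁) (k := k') (hQ l hl).1.pos
    have h3 : rho m k₁ l k = rho m k₁ l k' := hkk'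
    rw [h3, h2] at h1
    have h4 : (((k : ℕ) : ZMod l) - ((k' : ℕ) : ZMod l)) * m = 0 := by
      linear_combination h1
    exact hne l hl k' k'.2 k (Or.inr k.2) (fun h => hc (Subtype.ext h)) h4
  · intro n n' h
    have hpr1 : 1 ≤ pr (SS P N ∪ Q') := by
      unfold pr
      exact Finset.prod_pos fun l hl => (hQ l hl).1.pos
    have hiff : ∀ l ∈ SS P N ∪ Q', ∀ k ∈ S,
        (l ∣ (n + k₁ * m * (pr (SS P N ∪ Q') - 1)) + k * m ↔
          l ∣ (n' + k₁ * m * (pr (SS P N ∪ Q') - 1)) + k * m) := by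
      intro l hl k hk
      have hlp : l ∣ pr (SS P N ∪ Q') := Finset.dvd_prod_of_mem _ hl
      rw [dvd_iff (hQ l hl).1.pos hlp hpr1, dvd_iff (hQ l hl).1.pos hlp hpr1]
      exact h l hl ⟨k, hk⟩
    show Gc P b N m Q' S a B B₁ _ = Gc P b N m Q' S a B B₁ _
    unfold Gc GD
    refine Finset.sum_congr rfl fun α _ => ?_
    congr 1
    congr 1
    · unfold Lm
      refine Finset.prod_congr rfl fun j hj => ?_
      congr 1
      unfold om
      congr 1
      refine Finset.filter_congr fun l hl => ?_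
      have hlS : l ∈ SS P N ∪ Q' := by
        refine Finset.mem_union_left _ ?_
        unfold SS
        exact Finset.mem_biUnion.2 ⟨j, hj, hl⟩
      refine exists_congr fun k => and_congr_right fun hk => ?_
      obtain ⟨k0, -, rfl⟩ := Finset.mem_map.1 hk
      exact hiff l hlS _ k0.2
    · unfold vl
      refine Finset.prod_congr rfl fun i _ => ?_
      cases α i with
      | none => rfl
      | some k =>
        simp only [Option.elim]
        unfold xx
        have := hiff i (Finset.mem_union_right _ i.2) k k.2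
        by_cases hd : (i : ℕ) ∣ (n + k₁ * m * (pr (SS P N ∪ Q') - 1)) + k * m
        · rw [if_pos hd, if_pos (this.1 hd)]
        · rw [if_neg hd, if_neg (fun h => hd (this.2 h))]

end Pool.Agent.IPP
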