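import Mathlib
import Pool.Agent.IPP.Stmts
import Pool.Agent.Lib_helper9.LG.Avg

set_option autoImplicit false

/-!
Averages over a progression with a coprimality condition.
-/

namespace Pool.Agent.IPP

open Finset

namespace AVGx

/-- The mean of a base function. -/
lemma mean_base {Q E : Finset ℕ} {f : ℕ → ℕ → ℝ} (hQ : ∀ l ∈ Q, l.Prime) (hE : E ⊆ Q)
    (hp : ∀ l ∈ E, ∀ n, f l (n + l) = f l n) :
    mean (pr Q) (fun n => ∏ l ∈ E, f l n) = ∏ l ∈ E, ((∑ y ∈ range l, f l y) / l) := by
  classical
  unfold mean pr
  set f' : ℕ → ℕ → ℝ := fun l c => if l ∈ E then f l c else 1 with hf'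
  have h5 := Pool.Agent.Lib_helper9.LG.Avg.full_sum (b := 0) (W := 1) (P := Q) (F := f')
    (fun l hl => ⟨hQ l hl, fun h => (hQ l hl).one_lt.ne' (Nat.dvd_one.1 h)⟩)
    (fun l hl c => by
      simp only [hf']
      split_ifs with h
      · exact hp l h c
      · rfl)
  have h6 : ∀ c, ∏ l ∈ Q, f' l (0 + 1 * c) = ∏ l ∈ E, f l c := by
    intro c
    simp only [hf', zero_add, one_mul]
    rw [Finset.prod_ite_mem, Finset.inter_eq_right.2 hE]
  rw [Finset.sum_congr rfl fun c _ => (h6 c).symm, h5, Nat.cast_prod,
    ← Finset.prod_div_distrib]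
  rw [← Finset.prod_subset hE]
  · exact Finset.prod_congr rfl fun l hl => by simp [hf', hl]
  · intro l hl hlE
    have : (l : ℝ) ≠ 0 := by exact_mod_cast (hQ l hl).pos.ne'
    simp [hf', hlE, this]

end AVGx

open AVGx in
/-- Averages over a progression with a coprimality condition. -/
theorem avg : StmtAVG := by
  intro Q m W b M a g hm hW hWm hQ h
  have hQp : ∀ l ∈ Q, l.Prime := fun l hl => (hQ l hl).1
  induction h with
  | base E f hE hp hb =>
    have h1 := Pool.Agent.Lib_helper9.LG.avg m W b M E f hm hW hWm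
      (fun l hl => hQ l (hE hl)) hp hb
    rw [mean_base hQp hE hp]
    exact h1
  | zero => simp [mean]
  | add hg hh ih1 ih2 =>
    rename_i a b' g h
    have h1 : mean (pr Q) (fun n => g n + h n) = mean (pr Q) g + mean (pr Q) h := by
      unfold mean
      rw [Finset.sum_add_distrib, add_div]
    rw [h1, Finset.sum_add_distrib]
    have h2 := (abs_add_le _ _).trans (add_le_add ih1 ih2)
    calc _ = _ := by
          congr 1
          ring
      _ ≤ _ := h2
      _ = _ := by ring
  | smul c hg ih =>
    rename_i a g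
    have h1 : mean (pr Q) (fun n => c * g n) = c * mean (pr Q) g := by
      unfold mean
      rw [← Finset.mul_sum, mul_div_assoc]
    rw [h1, ← Finset.mul_sum]
    calc _ = |c| * _ := by
          rw [← abs_mul]
          congr 1
          ring
      _ ≤ |c| * _ := mul_le_mul_of_nonneg_left ih (abs_nonneg c)
      _ = _ := by ring
  | mono hg hab ih =>
    exact ih.trans (mul_le_mul_of_nonneg_left hab (by positivity))

end Pool.Agent.IPP
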