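import Mathlib
import Pool.Agent.IPP.Stmts

set_option autoImplicit false

/-!
Block P: closure properties of the level.
-/

namespace Pool.Agent.IPP

open Finset Pool.Agent.Lib_helper9.LG

noncomputable section

namespace LEVx

lemma nonneg {S : Finset ℕ} {a : ℝ} {g : ℕ → ℝ} (h : Lev S a g) : 0 ≤ a := by
  induction h with
  | base E f hE hp hb => exact Finset.prod_nonneg fun l _ => Nat.cast_nonneg l
  | zero => exact le_rfl
  | add hg hh ih1 ih2 => exact add_nonneg ih1 ih2
  | smul c hg ih => exact mul_nonneg (abs_nonneg c) ih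
  | mono hg hab ih => exact ih.trans hab

lemma one (S : Finset ℕ) : Lev S 1 (fun _ => 1) := by
  have h := Lev.base (Q := S) ∅ (fun _ _ => 0) (by simp) (by simp) (by simp)
  simpa using h

lemma const (S : Finset ℕ) (c : ℝ) : Lev S |c| (fun _ => c) := by
  have h := (one S).smul c
  simpa using h

lemma base_mul {S : Finset ℕ} (hS : ∀ l ∈ S, 1 ≤ l) (E : Finset ℕ) (f : ℕ → ℕ → ℝ) (hE : E ⊆ S)
    (hp : ∀ l ∈ E, ∀ c, f l (c + l) = f l c) (hb : ∀ l ∈ E, ∀ c, |f l c| ≤ 1)
    (E' : Finset ℕ) (f' : ℕ → ℕ → ℝ) (hE' : E' ⊆ S)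
    (hp' : ∀ l ∈ E', ∀ c, f' l (c + l) = f' l c) (hb' : ∀ l ∈ E', ∀ c, |f' l c| ≤ 1) :
    Lev S ((∏ l ∈ E, (l : ℝ)) * ∏ l ∈ E', (l : ℝ))
      (fun c => (∏ l ∈ E, f l c) * ∏ l ∈ E', f' l c) := by
  classical
  set F : ℕ → ℕ → ℝ := fun l c => (if l ∈ E then f l c else 1) * (if l ∈ E' then f' l c else 1)
    with hF
  have h1 : Lev S (∏ l ∈ E ∪ E', (l : ℝ)) (fun c => ∏ l ∈ E ∪ E', F l c) := by
    refine Lev.base _ F (Finset.union_subset hE hE') ?_ ?_
    · intro l _ c
      simp only [hF]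
      by_cases h : l ∈ E <;> by_cases h' : l ∈ E' <;> simp [h, h', hp, hp']
    · intro l _ c
      simp only [hF, abs_mul]
      by_cases h : l ∈ E <;> by_cases h' : l ∈ E'
      · simp only [h, h', if_true]
        exact mul_le_one₀ (hb l h c) (abs_nonneg _) (hb' l h' c)
      · simpa [h, h'] using hb l h c
      · simpa [h, h'] using hb' l h' c
      · simp [h, h']
  have h2 : (fun c => ∏ l ∈ E ∪ E', F l c) =
      (fun c => (∏ l ∈ E, f l c) * ∏ l ∈ E', f' l c) := by
    funext c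
    simp only [hF, Finset.prod_mul_distrib]
    congr 1
    · rw [Finset.prod_ite_mem]
      congr 1
      ext x
      simp only [mem_inter, mem_union]
      tauto
    · rw [Finset.prod_ite_mem]
      congr 1
      ext x
      simp only [mem_inter, mem_union]
      tauto
  rw [h2] at h1
  refine h1.mono ?_
  have h3 : (∏ l ∈ E, (l : ℝ)) * ∏ l ∈ E', (l : ℝ) =
      (∏ l ∈ E ∪ E', (l : ℝ)) * ∏ l ∈ E ∩ E', (l : ℝ) := (Finset.prod_union_inter).symm
  rw [h3]
  refine le_mul_of_one_le_right (Finset.prod_nonneg fun l _ => Nat.cast_nonneg l) ?_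
  have h4 : 0 < ∏ l ∈ E ∩ E', l := Finset.prod_pos fun l hl =>
    hS l (hE (Finset.mem_inter.1 hl).1)
  rw [← Nat.cast_prod]
  exact Nat.one_le_cast.2 h4

lemma base_mul_left {S : Finset ℕ} (hS : ∀ l ∈ S, 1 ≤ l) (E : Finset ℕ) (f : ℕ → ℕ → ℝ)
    (hE : E ⊆ S) (hp : ∀ l ∈ E, ∀ c, f l (c + l) = f l c) (hb : ∀ l ∈ E, ∀ c, |f l c| ≤ 1)
    {a : ℝ} {g : ℕ → ℝ} (h : Lev S a g) :
    Lev S ((∏ l ∈ E, (l : ℝ)) * a) (fun c => (∏ l ∈ E, f l c) * g c) := by
  have h0 : (0 : ℝ) ≤ ∏ l ∈ E, (l : ℝ) := Finset.prod_nonneg fun l _ => Nat.cast_nonneg l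
  induction h with
  | base E' f' hE' hp' hb' => exact base_mul hS E f hE hp hb E' f' hE' hp' hb'
  | zero => simpa using Lev.zero (Q := S)
  | add hg hh ih1 ih2 => simpa [mul_add] using ih1.add ih2
  | smul c hg ih =>
    have h1 := ih.smul c
    have e1 : ∀ x y : ℝ, |c| * (x * y) = x * (|c| * y) := fun x y => by ring
    have e2 : ∀ x y : ℝ, c * (x * y) = x * (c * y) := fun x y => by ring
    simpa only [e1, e2] using h1
  | mono hg hab ih => exact ih.mono (mul_le_mul_of_nonneg_left hab h0)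

lemma mul {S : Finset ℕ} (hS : ∀ l ∈ S, 1 ≤ l) {a b : ℝ} {g h : ℕ → ℝ} (hg : Lev S a g)
    (hh : Lev S b h) : Lev S (a * b) (fun c => g c * h c) := by
  have hb0 : 0 ≤ b := nonneg hh
  induction hg with
  | base E f hE hp hb => exact base_mul_left hS E f hE hp hb hh
  | zero => simpa using Lev.zero (Q := S)
  | add hg1 hg2 ih1 ih2 => simpa [add_mul] using ih1.add ih2
  | smul c hg1 ih =>
    have h1 := ih.smul c
    simpa only [mul_assoc] using h1
  | mono hg1 hab ih => exact ih.mono (mul_le_mul_of_nonneg_right hab hb0)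

lemma sum {S : Finset ℕ} {ι : Type} (s : Finset ι) {a : ι → ℝ} {g : ι → ℕ → ℝ}
    (h : ∀ i ∈ s, Lev S (a i) (g i)) : Lev S (∑ i ∈ s, a i) (fun c => ∑ i ∈ s, g i c) := by
  classical
  induction s using Finset.induction_on with
  | empty => simpa using Lev.zero (Q := S)
  | insert i s hi ih =>
    simp only [Finset.sum_insert hi]
    exact (h i (mem_insert_self _ _)).add (ih fun j hj => h j (mem_insert_of_mem hj))

lemma dil {S : Finset ℕ} (d : ℕ) {a : ℝ} {g : ℕ → ℝ} (h : Lev S a g) :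
    Lev S a (fun n => g (d * n)) := by
  induction h with
  | base E f hE hp hb =>
    refine Lev.base E (fun l n => f l (d * n)) hE ?_ ?_
    · intro l hl n
      have h1 := Avg.per_mul (hp l hl) d (d * n)
      rw [mul_add, mul_comm d l]
      exact h1
    · exact fun l hl n => hb l hl _
  | zero => exact Lev.zero
  | add hg hh ih1 ih2 => exact ih1.add ih2
  | smul c hg ih => exact ih.smul c
  | mono hg hab ih => exact ih.mono hab

lemma shift {S : Finset ℕ} (d : ℕ) {a : ℝ} {g : ℕ → ℝ} (h : Lev S a g) :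
    Lev S a (fun n => g (n + d)) := by
  induction h with
  | base E f hE hp hb =>
    refine Lev.base E (fun l n => f l (n + d)) hE ?_ ?_
    · intro l hl n
      rw [add_right_comm]
      exact hp l hl _
    · exact fun l hl n => hb l hl _
  | zero => exact Lev.zero
  | add hg hh ih1 ih2 => exact ih1.add ih2
  | smul c hg ih => exact ih.smul c
  | mono hg hab ih => exact ih.mono hab

lemma bound {S : Finset ℕ} (hS : ∀ l ∈ S, 1 ≤ l) {a : ℝ} {g : ℕ → ℝ} (h : Lev S a g) :
    ∀ n, |g n| ≤ a := by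
  induction h with
  | base E f hE hp hb =>
    intro n
    rw [Finset.abs_prod]
    refine Finset.prod_le_prod (fun _ _ => abs_nonneg _) fun l hl => ?_
    exact (hb l hl n).trans (Nat.one_le_cast.2 (hS l (hE hl)))
  | zero => intro n; simp
  | add hg hh ih1 ih2 => exact fun n => (abs_add_le _ _).trans (add_le_add (ih1 n) (ih2 n))
  | smul c hg ih =>
    intro n
    rw [abs_mul]
    exact mul_le_mul_of_nonneg_left (ih n) (abs_nonneg c)
  | mono hg hab ih => exact fun n => (ih n).trans hab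

lemma per {S : Finset ℕ} {a : ℝ} {g : ℕ → ℝ} (h : Lev S a g) : ∀ n, g (n + pr S) = g n := by
  induction h with
  | base E f hE hp hb =>
    intro n
    refine Finset.prod_congr rfl fun l hl => ?_
    obtain ⟨k, hk⟩ := Finset.dvd_prod_of_mem (fun l => l) (hE hl)
    rw [pr, hk]
    exact Avg.per_mul (hp l hl) k n
  | zero => exact fun _ => rfl
  | add hg hh ih1 ih2 => exact fun n => by simp only [ih1 n, ih2 n]
  | smul c hg ih => exact fun n => by simp only [ih n]
  | mono hg hab ih => exact ih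

lemma ofEXP {S : Finset ℕ} {a : ℝ} {g : ℕ → ℝ} (h : EXPd.Lev S a g) : Lev S a g := by
  induction h with
  | base E f hE hp hb => exact Lev.base E f hE hp hb
  | zero => exact Lev.zero
  | add hg hh ih1 ih2 => exact ih1.add ih2
  | neg hg ih =>
    have h1 := ih.smul (-1)
    simpa using h1
  | mono hg hab ih => exact ih.mono hab

end LEVx

theorem lev : StmtLEV := by
  intro Q hQ
  have hS : ∀ l ∈ Q, 1 ≤ l := fun l hl => (hQ l hl).one_lt.le
  exact ⟨LEVx.const Q, fun a b g h hg hh => LEVx.mul hS hg hh, fun a g d hg => LEVx.dil d hg,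
    fun a g d hg => LEVx.shift d hg,
    fun a g hg => ⟨LEVx.nonneg hg, LEVx.bound hS hg, LEVx.per hg⟩,
    fun ι s a g h => LEVx.sum s h, fun a g hg => LEVx.ofEXP hg⟩

end

end Pool.Agent.IPP
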