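import Mathlib
import Pool.Agent.IPP.Stmts
import Pool.Agent.IP.Face
import Pool.Agent.Lib_helper9.LG.OmD

set_option autoImplicit false

/-!
The second moment of `G` over the primes (LPG).
-/

namespace Pool.Agent.IPP

open Finset Filter Pool.Agent.Lib_helper9.LG

noncomputable section

namespace LPGx

lemma pe (k : ℕ) (b c : ℝ) (hb : 0 < b) (hc : 0 < c) :
    ∀ᶠ L : ℝ in atTop, c * L ^ k ≤ Real.exp (b * L) := by
  have h := (isLittleO_pow_exp_pos_mul_atTop k hb).bound (show (0 : ℝ) < 1 / c by positivity)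
  filter_upwards [h, eventually_ge_atTop 0] with L hL hL0
  rw [Real.norm_of_nonneg (by positivity), Real.norm_of_nonneg (Real.exp_pos _).le] at hL
  calc c * L ^ k ≤ c * (1 / c * Real.exp (b * L)) := by gcongr
    _ = Real.exp (b * L) := by field_simp

lemma big (η C : ℝ) (hη : 0 < η) (hC : 0 < C) : ∀ᶠ L : ℝ in atTop,
    1600 ≤ L ∧ L ^ 100 ≤ Real.exp (η * L) ∧ 2 * L ^ 2 ≤ Real.exp (L / 20) ∧ C ≤ Real.exp L ∧
    2 * C ≤ L ∧ 9 * C * L ^ 4 ≤ Real.exp (L / 100) ∧ 162 ≤ Real.exp (L / 100) ∧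
    2 * L ≤ Real.exp (L / 100) := by
  have h1 := pe 100 η 1 hη one_pos
  have h2 := pe 2 (1 / 20) 2 (by norm_num) (by norm_num)
  have h3 := pe 0 1 C one_pos hC
  have h4 := pe 4 (1 / 100) (9 * C) (by norm_num) (by positivity)
  have h5 := pe 0 (1 / 100) 162 (by norm_num) (by norm_num)
  have h6 := pe 1 (1 / 100) 2 (by norm_num) (by norm_num)
  filter_upwards [h1, h2, h3, h4, h5, h6, eventually_ge_atTop 1600, eventually_ge_atTop (2 * C)]
    with L a1 a2 a3 a4 a5 a6 a7 a8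
  refine ⟨a7, by simpa using a1, ?_, by simpa using a3, a8, ?_, ?_, ?_⟩
  · rw [show L / 20 = 1 / 20 * L by ring]
    exact a2
  · rw [show L / 100 = 1 / 100 * L by ring]
    exact a4
  · rw [show L / 100 = 1 / 100 * L by ring]
    simpa using a5
  · rw [show L / 100 = 1 / 100 * L by ring]
    simpa using a6

lemma sumC (Q S : Finset ℕ) (z : ℝ) (hz : 1 ≤ z) (hQz : ∀ l ∈ Q, z < (l : ℝ))
    (hK : 2 * (S.card : ℝ) ≤ z) :
    ∑ α : {l // l ∈ Q} → Option {k // k ∈ S},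
      Real.exp (-2 * sz (fun i : {l // l ∈ Q} => Real.log ((i : ℕ) : ℝ)) (spp α)) ≤ 3 := by
  have hz0 : 0 < z := by linarith
  refine (sum_exp_neg (fun i : {l // l ∈ Q} => Real.log ((i : ℕ) : ℝ))).trans ?_
  rw [Fintype.card_coe]
  have h5 : ∑ i : {l // l ∈ Q}, Real.exp (-2 * Real.log ((i : ℕ) : ℝ)) ≤ 2 / z := by
    have h6 : ∀ i : {l // l ∈ Q}, Real.exp (-2 * Real.log ((i : ℕ) : ℝ)) =
        (((i : ℕ) : ℝ) ^ 2)⁻¹ := by
      intro i
      have hi : (0 : ℝ) < ((i : ℕ) : ℝ) := by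
        have := hQz i i.2
        linarith
      rw [show -2 * Real.log ((i : ℕ) : ℝ) = -(Real.log ((i : ℕ) : ℝ) * (2 : ℕ)) by
        push_cast; ring, Real.exp_neg, Real.exp_mul, Real.exp_log hi, Real.rpow_natCast]
    rw [Finset.sum_congr rfl fun i _ => h6 i]
    have h7 : ∑ i : {l // l ∈ Q}, (((i : ℕ) : ℝ) ^ 2)⁻¹ =
        ∑ l ∈ Q, ((l : ℝ) ^ 2)⁻¹ :=
      Finset.sum_coe_sort Q (fun l => ((l : ℝ) ^ 2)⁻¹)
    rw [h7]
    obtain ⟨R, hR⟩ : ∃ R : ℕ, R = Q.sup id + 1 := ⟨_, rfl⟩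
    have h8 : Q ⊆ Ioo ⌊z⌋₊ R := by
      intro l hl
      rw [mem_Ioo]
      refine ⟨?_, ?_⟩
      · rw [Nat.floor_lt (by positivity)]
        exact hQz l hl
      · rw [hR]
        have : l ≤ Q.sup id := Finset.le_sup (f := id) hl
        omega
    calc ∑ l ∈ Q, ((l : ℝ) ^ 2)⁻¹ ≤ ∑ l ∈ Ioo ⌊z⌋₊ R, ((l : ℝ) ^ 2)⁻¹ :=
          Finset.sum_le_sum_of_subset_of_nonneg h8 fun l _ _ => by positivity
      _ ≤ 2 / ((⌊z⌋₊ : ℝ) + 1) := sum_Ioo_inv_sq_le _ _
      _ ≤ 2 / z := by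
          apply div_le_div_of_nonneg_left (by norm_num) (by positivity)
          exact (Nat.lt_floor_add_one _).le
  have h6 : (S.card : ℝ) * ∑ i : {l // l ∈ Q}, Real.exp (-2 * Real.log ((i : ℕ) : ℝ)) ≤ 1 := by
    calc (S.card : ℝ) * ∑ i : {l // l ∈ Q}, Real.exp (-2 * Real.log ((i : ℕ) : ℝ)) ≤
          (S.card : ℝ) * (2 / z) := by gcongr
      _ = 2 * (S.card : ℝ) / z := by ring
      _ ≤ 1 := by rwa [div_le_one hz0]
  calc Real.exp ((S.card : ℝ) * ∑ i : {l // l ∈ Q}, Real.exp (-2 * Real.log ((i : ℕ) : ℝ))) ≤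
        Real.exp 1 := Real.exp_le_exp.2 h6
    _ ≤ 3 := by
        have := Real.exp_one_lt_d9
        linarith

lemma cardS (S : Finset ℕ) (L : ℝ) (hS : ∀ k ∈ S, (k : ℝ) ≤ L ^ 2) :
    (S.card : ℝ) ≤ L ^ 2 + 1 := by
  have h1 : S ⊆ range (⌊L ^ 2⌋₊ + 1) := by
    intro k hk
    rw [mem_range, Nat.lt_succ_iff]
    exact Nat.le_floor (hS k hk)
  have h2 := card_le_card h1
  rw [card_range] at h2
  calc (S.card : ℝ) ≤ ((⌊L ^ 2⌋₊ + 1 : ℕ) : ℝ) := by exact_mod_cast h2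
    _ = (⌊L ^ 2⌋₊ : ℝ) + 1 := by push_cast; ring
    _ ≤ L ^ 2 + 1 := by
        have := Nat.floor_le (show (0 : ℝ) ≤ L ^ 2 by positivity)
        linarith

lemma l7 (L : ℝ) (hL : 1600 ≤ L) : L ^ 7 ≤ L ^ 100 :=
  pow_le_pow_right₀ (by linarith) (by norm_num)

lemma k16 (L K : ℝ) (hL : 1600 ≤ L) (hK0 : 0 ≤ K) (hK : K ≤ 2 * L ^ 2) :
    16 * K ^ 2 ≤ L ^ 100 := by
  have hL0 : 0 < L := by linarith
  have h1 : K ^ 2 ≤ (2 * L ^ 2) ^ 2 := pow_le_pow_left₀ hK0 hK 2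
  have h2 : (64 : ℝ) ≤ L ^ 3 :=
    (by norm_num : (64 : ℝ) ≤ 1600 ^ 3).trans (pow_le_pow_left₀ (by norm_num) hL 3)
  have h3 : 64 * L ^ 4 ≤ L ^ 3 * L ^ 4 := mul_le_mul_of_nonneg_right h2 (by positivity)
  have h4 := l7 L hL
  have h5 : L ^ 3 * L ^ 4 = L ^ 7 := by ring
  have h6 : (2 * L ^ 2) ^ 2 = 4 * L ^ 4 := by ring
  linarith

lemma k120 (L K : ℝ) (hL : 1600 ≤ L) (hK0 : 0 ≤ K) (hK : K ≤ 2 * L ^ 2) :
    120 * K ^ 3 ≤ L ^ 100 := by
  have hL0 : 0 < L := by linarith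
  have h1 : K ^ 3 ≤ (2 * L ^ 2) ^ 3 := pow_le_pow_left₀ hK0 hK 3
  have h3 : 960 * L ^ 6 ≤ L * L ^ 6 := mul_le_mul_of_nonneg_right (by linarith) (by positivity)
  have h4 := l7 L hL
  have h5 : L * L ^ 6 = L ^ 7 := by ring
  have h6 : (2 * L ^ 2) ^ 3 = 8 * L ^ 6 := by ring
  linarith

lemma k8 (L K : ℝ) (hL : 1600 ≤ L) (_hK0 : 0 ≤ K) (hK : K ≤ 2 * L ^ 2) :
    8 * K * L ≤ L ^ 100 := by
  have hL0 : 0 < L := by linarith
  have h1 : K * L ≤ (2 * L ^ 2) * L := mul_le_mul_of_nonneg_right hK hL0.le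
  have h2 : (16 : ℝ) ≤ L ^ 4 :=
    (by norm_num : (16 : ℝ) ≤ 1600 ^ 4).trans (pow_le_pow_left₀ (by norm_num) hL 4)
  have h3 : 16 * L ^ 3 ≤ L ^ 4 * L ^ 3 := mul_le_mul_of_nonneg_right h2 (by positivity)
  have h4 := l7 L hL
  have h5 : L ^ 4 * L ^ 3 = L ^ 7 := by ring
  have h6 : (2 * L ^ 2) * L = 2 * L ^ 3 := by ring
  linarith

lemma two_pow_totient (m : ℕ) (hm : 1 ≤ m) :
    1 / (2 : ℝ) ^ m.primeFactors.card ≤ (m.totient : ℝ) / m := by
  have h1 : (m.totient : ℝ) = m * ∏ p ∈ m.primeFactors, (1 - ((p : ℝ))⁻¹) := by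
    have h := congrArg (fun q : ℚ => (q : ℝ)) (Nat.totient_eq_mul_prod_factors m)
    push_cast at h
    exact h
  have hm0 : (0 : ℝ) < m := by exact_mod_cast hm
  rw [h1, mul_div_cancel_left₀ _ hm0.ne', one_div, ← inv_pow, ← Finset.prod_const]
  apply Finset.prod_le_prod
  · intro p _
    norm_num
  · intro p hp
    have h2 : (2 : ℝ) ≤ p := by exact_mod_cast (Nat.prime_of_mem_primeFactors hp).two_le
    have h3 : (p : ℝ)⁻¹ ≤ 2⁻¹ := by
      apply inv_anti₀ (by norm_num) h2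
    have h4 : (2 : ℝ)⁻¹ = 1 - 2⁻¹ := by norm_num
    rw [h4]
    linarith

/-- The eighth root. -/
lemma root8 (L K : ℝ) (hL : 1600 ≤ L) (hK0 : 0 ≤ K) (hK : K ≤ 2 * L ^ 2) :
    (K ^ 3 * L / L ^ 100) ^ (1 / 8 : ℝ) ≤ 1 / L ^ 11 := by
  have hL0 : 0 < L := by linarith
  have h1 : K ^ 3 * L / L ^ 100 ≤ (1 / L ^ 11) ^ 8 := by
    rw [div_pow, one_pow, ← pow_mul, div_le_div_iff₀ (by positivity) (by positivity), one_mul]
    have h2 : K ^ 3 ≤ (2 * L ^ 2) ^ 3 := by gcongr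
    have h3 : (8 : ℝ) ≤ L ^ 5 := by
      calc (8 : ℝ) ≤ 1600 ^ 5 := by norm_num
        _ ≤ L ^ 5 := by gcongr
    calc K ^ 3 * L * L ^ (11 * 8) ≤ (2 * L ^ 2) ^ 3 * L * L ^ (11 * 8) := by gcongr
      _ = 8 * L ^ 95 := by ring
      _ ≤ L ^ 5 * L ^ 95 := by gcongr
      _ = L ^ 100 := by ring
  calc (K ^ 3 * L / L ^ 100) ^ (1 / 8 : ℝ) ≤ ((1 / L ^ 11) ^ 8) ^ (1 / 8 : ℝ) := by
        apply Real.rpow_le_rpow (by positivity) h1 (by norm_num)
    _ = 1 / L ^ 11 := by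
        rw [← Real.rpow_natCast, ← Real.rpow_mul (by positivity)]
        norm_num

/-- The real inequality. -/
lemma fin (C L K D T Th E2 M2 E4 M4 e i m W : ℝ) (hC : 0 < C) (hL : 1600 ≤ L)
    (hK0 : 0 ≤ K) (hK : K ≤ 2 * L ^ 2) (_hi0 : 0 ≤ i) (hi : i ≤ L ^ 2) (hm : m = Real.exp L)
    (hW : 1 ≤ W) (f5 : 2 * C ≤ L) (f6 : 9 * C * L ^ 4 ≤ Real.exp (L / 100))
    (f7 : 162 ≤ Real.exp (L / 100)) (f8 : 2 * L ≤ Real.exp (L / 100))
    (hD : D ≤ 9 * Real.exp (26 / 10000 * L)) (hM4 : 0 ≤ M4)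
    (_he0 : 0 ≤ e) (he : e ≤ Real.exp (-(83 / 100) * L)) (hTh0 : 0 ≤ Th)
    (hTh : Th ≤ 2 * L * Real.exp L) (h2 : |M2 - E2| ≤ e) (h4 : |M4 - E4| ≤ e)
    (h1 : |T - E2 * Th| ≤ C * L ^ 4 * (Real.sqrt (i + 1) * m / W *
      (K ^ 3 * L / L ^ 100) ^ (1 / 8 : ℝ) * Real.sqrt E4 + m ^ (9 / 10 : ℝ) * D)) :
    |T - Th * M2| ≤ Real.exp L / (W * L) * Real.sqrt M4 + Real.exp (99 / 100 * L) := by
  have hL0 : 0 < L := by linarith
  have hW0 : 0 < W := by linarith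
  have hm0 : 0 < m := hm ▸ Real.exp_pos L
  -- the coefficient
  have c1 : Real.sqrt (i + 1) ≤ 2 * L := by
    rw [Real.sqrt_le_left (by positivity)]
    nlinarith
  have c2 := root8 L K hL hK0 hK
  have c3 : C * L ^ 4 * (Real.sqrt (i + 1) * (K ^ 3 * L / L ^ 100) ^ (1 / 8 : ℝ)) ≤ 1 / L := by
    calc C * L ^ 4 * (Real.sqrt (i + 1) * (K ^ 3 * L / L ^ 100) ^ (1 / 8 : ℝ)) ≤
          C * L ^ 4 * (2 * L * (1 / L ^ 11)) := by gcongr
      _ = (2 * C / L ^ 5) * (1 / L) := by field_simp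
      _ ≤ 1 * (1 / L) := by
          apply mul_le_mul_of_nonneg_right _ (by positivity)
          rw [div_le_one (by positivity)]
          have h3 : (1 : ℝ) ≤ L ^ 4 := one_le_pow₀ (by linarith)
          nlinarith
      _ = 1 / L := one_mul _
  -- the root of the fourth moment
  have c4 : Real.sqrt E4 ≤ Real.sqrt M4 + Real.exp (-(415 / 1000) * L) := by
    have h5 : E4 ≤ M4 + e := by
      have := (abs_le.1 h4).1
      linarith
    have h6 : e ≤ Real.exp (-(415 / 1000) * L) ^ 2 := by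
      rw [← Real.exp_nat_mul]
      refine he.trans (Real.exp_le_exp.2 ?_)
      push_cast
      linarith
    have h7 := Real.sq_sqrt hM4
    have h8 := Real.sqrt_nonneg M4
    have h9 := Real.exp_pos (-(415 / 1000) * L)
    rw [Real.sqrt_le_left (by positivity)]
    nlinarith [mul_nonneg h8 h9.le]
  have c5 : C * L ^ 4 * (Real.sqrt (i + 1) * m / W *
      (K ^ 3 * L / L ^ 100) ^ (1 / 8 : ℝ) * Real.sqrt E4) ≤
      Real.exp L / (W * L) * Real.sqrt M4 + Real.exp (585 / 1000 * L) := by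
    calc C * L ^ 4 * (Real.sqrt (i + 1) * m / W *
          (K ^ 3 * L / L ^ 100) ^ (1 / 8 : ℝ) * Real.sqrt E4) =
        (C * L ^ 4 * (Real.sqrt (i + 1) * (K ^ 3 * L / L ^ 100) ^ (1 / 8 : ℝ))) *
          (m / W * Real.sqrt E4) := by ring
      _ ≤ 1 / L * (m / W * (Real.sqrt M4 + Real.exp (-(415 / 1000) * L))) := by gcongr
      _ = Real.exp L / (W * L) * Real.sqrt M4 +
          (1 / (W * L)) * (Real.exp L * Real.exp (-(415 / 1000) * L)) := by
          rw [hm]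
          field_simp
      _ ≤ Real.exp L / (W * L) * Real.sqrt M4 + 1 * Real.exp (585 / 1000 * L) := by
          rw [← Real.exp_add]
          have h5 : L + -(415 / 1000) * L = 585 / 1000 * L := by ring
          rw [h5]
          have h6 : 1 / (W * L) ≤ 1 := by
            rw [div_le_one (by positivity)]
            nlinarith
          gcongr
      _ = _ := by rw [one_mul]
  have c6 : C * L ^ 4 * (m ^ (9 / 10 : ℝ) * D) ≤ Real.exp (95 / 100 * L) := by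
    have h5 : m ^ (9 / 10 : ℝ) = Real.exp (9 / 10 * L) := by
      rw [hm, ← Real.exp_mul]
      congr 1
      ring
    calc C * L ^ 4 * (m ^ (9 / 10 : ℝ) * D) ≤
          C * L ^ 4 * (Real.exp (9 / 10 * L) * (9 * Real.exp (26 / 10000 * L))) := by
          rw [h5]
          gcongr
      _ = (9 * C * L ^ 4) * (Real.exp (9 / 10 * L) * Real.exp (26 / 10000 * L)) := by ring
      _ ≤ Real.exp (L / 100) * (Real.exp (9 / 10 * L) * Real.exp (26 / 10000 * L)) := by gcongr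
      _ = Real.exp (L / 100 + (9 / 10 * L + 26 / 10000 * L)) := by rw [Real.exp_add, Real.exp_add]
      _ ≤ Real.exp (95 / 100 * L) := Real.exp_le_exp.2 (by linarith)
  have c7 : Th * |M2 - E2| ≤ Real.exp (95 / 100 * L) := by
    calc Th * |M2 - E2| ≤ (2 * L * Real.exp L) * Real.exp (-(83 / 100) * L) := by
          apply mul_le_mul hTh (h2.trans he) (abs_nonneg _) (by positivity)
      _ ≤ (Real.exp (L / 100) * Real.exp L) * Real.exp (-(83 / 100) * L) := by gcongr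
      _ = Real.exp (L / 100 + L + -(83 / 100) * L) := by rw [Real.exp_add, Real.exp_add]
      _ ≤ Real.exp (95 / 100 * L) := Real.exp_le_exp.2 (by linarith)
  have c8 : Real.exp (585 / 1000 * L) ≤ Real.exp (95 / 100 * L) :=
    Real.exp_le_exp.2 (by linarith)
  have c9 : 3 * Real.exp (95 / 100 * L) ≤ Real.exp (99 / 100 * L) := by
    calc 3 * Real.exp (95 / 100 * L) ≤ Real.exp (L / 100) * Real.exp (95 / 100 * L) := by
          gcongr
          linarith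
      _ = Real.exp (L / 100 + 95 / 100 * L) := by rw [Real.exp_add]
      _ ≤ Real.exp (99 / 100 * L) := Real.exp_le_exp.2 (by linarith)
  have c10 : |T - Th * M2| ≤ |T - E2 * Th| + Th * |M2 - E2| := by
    have h5 : T - Th * M2 = (T - E2 * Th) + -(Th * (M2 - E2)) := by ring
    rw [h5]
    refine (abs_add_le _ _).trans ?_
    rw [abs_neg, abs_mul, abs_of_nonneg hTh0]
  have c11 : C * L ^ 4 * (Real.sqrt (i + 1) * m / W *
      (K ^ 3 * L / L ^ 100) ^ (1 / 8 : ℝ) * Real.sqrt E4 + m ^ (9 / 10 : ℝ) * D) =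
      C * L ^ 4 * (Real.sqrt (i + 1) * m / W *
      (K ^ 3 * L / L ^ 100) ^ (1 / 8 : ℝ) * Real.sqrt E4) + C * L ^ 4 * (m ^ (9 / 10 : ℝ) * D) :=
    mul_add _ _ _
  linarith

/-- Division by the expected number. -/
lemma dv (A M E d ρ w n : ℝ) (hM : M = n * ρ) (hn : 0 < n) (hw : 1 ≤ w) (hρ : 1 / w ≤ ρ)
    (hd : 0 ≤ d) (h : |A - M * E| ≤ w * d) : |A / M - E| ≤ w ^ 2 * d / n := by
  have hw0 : 0 < w := by linarith
  have hρ0 : 0 < ρ := lt_of_lt_of_le (by positivity) hρ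
  have hM0 : 0 < M := by rw [hM]; positivity
  have h1 : A / M - E = (A - M * E) / M := by field_simp
  rw [h1, abs_div, abs_of_pos hM0, div_le_div_iff₀ hM0 hn]
  have h2 : 1 ≤ ρ * w := by rwa [div_le_iff₀ hw0] at hρ
  calc |A - M * E| * n ≤ (w * d) * n := by gcongr
    _ = (w * d) * n * 1 := by ring
    _ ≤ (w * d) * n * (ρ * w) := by gcongr
    _ = w ^ 2 * d * M := by rw [hM]; ring

end LPGx

open LPGx in
/-- LPG. -/
theorem t_LPG : StmtLEV → StmtAVG → StmtINT → StmtFAC → StmtGLEV → IP.S_LPG := by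
  intro hLEV hAVG hINT hFAC hGLEV η hη
  obtain ⟨C, hC, hint⟩ := hINT
  obtain ⟨X₀, hX₀⟩ := OmD.om 1
  obtain ⟨L₀, hL₀⟩ := eventually_atTop.1 (big η C hη hC)
  refine ⟨⌈Real.exp L₀⌉₊ + ⌈X₀⌉₊ + 1, fun m hm P bb N W b i n Q S L a B B1 hp => ?_⟩
  have hm0 : (0 : ℝ) < m := by exact_mod_cast hp.hm
  have hLm : L = Real.log m := hp.hL
  have hexp : (m : ℝ) = Real.exp L := by rw [hLm, Real.exp_log hm0]
  have hmr : ((⌈Real.exp L₀⌉₊ + ⌈X₀⌉₊ + 1 : ℕ) : ℝ) ≤ (m : ℝ) := by exact_mod_cast hm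
  push_cast at hmr
  have hce1 := Nat.le_ceil (Real.exp L₀)
  have hce2 := Nat.le_ceil X₀
  have hc0 : (0 : ℝ) ≤ (⌈X₀⌉₊ : ℝ) := Nat.cast_nonneg _
  have hc0' : (0 : ℝ) ≤ (⌈Real.exp L₀⌉₊ : ℝ) := Nat.cast_nonneg _
  have hLL : L₀ ≤ L := by
    rw [hLm, Real.le_log_iff_exp_le hm0]
    linarith
  obtain ⟨f1, f2, f3, f4, f5, f6, f7, f8⟩ := hL₀ L hLL
  have hL0 : 0 < L := by linarith
  -- number of prime factors
  set w : ℝ := (2 : ℝ) ^ m.primeFactors.card with hw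
  have hw1 : 1 ≤ w := one_le_pow₀ (by norm_num)
  have hw2 : w ^ 2 ≤ Real.exp (L / 10) := by
    have h1 := hX₀ m (by linarith) m hp.hm (by simp)
    have h2 : (m : ℝ) ^ (1 / 10 : ℝ) = Real.exp (L / 10) := by
      rw [hexp, ← Real.exp_mul]
      congr 1
      ring
    rw [h2] at h1
    have h3 : w ^ 2 = (4 : ℝ) ^ m.primeFactors.card := by
      rw [hw, ← pow_mul, mul_comm, pow_mul]
      norm_num
    rwa [h3]
  -- the modulus W
  have hW1 : (1 : ℝ) ≤ W := by exact_mod_cast hp.hW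
  have hW20 : (W : ℝ) ≤ Real.exp (L / 20) := by
    refine hp.hWL.trans (Real.exp_le_exp.2 ?_)
    have h1 := Real.sq_sqrt hL0.le
    have h2 : 40 ≤ Real.sqrt L := by
      apply Real.le_sqrt_of_sq_le
      linarith
    nlinarith
  have hWm' : W ≤ m := by
    have h1 : (W : ℝ) ≤ m := by
      rw [hexp]
      exact hW20.trans (Real.exp_le_exp.2 (by linarith))
    exact_mod_cast h1
  have hn := hp.hn
  have hWpos : 0 < W := hp.hW
  have hn1 : W * n ≤ m := by rw [hn]; exact Nat.mul_div_le m W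
  have hnpos : 1 ≤ n := by
    rw [hn]
    exact Nat.div_pos hWm' hWpos
  have hn2 : m ≤ 2 * (W * n) := by
    have h1 := Nat.div_add_mod m W
    have h2 := Nat.mod_lt m hWpos
    rw [← hn] at h1
    have h3 : W ≤ W * n := Nat.le_mul_of_pos_right W hnpos
    omega
  have hn2r : (m : ℝ) ≤ 2 * (W * n) := by exact_mod_cast hn2
  have hnr : (0 : ℝ) < n := by exact_mod_cast hnpos
  -- sites
  have hScard := cardS S L hp.hk
  have hS0 : (0 : ℝ) ≤ S.card := Nat.cast_nonneg _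
  have hL1 : 1 ≤ L := by linarith
  have hS2 : (S.card : ℝ) ≤ 2 * L ^ 2 := by
    have : 1 ≤ L ^ 2 := one_le_pow₀ hL1
    linarith
  have hL7 : L ^ 7 ≤ L ^ 100 := pow_le_pow_right₀ hL1 (by norm_num)
  -- the primes
  set Qt : Finset ℕ := SS P N ∪ Q with hQt
  have hlarge : ∀ l ∈ Qt, l.Prime ∧ ¬ l ∣ m ∧ ¬ l ∣ W ∧ L ^ 100 ≤ (l : ℝ) := by
    intro l hl
    rcases mem_union.1 hl with h | h
    · obtain ⟨a1, a2, a3, a4, _⟩ := hp.hS l h
      exact ⟨a1, a2, a3, a4.le⟩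
    · obtain ⟨a1, a2, a3, a4, _⟩ := hp.hQ l h
      exact ⟨a1, a2, a3, f2.trans a4.le⟩
  have hL2 : L ^ 2 < L ^ 100 := pow_lt_pow_right₀ (by linarith) (by norm_num)
  have hil : ∀ l ∈ Qt, i < l := by
    intro l hl
    have h1 : (i : ℝ) < l := lt_of_le_of_lt hp.hiL (lt_of_lt_of_le hL2 (hlarge l hl).2.2.2)
    exact_mod_cast h1
  have hkl : ∀ l ∈ Qt, ∀ k ∈ S, k < l := by
    intro l hl k hk
    have h1 : (k : ℝ) < l := lt_of_le_of_lt (hp.hk k hk) (lt_of_lt_of_le hL2 (hlarge l hl).2.2.2)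
    exact_mod_cast h1
  obtain ⟨hhits, hfac⟩ := hFAC P bb N m i Q S a B B1
    (fun l hl => ⟨(hlarge l hl).1, (hlarge l hl).2.1, hil l hl⟩) hkl hp.hiS
  -- the level of G
  set G : ℕ → ℝ := fun c => Gc P bb N m Q S a B B1 c with hG
  have hz1 : (1 : ℝ) ≤ L ^ 100 := one_le_pow₀ hL1
  have hz4 : 2 * (S.card : ℝ) ≤ L ^ 100 := by
    have h1 : 4 * L ^ 2 ≤ L ^ 7 := by
      have h2 : (4 : ℝ) ≤ L ^ 5 := by
        calc (4 : ℝ) ≤ 1600 ^ 5 := by norm_num
          _ ≤ L ^ 5 := by gcongr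
      calc 4 * L ^ 2 ≤ L ^ 5 * L ^ 2 := by gcongr
        _ = L ^ 7 := by ring
    linarith
  have hsum := sumC Q S (L ^ 100) hz1
    (fun l hl => lt_of_le_of_lt f2 (hp.hQ l hl).2.2.2.1) hz4
  have hal : ∀ l ∈ Q, a ≤ Real.log l := by
    intro l hl
    have h1 := (hp.hQ l hl).2.2.2.1
    have h2 : (0 : ℝ) < l := (Real.exp_pos _).trans h1
    have h3 : η * L < Real.log l := (Real.lt_log_iff_exp_lt h2).2 h1
    exact hp.haη.trans h3.le
  have hlev := hGLEV P bb N m Q S a B B1 3 (fun l hl => (hlarge l hl).1) hp.ha hal hsum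
  obtain ⟨D0, hD0⟩ : ∃ D0 : ℝ, D0 = Real.exp (3 * B) * 3 * LV P bb N := ⟨_, rfl⟩
  rw [← hD0] at hlev
  have hLV1 : 1 ≤ LV P bb N := by
    unfold LV
    apply Finset.prod_induction _ (fun x : ℝ => 1 ≤ x)
      (fun u v hu hv => one_le_mul_of_one_le_of_one_le hu hv) le_rfl
    intro j _
    apply one_le_pow₀
    have h1 : (0 : ℝ) ≤ ∑ l ∈ P j, (l : ℝ) := Finset.sum_nonneg fun _ _ => Nat.cast_nonneg _
    linarith
  have hB0 : 0 ≤ B := hp.hB1.le.trans hp.hB1B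
  have hD01 : 1 ≤ D0 := by
    rw [hD0]
    have h1 : 1 ≤ Real.exp (3 * B) := Real.one_le_exp (by linarith)
    have h2 : 1 ≤ Real.exp (3 * B) * 3 := by linarith
    exact one_le_mul_of_one_le_of_one_le h2 hLV1
  have hD00 : 0 < D0 := by linarith
  have hD0u : D0 ≤ 3 * Real.exp (13 / 10000 * L) := by
    have h1 := hp.hB
    calc D0 = Real.exp (3 * B) * 3 * LV P bb N := hD0
      _ ≤ Real.exp (3 / 10000 * L) * 3 * Real.exp (L / 1000) := by
          have h2 : 3 * B ≤ 3 / 10000 * L := by linarith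
          have h3 := hp.hLV
          gcongr
      _ = 3 * (Real.exp (3 / 10000 * L) * Real.exp (L / 1000)) := by ring
      _ = 3 * Real.exp (13 / 10000 * L) := by
          rw [← Real.exp_add]
          congr 2
          ring
  have hD2u : D0 ^ 2 ≤ 9 * Real.exp (26 / 10000 * L) := by
    calc D0 ^ 2 ≤ (3 * Real.exp (13 / 10000 * L)) ^ 2 := by gcongr
      _ = 9 * Real.exp (26 / 10000 * L) := by
          rw [mul_pow, ← Real.exp_nat_mul]
          have h5 : ((2 : ℕ) : ℝ) * (13 / 10000 * L) = 26 / 10000 * L := by push_cast; ring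
          rw [h5]
          norm_num
  have hD4u : D0 ^ 4 ≤ 81 * Real.exp (52 / 10000 * L) := by
    calc D0 ^ 4 ≤ (3 * Real.exp (13 / 10000 * L)) ^ 4 := by gcongr
      _ = 81 * Real.exp (52 / 10000 * L) := by
          rw [mul_pow, ← Real.exp_nat_mul]
          have h5 : ((4 : ℕ) : ℝ) * (13 / 10000 * L) = 52 / 10000 * L := by push_cast; ring
          rw [h5]
          norm_num
  obtain ⟨_, hmul, _⟩ := hLEV Qt (fun l hl => (hlarge l hl).1)
  have hG2 : Lev Qt (D0 ^ 2) (fun c => G c ^ 2) := by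
    have h1 := hmul _ _ _ _ hlev hlev
    have e1 : D0 * D0 = D0 ^ 2 := (sq D0).symm
    have e2 : (fun c => G c * G c) = fun c => G c ^ 2 := by
      funext c
      exact (sq _).symm
    rw [e1] at h1
    rw [← e2]
    exact h1
  have hG4 : Lev Qt (D0 ^ 4) (fun c => (G c ^ 2) ^ 2) := by
    have h1 := hmul _ _ _ _ hG2 hG2
    have e1 : D0 ^ 2 * D0 ^ 2 = D0 ^ 4 := by ring
    have e2 : (fun c => G c ^ 2 * G c ^ 2) = fun c => (G c ^ 2) ^ 2 := by
      funext c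
      exact (sq _).symm
    rw [e1] at h1
    rw [← e2]
    exact h1
  -- the averages
  have hcop : ∀ l ∈ Qt, l.Prime ∧ ¬ l ∣ m ∧ ¬ l ∣ W := fun l hl =>
    ⟨(hlarge l hl).1, (hlarge l hl).2.1, (hlarge l hl).2.2.1⟩
  have hA2 := hAVG Qt m W b n (D0 ^ 2) (fun c => G c ^ 2) hp.hm hp.hW hp.hWm hcop hG2
  have hA4 := hAVG Qt m W b n (D0 ^ 4) (fun c => (G c ^ 2) ^ 2) hp.hm hp.hW hp.hWm hcop hG4
  have hρ := two_pow_totient m hp.hm
  have hB2 := dv _ _ _ _ _ w n rfl hnr hw1 hρ (by positivity) hA2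
  have hB4 := dv _ _ _ _ _ w n rfl hnr hw1 hρ (by positivity) hA4
  have hGf : ∀ x : ℕ, IP.Gf P bb N m W b Q S a B B1 x = G (b + W * x) := fun x => rfl
  have hn3 : Real.exp (95 / 100 * L) ≤ 2 * n := by
    have h1 : Real.exp (L / 20) * Real.exp (95 / 100 * L) ≤ Real.exp (L / 20) * (2 * n) := by
      calc Real.exp (L / 20) * Real.exp (95 / 100 * L) = m := by
            rw [← Real.exp_add, hexp]
            congr 1
            ring
        _ ≤ 2 * (W * n) := hn2r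
        _ ≤ 2 * (Real.exp (L / 20) * n) := by gcongr
        _ = Real.exp (L / 20) * (2 * n) := by ring
    exact le_of_mul_le_mul_left h1 (Real.exp_pos _)
  have he : w ^ 2 * D0 ^ 4 / n ≤ Real.exp (-(83 / 100) * L) := by
    rw [div_le_iff₀ hnr]
    have h1 : w ^ 2 * D0 ^ 4 ≤ Real.exp (L / 10) * (81 * Real.exp (52 / 10000 * L)) := by
      gcongr
    have h2 : 162 * (Real.exp (L / 10) * Real.exp (52 / 10000 * L)) ≤
        Real.exp (-(83 / 100) * L) * Real.exp (95 / 100 * L) := by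
      calc 162 * (Real.exp (L / 10) * Real.exp (52 / 10000 * L)) ≤
            Real.exp (L / 100) * (Real.exp (L / 10) * Real.exp (52 / 10000 * L)) := by gcongr
        _ = Real.exp (L / 100 + (L / 10 + 52 / 10000 * L)) := by rw [Real.exp_add, Real.exp_add]
        _ ≤ Real.exp (-(83 / 100) * L + 95 / 100 * L) := Real.exp_le_exp.2 (by linarith)
        _ = _ := Real.exp_add _ _
    have h3 : Real.exp (-(83 / 100) * L) * Real.exp (95 / 100 * L) ≤
        Real.exp (-(83 / 100) * L) * (2 * n) := by gcongr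
    linarith
  have he2 : w ^ 2 * D0 ^ 2 / n ≤ w ^ 2 * D0 ^ 4 / n := by
    have h1 : D0 ^ 2 ≤ D0 ^ 4 := pow_le_pow_right₀ hD01 (by norm_num)
    gcongr
  -- the total weight
  have hi1 : (i : ℝ) + 1 ≤ Real.exp (L / 20) := by
    have h1 := hp.hiL
    have h2 : 1 ≤ L ^ 2 := one_le_pow₀ hL1
    linarith
  have hlw : ∀ x ∈ IP.Pi m W b i n, IP.lw m W b i x ≤ 2 * L := by
    intro x hx
    have hxn : x < n := by
      rw [IP.Pi, mem_filter, mem_range] at hx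
      exact hx.1
    have h1 : b + W * x + i * m ≤ (i + 1) * m := by
      have h2 : b + W * x ≤ W * n := by
        have h3 : W * (x + 1) ≤ W * n := Nat.mul_le_mul_left W hxn
        have h4 := hp.hb
        rw [mul_add, mul_one] at h3
        omega
      have h5 : b + W * x ≤ m := h2.trans hn1
      rw [add_mul, one_mul]
      omega
    have h2 : ((b + W * x + i * m : ℕ) : ℝ) ≤ ((i : ℝ) + 1) * m := by exact_mod_cast h1
    rcases Nat.eq_zero_or_pos (b + W * x + i * m) with h0 | h0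
    · rw [IP.lw, h0]
      simp only [Nat.cast_zero, Real.log_zero]
      linarith
    · have h3 : (0 : ℝ) < ((b + W * x + i * m : ℕ) : ℝ) := by exact_mod_cast h0
      rw [IP.lw, Real.log_le_iff_le_exp h3]
      calc ((b + W * x + i * m : ℕ) : ℝ) ≤ ((i : ℝ) + 1) * m := h2
        _ ≤ Real.exp (L / 20) * Real.exp L := by
            rw [hexp]
            gcongr
        _ = Real.exp (L / 20 + L) := (Real.exp_add _ _).symm
        _ ≤ Real.exp (2 * L) := Real.exp_le_exp.2 (by linarith)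
  have hTh0 : 0 ≤ IP.Th m W b i n := by
    rw [IP.Th]
    apply Finset.sum_nonneg
    intro x _
    exact Real.log_natCast_nonneg _
  have hTh : IP.Th m W b i n ≤ 2 * L * Real.exp L := by
    rw [IP.Th]
    refine (Finset.sum_le_card_nsmul _ _ _ hlw).trans ?_
    rw [nsmul_eq_mul]
    have h1 : ((IP.Pi m W b i n).card : ℝ) ≤ n := by
      have h2 : (IP.Pi m W b i n).card ≤ (range n).card := card_filter_le _ _
      rw [card_range] at h2
      exact_mod_cast h2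
    have h3 : (n : ℝ) ≤ Real.exp L := by
      rw [← hexp]
      have h4 : n ≤ m := by
        calc n = 1 * n := (one_mul n).symm
          _ ≤ W * n := Nat.mul_le_mul_right n hWpos
          _ ≤ m := hn1
      exact_mod_cast h4
    calc ((IP.Pi m W b i n).card : ℝ) * (2 * L) ≤ Real.exp L * (2 * L) := by
          gcongr
          exact h1.trans h3
      _ = _ := by ring
  -- the bilinear lemma
  have hfac2 : Fac Qt (fun l (k : {k // k ∈ S}) => rho m i l k)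
      (fun c => (fun c => G c ^ 2) (c + i * m * (pr Qt - 1))) := by
    intro c c' hcc
    have h1 := hfac c c' hcc
    exact congrArg (fun t : ℝ => t ^ 2) h1
  have hcard : ((Fintype.card {k // k ∈ S} : ℕ) : ℝ) = S.card := by rw [Fintype.card_coe]
  have h16 : 16 * (Fintype.card {k // k ∈ S} : ℝ) ^ 2 ≤ L ^ 100 := by
    rw [hcard]
    exact k16 L S.card f1 hS0 hS2
  have h120 : 120 * (Fintype.card {k // k ∈ S} : ℝ) ^ 3 ≤ L ^ 100 := by
    rw [hcard]
    exact k120 L S.card f1 hS0 hS2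
  have h8 : 8 * (Fintype.card {k // k ∈ S} : ℝ) * Real.log m ≤ L ^ 100 := by
    rw [hcard, ← hLm]
    exact k8 L S.card f1 hS0 hS2
  have hm20 : (m : ℝ) ^ (1 / 20 : ℝ) = Real.exp (L / 20) := by
    rw [hexp, ← Real.exp_mul]
    congr 1
    ring
  have hres := hint Qt {k // k ∈ S} (fun l (k : {k // k ∈ S}) => rho m i l k)
    (fun c => G c ^ 2) (L ^ 100) (D0 ^ 2) m W b i n hhits hfac2 hG2 (one_le_pow₀ hD01)
    (fun l hl => ⟨(hlarge l hl).2.2.2, (hlarge l hl).2.2.1⟩) hz1 h16 h120 h8 hp.hW hp.hb hp.hbi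
    (by rw [hexp]; exact f4) hp.hi (by rw [hm20]; exact hi1) hn1 hn2 (by rw [hm20]; exact hW20)
  rw [hcard, ← hLm] at hres
  have hsplit : ∑ x ∈ (range n).filter (fun x => (b + W * x + i * m).Prime),
      Real.log ((b + W * x + i * m : ℕ) : ℝ) * (G (b + W * x) ^ 2 -
        mean (pr Qt) (fun c => G c ^ 2)) =
      ∑ x ∈ IP.Pi m W b i n, IP.lw m W b i x * IP.Gf P bb N m W b Q S a B B1 x ^ 2 -
        mean (pr Qt) (fun c => G c ^ 2) * IP.Th m W b i n := by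
    rw [IP.Th, Finset.mul_sum, ← Finset.sum_sub_distrib]
    apply Finset.sum_congr rfl
    intro x _
    rw [hGf x]
    simp only [IP.lw]
    ring
  rw [hsplit] at hres
  have hM4 : IP.mn m W b n (fun x => IP.Gf P bb N m W b Q S a B B1 x ^ 4) =
      (∑ x ∈ (range n).filter (fun x => (b + W * x).Coprime m), (G (b + W * x) ^ 2) ^ 2) /
        ((n : ℝ) * ((m.totient : ℝ) / m)) := by
    rw [IP.mn]
    congr 1
    apply Finset.sum_congr rfl
    intro x _
    rw [hGf x]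
    ring
  have hM2 : IP.mn m W b n (fun x => IP.Gf P bb N m W b Q S a B B1 x ^ 2) =
      (∑ x ∈ (range n).filter (fun x => (b + W * x).Coprime m), G (b + W * x) ^ 2) /
        ((n : ℝ) * ((m.totient : ℝ) / m)) := rfl
  rw [← hM2] at hB2
  rw [← hM4] at hB4
  have hM40 : 0 ≤ IP.mn m W b n (fun x => IP.Gf P bb N m W b Q S a B B1 x ^ 4) := by
    rw [hM4]
    positivity
  exact fin C L S.card (D0 ^ 2) _ _ _ _ _ _ (w ^ 2 * D0 ^ 4 / n) i m W hC f1 hS0 hS2
    (Nat.cast_nonneg _) hp.hiL hexp hW1 f5 f6 f7 f8 hD2u hM40 (by positivity) he hTh0 hTh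
    (hB2.trans he2) hB4 hres

end

end Pool.Agent.IPP
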