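import Pool.Agent.IPP.Stmts

set_option autoImplicit false

/-!
Block P: the form of Lemma P used for the numbers `c + k₁ m` (module INT).
-/

namespace Pool.Agent.IPP

open Finset

namespace INTx

theorem sum_shift (q : ℕ) (g : ℕ → ℝ) (h : ∀ n, g (n + q) = g n) (d : ℕ) :
    ∑ n ∈ range q, g (n + d) = ∑ n ∈ range q, g n := by
  induction d with
  | zero => rfl
  | succ d ih =>
    rw [← ih]
    have h1 := Finset.sum_range_succ (fun n => g (n + d)) q
    have h2 := Finset.sum_range_succ' (fun n => g (n + d)) q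
    have h3 : g (q + d) = g (0 + d) := by rw [add_comm q d, zero_add, h]
    have h4 : ∑ n ∈ range q, g (n + (d + 1)) = ∑ n ∈ range q, g (n + 1 + d) :=
      Finset.sum_congr rfl fun n _ => by rw [show n + (d + 1) = n + 1 + d by omega]
    rw [h4]
    linarith

theorem mean_shift (q : ℕ) (g : ℕ → ℝ) (h : ∀ n, g (n + q) = g n) (d : ℕ) :
    mean q (fun n => g (n + d)) = mean q g := by
  rw [mean, mean, sum_shift q g h d]

theorem per_mul (q : ℕ) (g : ℕ → ℝ) (h : ∀ n, g (n + q) = g n) (a n : ℕ) :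
    g (n + a * q) = g n := by
  induction a with
  | zero => simp
  | succ a ih => rw [show n + (a + 1) * q = n + a * q + q by ring, h, ih]

theorem mean_abs_le (q : ℕ) (g : ℕ → ℝ) (D : ℝ) (hD : 0 ≤ D) (h : ∀ n, |g n| ≤ D) :
    |mean q g| ≤ D := by
  rcases Nat.eq_zero_or_pos q with h0 | h0
  · rw [mean, h0]
    simpa using hD
  · have hq : (0 : ℝ) < q := by exact_mod_cast h0
    rw [mean, abs_div, abs_of_pos hq, div_le_iff₀ hq]
    refine (Finset.abs_sum_le_sum_abs _ _).trans ?_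
    refine (Finset.sum_le_card_nsmul _ _ D fun n _ => h n).trans ?_
    rw [Finset.card_range, nsmul_eq_mul, mul_comm]

/-- The numbers of the interval in the class. -/
theorem sum_class (W b K n₀ : ℕ) (hW : 1 ≤ W) (hb : b < W) (hK : 1 ≤ K) (G : ℕ → ℝ) :
    ∑ n ∈ (Ioc (K - 1) (K + W * n₀ - 1)).filter (fun n => n % W = (b + K) % W), G n =
      ∑ x ∈ range n₀, G (b + W * x + K) := by
  symm
  refine Finset.sum_bij (fun x _ => b + W * x + K) ?_ ?_ ?_ ?_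
  · intro x hx
    rw [Finset.mem_range] at hx
    rw [Finset.mem_filter, Finset.mem_Ioc]
    have h1 : W * x + W ≤ W * n₀ := by
      calc W * x + W = W * (x + 1) := by ring
        _ ≤ W * n₀ := Nat.mul_le_mul_left _ hx
    refine ⟨⟨by omega, by omega⟩, ?_⟩
    rw [show b + W * x + K = b + K + W * x by ring, Nat.add_mul_mod_self_left]
  · intro x _ y _ hxy
    have h0 : b + W * x + K = b + W * y + K := hxy
    have h1 : W * x = W * y := by omega
    exact Nat.eq_of_mul_eq_mul_left (by omega) h1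
  · intro n hn
    rw [Finset.mem_filter, Finset.mem_Ioc] at hn
    obtain ⟨⟨h1, h2⟩, h3⟩ := hn
    have h4 : (n - K) % W = b := by
      have h5 : n = (n - K) + K := by omega
      have h6 : (n - K) ≡ b [MOD W] := by
        apply Nat.ModEq.add_right_cancel' K
        rw [← h5]
        exact h3
      have h7 : (n - K) % W = b % W := h6
      rwa [Nat.mod_eq_of_lt hb] at h7
    have h8 := Nat.mod_add_div (n - K) W
    rw [h4] at h8
    refine ⟨(n - K) / W, ?_, ?_⟩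
    · rw [Finset.mem_range]
      by_contra hc
      push Not at hc
      have h9 : W * n₀ ≤ W * ((n - K) / W) := Nat.mul_le_mul_left _ hc
      omega
    · omega
  · intro x _
    rfl

/-- The proper prime powers. -/
theorem prime_powers (X : ℕ) (hX : 1 ≤ X) :
    ∑ n ∈ (Ioc 0 X).filter (fun n => ¬ n.Prime), ArithmeticFunction.vonMangoldt n ≤
      2 * Real.sqrt X * Real.log X := by
  have h1 := Chebyshev.abs_psi_sub_theta_le_sqrt_mul_log (x := (X : ℝ)) (by exact_mod_cast hX)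
  have h2 : Chebyshev.psi (X : ℝ) - Chebyshev.theta (X : ℝ) =
      ∑ n ∈ (Ioc 0 X).filter (fun n => ¬ n.Prime), ArithmeticFunction.vonMangoldt n := by
    rw [Chebyshev.psi, Chebyshev.theta, Nat.floor_natCast,
      ← Finset.sum_filter_add_sum_filter_not (Ioc 0 X) (fun n => n.Prime)]
    have h3 : ∑ n ∈ (Ioc 0 X).filter (fun n => n.Prime), ArithmeticFunction.vonMangoldt n =
        ∑ p ∈ (Ioc 0 X).filter (fun n => n.Prime), Real.log p :=
      Finset.sum_congr rfl fun p hp =>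
        ArithmeticFunction.vonMangoldt_apply_prime (Finset.mem_filter.mp hp).2
    rw [h3]
    ring
  rw [← h2]
  exact (le_abs_self _).trans h1

end INTx

open INTx in
/-- INT: the form used for the numbers `c + k₁ m`. -/
theorem int_form : StmtLEV → StmtLP → StmtINT := by
  classical
  intro hLEV hLP
  obtain ⟨C, hC, hLP⟩ := hLP
  refine ⟨32 * C + 2 ^ 20 + 8, by positivity, ?_⟩
  intro Q κ _ ρ F z D m W b k₁ n₀ hH hFac hLev hD hQz hz1 hz2 hz3 hz4 hW hb hcop hCm hk hkm hWn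
    hmW hWm
  obtain ⟨-, -, -, hsh, hbd, -, -⟩ := hLEV Q hH.prime
  obtain ⟨-, hFD, hper⟩ := hbd D F hLev
  -- sizes
  have hm20 : (2 : ℝ) ^ 20 ≤ m := by linarith
  have hCm' : C ≤ m := by
    have : (0 : ℝ) < 2 ^ 20 := by positivity
    linarith
  have hm0 : (0 : ℝ) < m := lt_of_lt_of_le (by positivity) hm20
  have hm1 : (1 : ℝ) ≤ m := le_trans (by norm_num) hm20
  have hmN : 2 ^ 20 ≤ m := by exact_mod_cast hm20
  have hlog1 : 1 ≤ Real.log m := by
    rw [Real.le_log_iff_exp_le hm0]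
    have := Real.exp_one_lt_d9
    have h2 : (2.7182818286 : ℝ) ≤ 2 ^ 20 := by norm_num
    linarith
  have hlog0 : 0 ≤ Real.log m := by linarith
  have hkm2 : 2 * m ≤ k₁ * m := Nat.mul_le_mul_right m hk
  obtain ⟨K, hK⟩ : ∃ K, K = k₁ * m := ⟨_, rfl⟩
  have hKm : 2 * m ≤ K := by rw [hK]; exact hkm2
  obtain ⟨Z, hZ⟩ : ∃ Z, Z = W * n₀ := ⟨_, rfl⟩
  rw [← hZ] at hWn hmW
  obtain ⟨X₁, hX₁⟩ : ∃ X₁, X₁ = K - 1 := ⟨_, rfl⟩
  obtain ⟨X₂, hX₂⟩ : ∃ X₂, X₂ = K + Z - 1 := ⟨_, rfl⟩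
  have hX12 : X₁ < X₂ := by omega
  have hX22 : X₂ ≤ 2 * X₁ := by omega
  have hX2m : m ≤ X₂ := by omega
  have hX2K : X₂ ≤ K + m := by omega
  have hdiff : (X₂ : ℝ) - X₁ = Z := by
    have h1 : X₂ = X₁ + Z := by omega
    rw [h1]
    push_cast
    ring
  have hX2a : (X₂ : ℝ) ≤ ((k₁ : ℝ) + 1) * m := by
    have h1 : (X₂ : ℝ) ≤ ((K + m : ℕ) : ℝ) := by exact_mod_cast hX2K
    rw [hK] at h1
    push_cast at h1
    linarith
  have hX2m' : (m : ℝ) ≤ X₂ := by exact_mod_cast hX2m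
  have hX20 : (0 : ℝ) < X₂ := by linarith
  have hX21 : (1 : ℝ) ≤ X₂ := by linarith
  have hX2b : (X₂ : ℝ) ≤ (m : ℝ) ^ (21 / 20 : ℝ) := by
    refine hX2a.trans ?_
    calc ((k₁ : ℝ) + 1) * m ≤ (m : ℝ) ^ (1 / 20 : ℝ) * m :=
          mul_le_mul_of_nonneg_right hkm hm0.le
      _ = (m : ℝ) ^ (1 / 20 : ℝ) * (m : ℝ) ^ (1 : ℝ) := by rw [Real.rpow_one]
      _ = (m : ℝ) ^ (21 / 20 : ℝ) := by
          rw [← Real.rpow_add hm0]
          norm_num
  have hlogX : Real.log X₂ ≤ 2 * Real.log m := by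
    have h1 := Real.log_le_log hX20 hX2b
    rw [Real.log_rpow hm0] at h1
    linarith
  have hlogX0 : 0 ≤ Real.log X₂ := Real.log_nonneg hX21
  have hZr : (Z : ℝ) ≤ m := by exact_mod_cast hWn
  have hZr' : (m : ℝ) ≤ 2 * Z := by exact_mod_cast hmW
  have hpow : (X₂ : ℝ) ^ (9 / 10 : ℝ) ≤ (X₂ : ℝ) - X₁ := by
    rw [hdiff]
    have h1 : (X₂ : ℝ) ^ (9 / 10 : ℝ) ≤ (m : ℝ) ^ (189 / 200 : ℝ) := by
      calc (X₂ : ℝ) ^ (9 / 10 : ℝ) ≤ ((m : ℝ) ^ (21 / 20 : ℝ)) ^ (9 / 10 : ℝ) :=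
            Real.rpow_le_rpow hX20.le hX2b (by norm_num)
        _ = (m : ℝ) ^ (189 / 200 : ℝ) := by
            rw [← Real.rpow_mul hm0.le]
            norm_num
    have h2 : (2 : ℝ) ≤ (m : ℝ) ^ (11 / 200 : ℝ) := by
      calc (2 : ℝ) = (2 : ℝ) ^ (1 : ℝ) := by rw [Real.rpow_one]
        _ ≤ (2 : ℝ) ^ (11 / 10 : ℝ) := Real.rpow_le_rpow_of_exponent_le (by norm_num) (by norm_num)
        _ = ((2 : ℝ) ^ (20 : ℝ)) ^ (11 / 200 : ℝ) := by
            rw [← Real.rpow_mul (by norm_num)]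
            norm_num
        _ = ((2 : ℝ) ^ 20) ^ (11 / 200 : ℝ) := by
            congr 1
            rw [← Real.rpow_natCast]
            norm_num
        _ ≤ (m : ℝ) ^ (11 / 200 : ℝ) := Real.rpow_le_rpow (by positivity) hm20 (by norm_num)
    have h3 : (m : ℝ) = (m : ℝ) ^ (189 / 200 : ℝ) * (m : ℝ) ^ (11 / 200 : ℝ) := by
      rw [← Real.rpow_add hm0]
      norm_num
    have h4 : 0 < (m : ℝ) ^ (189 / 200 : ℝ) := Real.rpow_pos_of_pos hm0 _
    have h5 : (m : ℝ) ^ (189 / 200 : ℝ) * 2 ≤ m := by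
      conv_rhs => rw [h3]
      exact mul_le_mul_of_nonneg_left h2 h4.le
    linarith
  have hWX : (W : ℝ) ≤ (X₂ : ℝ) ^ (1 / 10 : ℝ) := by
    refine hWm.trans ?_
    calc (m : ℝ) ^ (1 / 20 : ℝ) ≤ (m : ℝ) ^ (1 / 10 : ℝ) :=
          Real.rpow_le_rpow_of_exponent_le hm1 (by norm_num)
      _ ≤ (X₂ : ℝ) ^ (1 / 10 : ℝ) := Real.rpow_le_rpow hm0.le hX2m' (by norm_num)
  -- the shifted function
  obtain ⟨q, hq⟩ : ∃ q, q = pr Q := ⟨_, rfl⟩
  have hq1 : 1 ≤ q := by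
    rw [hq, pr]
    exact Nat.one_le_iff_ne_zero.mpr
      (Finset.prod_ne_zero_iff.mpr fun l hl => (hH.prime l hl).ne_zero)
  rw [← hK] at hFac hcop
  obtain ⟨F', hF'⟩ : ∃ F' : ℕ → ℝ, F' = fun n => F (n + K * (pr Q - 1)) := ⟨_, rfl⟩
  rw [← hF'] at hFac
  have hLev' : Lev Q D F' := by
    rw [hF']
    exact hsh D F _ hLev
  have hmean : mean (pr Q) F' = mean (pr Q) F := by
    rw [hF']
    exact mean_shift _ F hper _
  have hmean2 : (mean (pr Q) fun n => F' n ^ 2) = mean (pr Q) fun n => F n ^ 2 := by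
    rw [hF']
    exact mean_shift _ (fun n => F n ^ 2) (fun n => by rw [hper]) _
  have hFF : ∀ n, F' (n + K) = F n := by
    intro n
    rw [hF']
    change F (n + K + K * (pr Q - 1)) = F n
    have h1 : n + K + K * (pr Q - 1) = n + K * pr Q := by
      rw [← hq]
      obtain ⟨q', rfl⟩ : ∃ q', q = q' + 1 := ⟨q - 1, by omega⟩
      rw [Nat.add_sub_cancel]
      ring
    rw [h1]
    exact per_mul _ F hper K n
  have hF'D : ∀ n, |F' n| ≤ D := fun n => by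
    rw [hF']
    exact hFD _
  obtain ⟨μ, hμ⟩ : ∃ μ, μ = mean (pr Q) F := ⟨_, rfl⟩
  have hμD : |μ| ≤ D := by
    rw [hμ]
    exact mean_abs_le _ F D (by linarith) hFD
  have hdev : ∀ n, |F' n - μ| ≤ 2 * D := fun n => by
    have h1 := abs_sub (F' n) μ
    have h2 := hF'D n
    linarith
  have hz4' : 4 * (Fintype.card κ : ℝ) * Real.log X₂ ≤ z := by
    refine le_trans ?_ hz4
    have h1 : (0 : ℝ) ≤ Fintype.card κ := Nat.cast_nonneg _
    nlinarith
  have key := hLP Q κ ρ F' z D W (b + K) X₁ X₂ hH hFac hLev' hD hQz hz1 hz2 hz3 hz4' hW hcop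
    (hCm'.trans hX2m') hX12 hX22 hpow hWX
  rw [hmean, hmean2, ← hμ] at key
  rw [← hμ]
  -- the sums
  obtain ⟨I, hI⟩ : ∃ I, I = (Ioc X₁ X₂).filter (fun n => n % W = (b + K) % W) := ⟨_, rfl⟩
  rw [← hI] at key
  have hsum : ∑ x ∈ (range n₀).filter (fun x => (b + W * x + k₁ * m).Prime),
      Real.log ((b + W * x + k₁ * m : ℕ) : ℝ) * (F (b + W * x) - μ) =
      ∑ n ∈ I.filter (fun n => n.Prime), ArithmeticFunction.vonMangoldt n * (F' n - μ) := by
    rw [Finset.sum_filter, Finset.sum_filter, hI, hX₁, hX₂, hZ,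
      sum_class W b K n₀ hW hb (by omega)]
    refine Finset.sum_congr rfl fun x _ => ?_
    rw [← hK]
    by_cases hp : (b + W * x + K).Prime
    · rw [if_pos hp, if_pos hp, ArithmeticFunction.vonMangoldt_apply_prime hp, hFF]
    · rw [if_neg hp, if_neg hp]
  have hnp : |∑ n ∈ I.filter (fun n => ¬ n.Prime),
      ArithmeticFunction.vonMangoldt n * (F' n - μ)| ≤ 2 * D * (2 * Real.sqrt X₂ * Real.log X₂) := by
    refine (Finset.abs_sum_le_sum_abs _ _).trans ?_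
    calc ∑ n ∈ I.filter (fun n => ¬ n.Prime),
          |ArithmeticFunction.vonMangoldt n * (F' n - μ)| ≤
          ∑ n ∈ I.filter (fun n => ¬ n.Prime), 2 * D * ArithmeticFunction.vonMangoldt n := by
            refine Finset.sum_le_sum fun n _ => ?_
            rw [abs_mul, abs_of_nonneg ArithmeticFunction.vonMangoldt_nonneg, mul_comm]
            exact mul_le_mul_of_nonneg_right (hdev n) ArithmeticFunction.vonMangoldt_nonneg
      _ ≤ ∑ n ∈ (Ioc 0 X₂).filter (fun n => ¬ n.Prime),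
            2 * D * ArithmeticFunction.vonMangoldt n := by
            refine Finset.sum_le_sum_of_subset_of_nonneg ?_ fun n _ _ =>
              mul_nonneg (by linarith) ArithmeticFunction.vonMangoldt_nonneg
            refine Finset.filter_subset_filter _ ?_
            rw [hI]
            intro n hn
            rw [Finset.mem_filter, Finset.mem_Ioc] at hn
            rw [Finset.mem_Ioc]
            omega
      _ ≤ 2 * D * (2 * Real.sqrt X₂ * Real.log X₂) := by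
            rw [← Finset.mul_sum]
            exact mul_le_mul_of_nonneg_left (prime_powers X₂ (by omega)) (by linarith)
  have hsplit := Finset.sum_filter_add_sum_filter_not I (fun n => n.Prime)
    (fun n => ArithmeticFunction.vonMangoldt n * (F' n - μ))
  rw [hsum]
  have hmain : |∑ n ∈ I.filter (fun n => n.Prime),
      ArithmeticFunction.vonMangoldt n * (F' n - μ)| ≤
      |∑ n ∈ I, ArithmeticFunction.vonMangoldt n * (F' n - μ)| +
        2 * D * (2 * Real.sqrt X₂ * Real.log X₂) := by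
    have h1 : ∑ n ∈ I.filter (fun n => n.Prime),
        ArithmeticFunction.vonMangoldt n * (F' n - μ) =
        ∑ n ∈ I, ArithmeticFunction.vonMangoldt n * (F' n - μ) -
          ∑ n ∈ I.filter (fun n => ¬ n.Prime),
            ArithmeticFunction.vonMangoldt n * (F' n - μ) := by
      rw [← hsplit]
      ring
    rw [h1]
    exact (abs_sub _ _).trans (add_le_add le_rfl hnp)
  refine hmain.trans ((add_le_add key le_rfl).trans ?_)
  -- the final estimate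
  obtain ⟨L, hL⟩ : ∃ L, L = Real.log m := ⟨_, rfl⟩
  rw [← hL] at hlog1 hlog0 hlogX
  rw [← hL]
  obtain ⟨E, hE⟩ : ∃ E, E = Real.sqrt (mean (pr Q) fun n => F n ^ 2) := ⟨_, rfl⟩
  rw [← hE]
  have hE0 : 0 ≤ E := by rw [hE]; exact Real.sqrt_nonneg _
  have hz0 : 0 < z := by linarith
  have hW0 : (0 : ℝ) < W := by exact_mod_cast hW
  have hκ0 : (0 : ℝ) ≤ Fintype.card κ := Nat.cast_nonneg _
  have e1 : Real.log X₂ ^ 4 ≤ 16 * L ^ 4 := by
    calc Real.log X₂ ^ 4 ≤ (2 * L) ^ 4 := pow_le_pow_left₀ hlogX0 hlogX 4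
      _ = 16 * L ^ 4 := by ring
  have e2 : Real.sqrt ((X₂ : ℝ) * ((X₂ : ℝ) - X₁)) ≤ Real.sqrt ((k₁ : ℝ) + 1) * m := by
    rw [hdiff]
    calc Real.sqrt ((X₂ : ℝ) * Z) ≤ Real.sqrt (((k₁ : ℝ) + 1) * m * m) := by
          apply Real.sqrt_le_sqrt
          exact mul_le_mul hX2a hZr (Nat.cast_nonneg _) (by positivity)
      _ = Real.sqrt ((k₁ : ℝ) + 1) * m := by
          rw [mul_assoc, Real.sqrt_mul (by positivity), Real.sqrt_mul_self hm0.le]
  have e3 : ((Fintype.card κ : ℝ) ^ 3 * Real.log X₂ / z) ^ (1 / 8 : ℝ) ≤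
      2 * ((Fintype.card κ : ℝ) ^ 3 * L / z) ^ (1 / 8 : ℝ) := by
    calc ((Fintype.card κ : ℝ) ^ 3 * Real.log X₂ / z) ^ (1 / 8 : ℝ) ≤
          (2 * ((Fintype.card κ : ℝ) ^ 3 * L / z)) ^ (1 / 8 : ℝ) := by
          apply Real.rpow_le_rpow (by positivity) _ (by norm_num)
          rw [← mul_div_assoc]
          apply div_le_div_of_nonneg_right _ hz0.le
          calc (Fintype.card κ : ℝ) ^ 3 * Real.log X₂ ≤ (Fintype.card κ : ℝ) ^ 3 * (2 * L) :=
                mul_le_mul_of_nonneg_left hlogX (by positivity)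
            _ = 2 * ((Fintype.card κ : ℝ) ^ 3 * L) := by ring
      _ = (2 : ℝ) ^ (1 / 8 : ℝ) * ((Fintype.card κ : ℝ) ^ 3 * L / z) ^ (1 / 8 : ℝ) :=
          Real.mul_rpow (by norm_num) (by positivity)
      _ ≤ 2 * ((Fintype.card κ : ℝ) ^ 3 * L / z) ^ (1 / 8 : ℝ) := by
          apply mul_le_mul_of_nonneg_right _ (by positivity)
          calc (2 : ℝ) ^ (1 / 8 : ℝ) ≤ (2 : ℝ) ^ (1 : ℝ) :=
                Real.rpow_le_rpow_of_exponent_le (by norm_num) (by norm_num)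
            _ = 2 := Real.rpow_one 2
  have e4 : (X₂ : ℝ) ^ (5 / 6 : ℝ) * (W : ℝ) ^ (1 / 4 : ℝ) ≤ (m : ℝ) ^ (9 / 10 : ℝ) := by
    have h1 : (X₂ : ℝ) ^ (5 / 6 : ℝ) ≤ (m : ℝ) ^ (7 / 8 : ℝ) := by
      calc (X₂ : ℝ) ^ (5 / 6 : ℝ) ≤ ((m : ℝ) ^ (21 / 20 : ℝ)) ^ (5 / 6 : ℝ) :=
            Real.rpow_le_rpow hX20.le hX2b (by norm_num)
        _ = (m : ℝ) ^ (7 / 8 : ℝ) := by
            rw [← Real.rpow_mul hm0.le]
            norm_num
    have h2 : (W : ℝ) ^ (1 / 4 : ℝ) ≤ (m : ℝ) ^ (1 / 80 : ℝ) := by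
      calc (W : ℝ) ^ (1 / 4 : ℝ) ≤ ((m : ℝ) ^ (1 / 20 : ℝ)) ^ (1 / 4 : ℝ) :=
            Real.rpow_le_rpow hW0.le hWm (by norm_num)
        _ = (m : ℝ) ^ (1 / 80 : ℝ) := by
            rw [← Real.rpow_mul hm0.le]
            norm_num
    calc (X₂ : ℝ) ^ (5 / 6 : ℝ) * (W : ℝ) ^ (1 / 4 : ℝ) ≤
          (m : ℝ) ^ (7 / 8 : ℝ) * (m : ℝ) ^ (1 / 80 : ℝ) :=
          mul_le_mul h1 h2 (by positivity) (by positivity)
      _ = (m : ℝ) ^ (71 / 80 : ℝ) := by
          rw [← Real.rpow_add hm0]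
          norm_num
      _ ≤ (m : ℝ) ^ (9 / 10 : ℝ) := Real.rpow_le_rpow_of_exponent_le hm1 (by norm_num)
  have e5 : Real.sqrt X₂ ≤ (m : ℝ) ^ (9 / 10 : ℝ) := by
    rw [Real.sqrt_eq_rpow]
    calc (X₂ : ℝ) ^ (1 / 2 : ℝ) ≤ ((m : ℝ) ^ (21 / 20 : ℝ)) ^ (1 / 2 : ℝ) :=
          Real.rpow_le_rpow hX20.le hX2b (by norm_num)
      _ = (m : ℝ) ^ (21 / 40 : ℝ) := by
          rw [← Real.rpow_mul hm0.le]
          norm_num
      _ ≤ (m : ℝ) ^ (9 / 10 : ℝ) := Real.rpow_le_rpow_of_exponent_le hm1 (by norm_num)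
  have e6 : Real.log X₂ ≤ 2 * L ^ 4 := by
    have h1 : L ≤ L ^ 4 := by
      calc L = L ^ 1 := (pow_one L).symm
        _ ≤ L ^ 4 := pow_le_pow_right₀ hlog1 (by norm_num)
    linarith
  obtain ⟨R, hR⟩ : ∃ R, R = ((Fintype.card κ : ℝ) ^ 3 * L / z) ^ (1 / 8 : ℝ) := ⟨_, rfl⟩
  have hR0 : 0 ≤ R := by rw [hR]; positivity
  rw [← hR] at e3 ⊢
  obtain ⟨M, hM⟩ : ∃ M, M = (m : ℝ) ^ (9 / 10 : ℝ) := ⟨_, rfl⟩
  have hM0 : 0 ≤ M := by rw [hM]; positivity
  rw [← hM] at e4 e5 ⊢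
  have hA : Real.sqrt ((X₂ : ℝ) * ((X₂ : ℝ) - X₁)) / W *
      ((Fintype.card κ : ℝ) ^ 3 * Real.log X₂ / z) ^ (1 / 8 : ℝ) * E ≤
      2 * (Real.sqrt ((k₁ : ℝ) + 1) * m / W * R * E) := by
    calc _ ≤ Real.sqrt ((k₁ : ℝ) + 1) * m / W * (2 * R) * E := by
          apply mul_le_mul_of_nonneg_right _ hE0
          apply mul_le_mul _ e3 (by positivity) (by positivity)
          exact div_le_div_of_nonneg_right e2 hW0.le
      _ = 2 * (Real.sqrt ((k₁ : ℝ) + 1) * m / W * R * E) := by ring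
  obtain ⟨A, hAdef⟩ : ∃ A, A = Real.sqrt ((k₁ : ℝ) + 1) * m / W * R * E := ⟨_, rfl⟩
  rw [← hAdef] at hA ⊢
  have hA0 : 0 ≤ A := by rw [hAdef]; positivity
  have hB : (X₂ : ℝ) ^ (5 / 6 : ℝ) * (W : ℝ) ^ (1 / 4 : ℝ) * D ≤ M * D :=
    mul_le_mul_of_nonneg_right e4 (by linarith)
  have hMD : 0 ≤ M * D := mul_nonneg hM0 (by linarith)
  have hL4 : 0 ≤ L ^ 4 := by positivity
  have f1 : C * Real.log X₂ ^ 4 * (Real.sqrt ((X₂ : ℝ) * ((X₂ : ℝ) - X₁)) / W *
      ((Fintype.card κ : ℝ) ^ 3 * Real.log X₂ / z) ^ (1 / 8 : ℝ) * E +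
      (X₂ : ℝ) ^ (5 / 6 : ℝ) * (W : ℝ) ^ (1 / 4 : ℝ) * D) ≤
      32 * C * (L ^ 4 * (A + M * D)) := by
    calc _ ≤ C * (16 * L ^ 4) * (2 * A + M * D) := by
          apply mul_le_mul (mul_le_mul_of_nonneg_left e1 hC.le) (add_le_add hA hB)
          · positivity
          · positivity
      _ ≤ 32 * C * (L ^ 4 * (A + M * D)) := by
          have h1 : 0 ≤ C * (L ^ 4 * (M * D)) := by positivity
          nlinarith
  have f2 : 2 * D * (2 * Real.sqrt X₂ * Real.log X₂) ≤ 8 * (L ^ 4 * (A + M * D)) := by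
    calc 2 * D * (2 * Real.sqrt X₂ * Real.log X₂) ≤ 2 * D * (2 * M * (2 * L ^ 4)) := by
          apply mul_le_mul_of_nonneg_left _ (by linarith)
          apply mul_le_mul _ e6 hlogX0 (by positivity)
          exact mul_le_mul_of_nonneg_left e5 (by norm_num)
      _ = 8 * (L ^ 4 * (M * D)) := by ring
      _ ≤ 8 * (L ^ 4 * (A + M * D)) := by
          have h1 : 0 ≤ L ^ 4 * A := mul_nonneg hL4 hA0
          nlinarith
  have f3 : 0 ≤ L ^ 4 * (A + M * D) := mul_nonneg hL4 (add_nonneg hA0 hMD)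
  calc _ ≤ 32 * C * (L ^ 4 * (A + M * D)) + 8 * (L ^ 4 * (A + M * D)) := add_le_add f1 f2
    _ ≤ (32 * C + 2 ^ 20 + 8) * L ^ 4 * (A + M * D) := by nlinarith

end Pool.Agent.IPP
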