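import Pool.Agent.IPP.Stmts

set_option autoImplicit false

/-!
Averages over the elements of an interval in a class (module AVI of block P, MP_e1dc24_nt).
-/

namespace Pool.Agent.IPP

open Finset Pool.Agent.Lib_helper9.LG

noncomputable section

namespace AVIx

/-- The elements of an interval in a class are the values of a progression. -/
lemma class_eq (W s Y₁ Y₂ : ℕ) (hW : 1 ≤ W) :
    ∃ b M : ℕ, Y₁ < b ∧
      (Ioc Y₁ Y₂).filter (fun n => n % W = s % W) = (range M).image (fun x => b + W * x) ∧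
      (∀ x < M, b + W * x ≤ Y₂) := by
  set r : ℕ := (s + W * (Y₁ + 1) - (Y₁ + 1)) % W with hr
  have hle : Y₁ + 1 ≤ W * (Y₁ + 1) := Nat.le_mul_of_pos_left _ hW
  have hrW : r < W := Nat.mod_lt _ hW
  set b : ℕ := Y₁ + 1 + r with hb
  have hbm : b % W = s % W := by
    have h1 : (Y₁ + 1 + (s + W * (Y₁ + 1) - (Y₁ + 1))) = s + W * (Y₁ + 1) := by omega
    have h2 : b % W = (Y₁ + 1 + (s + W * (Y₁ + 1) - (Y₁ + 1))) % W := by
      rw [hb, hr, Nat.add_mod_mod]
    rw [h2, h1, Nat.add_mul_mod_self_left]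
  have hkey : ∀ x, x < (Y₂ + W - b) / W ↔ b + W * x ≤ Y₂ := by
    intro x
    rw [Nat.lt_iff_add_one_le, Nat.le_div_iff_mul_le (by omega : 0 < W)]
    have e : (x + 1) * W = W * x + W := by ring
    rw [e]
    omega
  refine ⟨b, (Y₂ + W - b) / W, by omega, ?_, fun x hx => (hkey x).1 hx⟩
  ext n
  rw [mem_filter, mem_Ioc, mem_image]
  constructor
  · rintro ⟨⟨h1, h2⟩, h3⟩
    have hbn : b ≤ n := by
      by_contra hcon
      push Not at hcon
      -- `n < b < n + W` and both are congruent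
      have h4 : b % W = n % W := hbm.trans h3.symm
      have h5 : (b - n) % W = 0 := by
        have h6 : n ≡ b [MOD W] := h4.symm
        exact Nat.mod_eq_zero_of_dvd ((Nat.modEq_iff_dvd' hcon.le).1 h6)
      have h7 : b - n < W := by omega
      rw [Nat.mod_eq_of_lt h7] at h5
      omega
    have h4 : W ∣ n - b := by
      have h6 : b ≡ n [MOD W] := hbm.trans h3.symm
      exact (Nat.modEq_iff_dvd' hbn).1 h6
    obtain ⟨x, hx⟩ := h4
    refine ⟨x, ?_, by omega⟩
    rw [mem_range, hkey]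
    omega
  · rintro ⟨x, hx, rfl⟩
    rw [mem_range, hkey] at hx
    refine ⟨⟨by omega, hx⟩, ?_⟩
    rw [Nat.add_mul_mod_self_left, hbm]

end AVIx

/-- AVI. -/
theorem avi (hA : StmtAVG) : StmtAVI := by
  intro Q W s Y₁ Y₂ a g hW hY hQ hg
  obtain ⟨b, M, hb, hS, hM⟩ := AVIx.class_eq W s Y₁ Y₂ hW
  have hinj : ∀ x ∈ range M, ∀ y ∈ range M, b + W * x = b + W * y → x = y := by
    intro x _ y _ h
    exact Nat.eq_of_mul_eq_mul_left hW (Nat.add_left_cancel h)
  have hinj' : Set.InjOn (fun x => b + W * x) (range M : Set ℕ) := fun x hx y hy h =>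
    hinj x hx y hy h
  rw [hS, sum_image hinj', card_image_of_injOn hinj', card_range]
  constructor
  · have h := hA Q 1 W b M a g le_rfl hW (Nat.coprime_one_right W)
      (fun l hl => ⟨(hQ l hl).1, fun h1 => (hQ l hl).1.one_lt.ne' (Nat.dvd_one.1 h1), (hQ l hl).2⟩) hg
    simpa using h
  · have hW' : (0 : ℝ) < W := by exact_mod_cast hW
    have hYY : (0 : ℝ) ≤ (Y₂ : ℝ) - Y₁ := by
      have : (Y₁ : ℝ) ≤ Y₂ := by exact_mod_cast hY
      linarith
    rcases Nat.eq_zero_or_pos M with h0 | h0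
    · rw [h0]
      push_cast
      positivity
    · have h1 := hM (M - 1) (by omega)
      have h2 : W * (M - 1) + Y₁ ≤ Y₂ := by omega
      have h3 : (W : ℝ) * ((M : ℝ) - 1) + Y₁ ≤ Y₂ := by
        have : ((W * (M - 1) + Y₁ : ℕ) : ℝ) ≤ (Y₂ : ℝ) := by exact_mod_cast h2
        rw [Nat.cast_add, Nat.cast_mul, Nat.cast_sub h0, Nat.cast_one] at this
        exact this
      have h4 : (M : ℝ) - 1 ≤ ((Y₂ : ℝ) - Y₁) / W := by
        rw [le_div_iff₀ hW']
        linarith
      linarith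

end

end Pool.Agent.IPP
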