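import Mathlib
import Pool.Agent.IPP.Stmts

set_option autoImplicit false

/-!
Module BOX: the box norm of a function of the hits.
-/

namespace Pool.Agent.IPP

open Finset Pool.Agent.Lib_helper9.LG

namespace BOXx

/-- Chi square comparison. -/
theorem cs {Ω : Type*} [Fintype Ω] (Q R G : Ω → ℝ) (hQ : ∀ x, 0 ≤ Q x)
    (hR : ∀ x, Q x = 0 → R x = 0) (hQ1 : ∑ x, Q x = 1) (hR1 : ∑ x, R x = 1)
    (h0 : ∑ x, Q x * G x = 0) :
    (∑ x, R x * G x) ^ 2 ≤ (∑ x, R x ^ 2 / Q x - 1) * ∑ x, Q x * G x ^ 2 := by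
  have e1 : ∑ x, R x * G x = ∑ x, (R x - Q x) * G x := by
    simp only [sub_mul, Finset.sum_sub_distrib, h0, sub_zero]
  have e2 : ∑ x, R x ^ 2 / Q x - 1 = ∑ x, (R x - Q x) ^ 2 / Q x := by
    have : ∀ x, (R x - Q x) ^ 2 / Q x = R x ^ 2 / Q x - 2 * R x + Q x := by
      intro x
      by_cases h : Q x = 0
      · rw [hR x h, h]; simp
      · field_simp; ring
    simp only [this, Finset.sum_add_distrib, Finset.sum_sub_distrib, ← Finset.mul_sum, hQ1, hR1]
    ring
  rw [e1, e2]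
  apply Finset.sum_sq_le_sum_mul_sum_of_sq_le_mul
  · intro x _; exact div_nonneg (sq_nonneg _) (hQ x)
  · intro x _; exact mul_nonneg (hQ x) (sq_nonneg _)
  · intro x _
    apply le_of_eq
    by_cases h : Q x = 0
    · rw [hR x h, h]; simp
    · field_simp

variable {ι T : Type*} [Fintype ι] [DecidableEq ι] [Fintype T]

theorem sum1 (f : ι → T → ℝ) : ∑ x : ι → T, ∏ i, f i (x i) = ∏ i, ∑ a, f i a := by
  rw [Finset.prod_univ_sum, Fintype.piFinset_univ]

theorem sum4 (f : ι → T → T → T → T → ℝ) :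
    ∑ x : ι → T, ∑ y : ι → T, ∑ z : ι → T, ∑ w : ι → T, ∏ i, f i (x i) (y i) (z i) (w i)
      = ∏ i, ∑ a, ∑ b, ∑ c, ∑ d, f i a b c d := by
  have h1 : ∀ x y z : ι → T, ∑ w : ι → T, ∏ i, f i (x i) (y i) (z i) (w i)
      = ∏ i, ∑ d, f i (x i) (y i) (z i) d := fun x y z => sum1 (fun i d => f i (x i) (y i) (z i) d)
  have h2 : ∀ x y : ι → T, ∑ z : ι → T, ∏ i, ∑ d, f i (x i) (y i) (z i) d
      = ∏ i, ∑ c, ∑ d, f i (x i) (y i) c d := fun x y =>
    sum1 (fun i c => ∑ d, f i (x i) (y i) c d)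
  have h3 : ∀ x : ι → T, ∑ y : ι → T, ∏ i, ∑ c, ∑ d, f i (x i) (y i) c d
      = ∏ i, ∑ b, ∑ c, ∑ d, f i (x i) b c d := fun x =>
    sum1 (fun i b => ∑ c, ∑ d, f i (x i) b c d)
  simp only [h1, h2, h3]
  exact sum1 (fun i a => ∑ b, ∑ c, ∑ d, f i a b c d)

/-- The box law against the product law. -/
theorem box (P : ι → T → ℝ) (R : ι → T → T → T → T → ℝ) (ρ : ι → ℝ)
    (hP : ∀ i t, 0 ≤ P i t) (hP1 : ∀ i, ∑ t, P i t = 1)
    (hPR : ∀ i a b c d, P i a * P i b * P i c * P i d = 0 → R i a b c d = 0)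
    (hR1 : ∀ i, ∑ a, ∑ b, ∑ c, ∑ d, R i a b c d = 1)
    (hρ : ∀ i, ∑ a, ∑ b, ∑ c, ∑ d, R i a b c d ^ 2 / (P i a * P i b * P i c * P i d) ≤ 1 + ρ i)
    (F : (ι → T) → ℝ) (hF : ∑ x, (∏ i, P i (x i)) * F x = 0) :
    (∑ x, ∑ y, ∑ z, ∑ w, (∏ i, R i (x i) (y i) (z i) (w i)) * (F x * F y * F z * F w)) ^ 2
      ≤ (∏ i, (1 + ρ i) - 1) * (∑ x, (∏ i, P i (x i)) * F x ^ 2) ^ 4 := by
  classical
  set Ω := (ι → T) × (ι → T) × (ι → T) × (ι → T) with hΩ
  have red : ∀ g : (ι → T) → (ι → T) → (ι → T) → (ι → T) → ℝ,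
      ∑ x, ∑ y, ∑ z, ∑ w, g x y z w = ∑ p : Ω, g p.1 p.2.1 p.2.2.1 p.2.2.2 := by
    intro g
    rw [Fintype.sum_prod_type]
    refine Finset.sum_congr rfl fun x _ => ?_
    rw [Fintype.sum_prod_type]
    refine Finset.sum_congr rfl fun y _ => ?_
    rw [Fintype.sum_prod_type]
  let Q : Ω → ℝ := fun p => ∏ i, (P i (p.1 i) * P i (p.2.1 i) * P i (p.2.2.1 i) * P i (p.2.2.2 i))
  let RR : Ω → ℝ := fun p => ∏ i, R i (p.1 i) (p.2.1 i) (p.2.2.1 i) (p.2.2.2 i)
  let G : Ω → ℝ := fun p => F p.1 * F p.2.1 * F p.2.2.1 * F p.2.2.2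
  have hQ0 : ∀ p, 0 ≤ Q p := fun p => Finset.prod_nonneg fun i _ => by
    have := hP i; have h1 := this (p.1 i); have h2 := this (p.2.1 i)
    have h3 := this (p.2.2.1 i); have h4 := this (p.2.2.2 i); positivity
  have hRR : ∀ p, Q p = 0 → RR p = 0 := by
    intro p hp
    obtain ⟨i, hi, h⟩ := Finset.prod_eq_zero_iff.mp hp
    exact Finset.prod_eq_zero hi (hPR i _ _ _ _ h)
  have hQ1 : ∑ p, Q p = 1 := by
    have := red (fun x y z w => ∏ i, (P i (x i) * P i (y i) * P i (z i) * P i (w i)))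
    rw [← this, sum4 (fun i a b c d => P i a * P i b * P i c * P i d)]
    refine Finset.prod_eq_one fun i _ => ?_
    simp only [← Finset.mul_sum, hP1, mul_one]
  have hR1' : ∑ p, RR p = 1 := by
    have := red (fun x y z w => ∏ i, R i (x i) (y i) (z i) (w i))
    rw [← this, sum4 (fun i a b c d => R i a b c d)]
    exact Finset.prod_eq_one fun i _ => hR1 i
  have fact : ∀ H : (ι → T) → ℝ, ∑ p : Ω, Q p * (H p.1 * H p.2.1 * H p.2.2.1 * H p.2.2.2)
      = (∑ x, (∏ i, P i (x i)) * H x) ^ 4 := by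
    intro H
    have := red (fun x y z w => (∏ i, (P i (x i) * P i (y i) * P i (z i) * P i (w i)))
      * (H x * H y * H z * H w))
    rw [← this]
    have e : ∀ x y z w : ι → T, (∏ i, (P i (x i) * P i (y i) * P i (z i) * P i (w i)))
      * (H x * H y * H z * H w) = ((∏ i, P i (x i)) * H x) * (((∏ i, P i (y i)) * H y) *
        (((∏ i, P i (z i)) * H z) * ((∏ i, P i (w i)) * H w))) := by
      intro x y z w
      simp only [Finset.prod_mul_distrib]
      ring
    simp only [e, ← Finset.mul_sum, ← Finset.sum_mul]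
    ring
  have h0 : ∑ p, Q p * G p = 0 := by
    rw [fact F, hF]; simp
  have key := cs Q RR G hQ0 hRR hQ1 hR1' h0
  have e1 : ∑ p, RR p * G p
      = ∑ x, ∑ y, ∑ z, ∑ w, (∏ i, R i (x i) (y i) (z i) (w i)) * (F x * F y * F z * F w) :=
    (red (fun x y z w => (∏ i, R i (x i) (y i) (z i) (w i)) * (F x * F y * F z * F w))).symm
  have e2 : ∑ p, RR p ^ 2 / Q p ≤ ∏ i, (1 + ρ i) := by
    have h := red (fun x y z w => ∏ i, (R i (x i) (y i) (z i) (w i) ^ 2 /
      (P i (x i) * P i (y i) * P i (z i) * P i (w i))))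
    have h' : ∀ p : Ω, RR p ^ 2 / Q p = ∏ i, (R i (p.1 i) (p.2.1 i) (p.2.2.1 i) (p.2.2.2 i) ^ 2 /
      (P i (p.1 i) * P i (p.2.1 i) * P i (p.2.2.1 i) * P i (p.2.2.2 i))) := by
      intro p
      simp only [RR, Q, Finset.prod_div_distrib, Finset.prod_pow]
    simp only [h']
    rw [← h, sum4 (fun i a b c d => R i a b c d ^ 2 / (P i a * P i b * P i c * P i d))]
    refine Finset.prod_le_prod (fun i _ => ?_) (fun i _ => hρ i)
    refine Finset.sum_nonneg fun a _ => Finset.sum_nonneg fun b _ => Finset.sum_nonneg fun c _ =>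
      Finset.sum_nonneg fun d _ => ?_
    have h1 := hP i a; have h2 := hP i b; have h3 := hP i c; have h4 := hP i d
    positivity
  have e3 : ∑ p, Q p * G p ^ 2 = (∑ x, (∏ i, P i (x i)) * F x ^ 2) ^ 4 := by
    rw [← fact (fun x => F x ^ 2)]
    refine Finset.sum_congr rfl fun p _ => ?_
    simp only [G]; ring
  rw [e1, e3] at key
  refine key.trans (mul_le_mul_of_nonneg_right (by linarith) ?_)
  exact pow_nonneg (Finset.sum_nonneg fun x _ =>
    mul_nonneg (Finset.prod_nonneg fun i _ => hP i _) (sq_nonneg _)) _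


section push

variable {ι : Type} [Fintype ι] [DecidableEq ι]

/-- Change of variables on products. -/
theorem push {X : ι → Type} {T : Type} [∀ i, Fintype (X i)] [Fintype T] [DecidableEq T]
    (f : ∀ i, X i → T) (Ψ : (ι → T) → ℝ) :
    ∑ x : ∀ i, X i, Ψ (fun i => f i (x i)) =
      ∑ t : ι → T, (∏ i, ((univ.filter (fun y : X i => f i y = t i)).card : ℝ)) * Ψ t := by
  classical
  have h1 : ∀ x : ∀ i, X i, Ψ (fun i => f i (x i)) =
      ∑ t : ι → T, if (fun i => f i (x i)) = t then Ψ t else 0 := by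
    intro x
    rw [Finset.sum_ite_eq]
    simp
  rw [Finset.sum_congr rfl fun x _ => h1 x, Finset.sum_comm]
  refine Finset.sum_congr rfl fun t _ => ?_
  rw [← Finset.sum_filter, Finset.sum_const, nsmul_eq_mul]
  congr 1
  have h2 : (univ.filter (fun x : ∀ i, X i => (fun i => f i (x i)) = t)) =
      Fintype.piFinset (fun i => univ.filter (fun y : X i => f i y = t i)) := by
    ext x
    simp only [mem_filter, mem_univ, true_and, Fintype.mem_piFinset]
    constructor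
    · intro h i
      rw [← h]
    · intro h
      funext i
      exact h i
  rw [h2, Fintype.card_piFinset]
  push_cast
  rfl

/-- Sums over functions with values in fourfold products. -/
theorem split4 {T : Type} [Fintype T] (f : (ι → T × T × T × T) → ℝ) :
    ∑ t, f t = ∑ x : ι → T, ∑ y : ι → T, ∑ z : ι → T, ∑ w : ι → T,
      f (fun i => (x i, y i, z i, w i)) := by
  have e2 : ∀ {A B : Type} [Fintype A] [Fintype B] (g : (ι → A × B) → ℝ),
      ∑ t, g t = ∑ x : ι → A, ∑ y : ι → B, g (fun i => (x i, y i)) := by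
    intro A B _ _ g
    rw [← Fintype.sum_prod_type' (fun (x : ι → A) (y : ι → B) => g (fun i => (x i, y i)))]
    exact Fintype.sum_equiv (Equiv.arrowProdEquivProdArrow ι (fun _ => A) (fun _ => B)) _ _
      (fun t => rfl)
  rw [e2]
  refine Finset.sum_congr rfl fun x _ => ?_
  rw [e2 (fun p => f (fun i => (x i, p i)))]
  refine Finset.sum_congr rfl fun y _ => ?_
  rw [e2 (fun p => f (fun i => (x i, y i, p i)))]

end push

section crt

variable {Q : Finset ℕ}

/-- The residues. -/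
def phi (Q : Finset ℕ) (n : ℕ) : ∀ i : {l // l ∈ Q}, ZMod (i : ℕ) := fun i => (n : ZMod (i : ℕ))

theorem pr_pos (hQ : ∀ l ∈ Q, l.Prime) : 0 < pr Q :=
  Finset.prod_pos fun l hl => (hQ l hl).pos

theorem phi_inj (hQ : ∀ l ∈ Q, l.Prime) {n n' : ℕ} (hn : n < pr Q) (hn' : n' < pr Q)
    (h : phi Q n = phi Q n') : n = n' := by
  have key : ∀ a b : ℕ, a ≤ b → b < pr Q → phi Q a = phi Q b → a = b := by
    intro a b hab hb he
    have hd : pr Q ∣ b - a := by
      apply Finset.prod_primes_dvd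
      · intro l hl
        exact (hQ l hl).prime
      · intro l hl
        have h1 := congrFun he ⟨l, hl⟩
        have h2 : ((a : ℕ) : ZMod l) = ((b : ℕ) : ZMod l) := h1
        rw [ZMod.natCast_eq_natCast_iff] at h2
        exact (Nat.modEq_iff_dvd' hab).1 h2
    have h3 : b - a = 0 := Nat.eq_zero_of_dvd_of_lt hd (by omega)
    omega
  rcases le_total n n' with hle | hle
  · exact key n n' hle hn' h
  · exact (key n' n hle hn h.symm).symm

theorem sum_phi (hQ : ∀ l ∈ Q, l.Prime) [∀ i : {l // l ∈ Q}, Fintype (ZMod (i : ℕ))]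
    (H : (∀ i : {l // l ∈ Q}, ZMod (i : ℕ)) → ℝ) :
    ∑ n ∈ range (pr Q), H (phi Q n) = ∑ x, H x := by
  classical
  have hinj : Set.InjOn (phi Q) (range (pr Q) : Finset ℕ) := by
    intro n hn n' hn' h
    rw [Finset.mem_coe, mem_range] at hn hn'
    exact phi_inj hQ hn hn' h
  have him : (range (pr Q)).image (phi Q) = univ := by
    apply Finset.eq_univ_of_card
    rw [Finset.card_image_of_injOn hinj, card_range, Fintype.card_pi]
    have h1 : ∀ i : {l // l ∈ Q}, Fintype.card (ZMod (i : ℕ)) = (i : ℕ) := by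
      intro i
      have : NeZero (i : ℕ) := ⟨(hQ i i.2).ne_zero⟩
      exact ZMod.card (i : ℕ)
    rw [Finset.prod_congr rfl fun i _ => h1 i]
    exact (Finset.prod_coe_sort Q (fun l => l)).symm
  rw [← him, Finset.sum_image hinj]

end crt

section hits

variable {κ : Type}

theorem hit_eq {l : ℕ} {r : κ → ZMod l} (hr : Function.Injective r) (x : ZMod l) (k : κ) :
    hit r x = some k ↔ r k = x := by
  classical
  unfold hit
  by_cases h : ∃ k, r k = x
  · rw [dif_pos h]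
    constructor
    · intro h1
      have h2 := Option.some.inj h1
      rw [← h2]
      exact h.choose_spec
    · intro h1
      congr 1
      apply hr
      rw [h.choose_spec, h1]
  · rw [dif_neg h]
    constructor
    · intro h1
      exact absurd h1 (by simp)
    · intro h1
      exact absurd ⟨k, h1⟩ h

end hits

/-- `∑ 1/l² ≤ 2/z`. -/
theorem sum_inv {Q : Finset ℕ} {z : ℝ} (hz : 1 ≤ z) (hQ : ∀ l ∈ Q, z ≤ (l : ℝ)) :
    ∑ l ∈ Q, 1 / (l : ℝ) ^ 2 ≤ 2 / z := by
  have hc : 1 ≤ ⌈z⌉₊ := Nat.one_le_ceil_iff.2 (by linarith)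
  have hsub : Q ⊆ Ioo (⌈z⌉₊ - 1) (Q.sup id + 1) := by
    intro l hl
    rw [mem_Ioo]
    have h1 : ⌈z⌉₊ ≤ l := Nat.ceil_le.2 (hQ l hl)
    have h2 : l ≤ Q.sup id := Finset.le_sup (f := id) hl
    omega
  calc ∑ l ∈ Q, 1 / (l : ℝ) ^ 2 ≤ ∑ l ∈ Ioo (⌈z⌉₊ - 1) (Q.sup id + 1), 1 / (l : ℝ) ^ 2 :=
        Finset.sum_le_sum_of_subset_of_nonneg hsub fun l _ _ => by positivity
    _ = ∑ l ∈ Ioo (⌈z⌉₊ - 1) (Q.sup id + 1), ((l : ℝ) ^ 2)⁻¹ := by
        refine Finset.sum_congr rfl fun l _ => ?_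
        rw [one_div]
    _ ≤ 2 / (((⌈z⌉₊ - 1 : ℕ) : ℝ) + 1) := sum_Ioo_inv_sq_le _ _
    _ ≤ 2 / z := by
        have h3 : (((⌈z⌉₊ - 1 : ℕ) : ℝ) + 1) = (⌈z⌉₊ : ℝ) := by
          rw [Nat.cast_sub hc]; push_cast; ring
        rw [h3]
        have h4 := Nat.le_ceil z
        gcongr

end BOXx

open BOXx

theorem box_small : StmtCHI → StmtBOX := by
  classical
  intro hchi Q κ _ ρ F z H hF hzQ hz hK hmean
  have hQ := H.prime
  have hq0 : (0 : ℝ) < (pr Q : ℝ) := by exact_mod_cast pr_pos hQ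
  have inst1 : ∀ i : {l // l ∈ Q}, Fact (i : ℕ).Prime := fun i => ⟨hQ i i.2⟩
  have inst2 : ∀ i : {l // l ∈ Q}, NeZero (i : ℕ) := fun i => ⟨(hQ i i.2).ne_zero⟩
  have hqp : (pr Q : ℝ) = ∏ i : {l // l ∈ Q}, ((i : ℕ) : ℝ) := by
    unfold pr
    push_cast
    exact (Finset.prod_coe_sort Q (fun l => (l : ℝ))).symm
  obtain ⟨r, hr⟩ : ∃ r : ∀ i : {l // l ∈ Q}, κ → ZMod (i : ℕ),
      r = fun (i : {l // l ∈ Q}) (k : κ) => ((ρ (i : ℕ) k : ℕ) : ZMod (i : ℕ)) := ⟨_, rfl⟩
  have hrinj : ∀ i, Function.Injective (r i) := by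
    intro i k k' h
    rw [hr] at h
    have h1 := (ZMod.natCast_eq_natCast_iff' _ _ _).1 h
    rw [Nat.mod_eq_of_lt (H.lt i i.2 k), Nat.mod_eq_of_lt (H.lt i i.2 k')] at h1
    exact H.inj i i.2 h1
  have hr0 : ∀ i k, r i k ≠ 0 := by
    intro i k h
    rw [hr] at h
    have h1 := (ZMod.natCast_eq_zero_iff _ _).1 h
    have h2 := Nat.eq_zero_of_dvd_of_lt h1 (H.lt i i.2 k)
    have h3 := H.pos i i.2 k
    omega
  -- the pattern of hits
  obtain ⟨hh, hhd⟩ : ∃ hh : (∀ i : {l // l ∈ Q}, ZMod (i : ℕ)) → ({l // l ∈ Q} → Option κ),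
      hh = fun x i => hit (r i) (x i) := ⟨_, rfl⟩
  have hfac : ∀ n n' : ℕ, hh (phi Q n) = hh (phi Q n') → F n = F n' := by
    intro n n' h
    apply hF
    intro l hl k
    have h1 := congrFun h ⟨l, hl⟩
    rw [hhd] at h1
    have h2 : ∀ n : ℕ, hit (r ⟨l, hl⟩) (phi Q n ⟨l, hl⟩) = some k ↔ n % l = ρ l k := by
      intro n
      rw [hit_eq (hrinj _), hr]
      change ((ρ l k : ℕ) : ZMod l) = ((n : ℕ) : ZMod l) ↔ _
      rw [ZMod.natCast_eq_natCast_iff', Nat.mod_eq_of_lt (H.lt l hl k)]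
      exact eq_comm
    rw [← h2 n, ← h2 n']
    change hit _ _ = hit _ _ at h1
    rw [h1]
  obtain ⟨G, hG⟩ : ∃ G : ({l // l ∈ Q} → Option κ) → ℝ, ∀ n, F n = G (hh (phi Q n)) := by
    refine ⟨fun t => if h : ∃ n, hh (phi Q n) = t then F h.choose else 0, fun n => ?_⟩
    have h : ∃ n', hh (phi Q n') = hh (phi Q n) := ⟨n, rfl⟩
    beta_reduce
    rw [dif_pos h]
    exact hfac _ _ h.choose_spec.symm
  -- means of functions of the pattern
  have hm1 : ∀ g : ℝ → ℝ, mean (pr Q) (fun n => g (F n)) =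
      ∑ t : {l // l ∈ Q} → Option κ, (∏ i, P1 (r i) (t i)) * g (G t) := by
    intro g
    unfold mean
    have e1 : ∑ n ∈ range (pr Q), g (F n) = ∑ x : ∀ i : {l // l ∈ Q}, ZMod (i : ℕ),
        g (G (hh x)) := by
      rw [← sum_phi hQ (fun x => g (G (hh x)))]
      exact Finset.sum_congr rfl fun n _ => by rw [hG n]
    rw [e1]
    have e2 := push (fun (i : {l // l ∈ Q}) (y : ZMod (i : ℕ)) => hit (r i) y)
      (fun t => g (G t))
    rw [hhd, e2, Finset.sum_div]
    refine Finset.sum_congr rfl fun t _ => ?_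
    unfold P1
    rw [Finset.prod_div_distrib, ← hqp]
    ring
  have hbox : box (pr Q) F = ∑ x : {l // l ∈ Q} → Option κ, ∑ y : {l // l ∈ Q} → Option κ,
      ∑ v : {l // l ∈ Q} → Option κ, ∑ w : {l // l ∈ Q} → Option κ,
      (∏ i, P4 (r i) (x i) (y i) (v i) (w i)) * (G x * G y * G v * G w) := by
    have e1 : box (pr Q) F = (∑ a ∈ range (pr Q), ∑ b ∈ range (pr Q), ∑ c ∈ range (pr Q),
        ∑ d ∈ range (pr Q), F (a * c) * F (b * c) * F (a * d) * F (b * d)) / (pr Q : ℝ) ^ 4 := by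
      unfold box cor mean
      have e2 : ∀ a b : ℕ, ((∑ n ∈ range (pr Q), F (a * n) * F (b * n)) / (pr Q : ℝ)) ^ 2 =
          (∑ c ∈ range (pr Q), ∑ d ∈ range (pr Q), F (a * c) * F (b * c) * F (a * d) *
            F (b * d)) / (pr Q : ℝ) ^ 2 := by
        intro a b
        rw [div_pow, sq (∑ n ∈ range (pr Q), F (a * n) * F (b * n)), Finset.sum_mul_sum]
        congr 1
        refine Finset.sum_congr rfl fun c _ => Finset.sum_congr rfl fun d _ => ?_
        ring
      simp only [e2, ← Finset.sum_div]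
      field_simp
    have e3 : (∑ a ∈ range (pr Q), ∑ b ∈ range (pr Q), ∑ c ∈ range (pr Q),
        ∑ d ∈ range (pr Q), F (a * c) * F (b * c) * F (a * d) * F (b * d)) =
        ∑ a : ∀ i : {l // l ∈ Q}, ZMod (i : ℕ), ∑ b : ∀ i : {l // l ∈ Q}, ZMod (i : ℕ),
        ∑ c : ∀ i : {l // l ∈ Q}, ZMod (i : ℕ), ∑ d : ∀ i : {l // l ∈ Q}, ZMod (i : ℕ),
        G (hh (a * c)) * G (hh (b * c)) * G (hh (a * d)) * G (hh (b * d)) := by
      have hmul : ∀ a b : ℕ, phi Q (a * b) = phi Q a * phi Q b := by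
        intro a b
        funext i
        change ((a * b : ℕ) : ZMod (i : ℕ)) = (a : ZMod (i : ℕ)) * (b : ZMod (i : ℕ))
        push_cast
        rfl
      rw [← sum_phi hQ (fun a => ∑ b, ∑ c, ∑ d,
        G (hh (a * c)) * G (hh (b * c)) * G (hh (a * d)) * G (hh (b * d)))]
      refine Finset.sum_congr rfl fun a _ => ?_
      rw [← sum_phi hQ (fun b => ∑ c, ∑ d,
        G (hh (phi Q a * c)) * G (hh (b * c)) * G (hh (phi Q a * d)) * G (hh (b * d)))]
      refine Finset.sum_congr rfl fun b _ => ?_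
      rw [← sum_phi hQ (fun c => ∑ d,
        G (hh (phi Q a * c)) * G (hh (phi Q b * c)) * G (hh (phi Q a * d)) *
          G (hh (phi Q b * d)))]
      refine Finset.sum_congr rfl fun c _ => ?_
      rw [← sum_phi hQ (fun d =>
        G (hh (phi Q a * phi Q c)) * G (hh (phi Q b * phi Q c)) * G (hh (phi Q a * d)) *
          G (hh (phi Q b * d)))]
      refine Finset.sum_congr rfl fun d _ => ?_
      simp only [hG, hmul]
    -- quadruples of vectors and vectors of quadruples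
    have e4 : ∑ a : ∀ i : {l // l ∈ Q}, ZMod (i : ℕ), ∑ b : ∀ i : {l // l ∈ Q}, ZMod (i : ℕ),
        ∑ c : ∀ i : {l // l ∈ Q}, ZMod (i : ℕ), ∑ d : ∀ i : {l // l ∈ Q}, ZMod (i : ℕ),
        G (hh (a * c)) * G (hh (b * c)) * G (hh (a * d)) * G (hh (b * d)) =
        ∑ U : ∀ i : {l // l ∈ Q}, (Fin 4 → ZMod (i : ℕ)),
          G (fun i => hit (r i) (U i 0 * U i 2)) * G (fun i => hit (r i) (U i 1 * U i 2)) *
            G (fun i => hit (r i) (U i 0 * U i 3)) * G (fun i => hit (r i) (U i 1 * U i 3)) := by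
      have e5 : ∑ U : ∀ i : {l // l ∈ Q}, (Fin 4 → ZMod (i : ℕ)),
          G (fun i => hit (r i) (U i 0 * U i 2)) * G (fun i => hit (r i) (U i 1 * U i 2)) *
            G (fun i => hit (r i) (U i 0 * U i 3)) * G (fun i => hit (r i) (U i 1 * U i 3)) =
          ∑ A : Fin 4 → ∀ i : {l // l ∈ Q}, ZMod (i : ℕ),
            G (hh (A 0 * A 2)) * G (hh (A 1 * A 2)) * G (hh (A 0 * A 3)) *
              G (hh (A 1 * A 3)) := by
        rw [hhd]
        exact Fintype.sum_equiv (Equiv.piComm (fun (i : {l // l ∈ Q}) (_ : Fin 4) =>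
          ZMod (i : ℕ))) _ _ (fun U => rfl)
      rw [e5]
      have e6 : ∀ (X : Type) [Fintype X] (f : X → X → X → X → ℝ),
          ∑ A : Fin 4 → X, f (A 0) (A 1) (A 2) (A 3) = ∑ a, ∑ b, ∑ c, ∑ d, f a b c d := by
        intro X _ f
        rw [← (Fin.consEquiv (fun _ : Fin 4 => X)).sum_comp, Fintype.sum_prod_type]
        refine Finset.sum_congr rfl fun a _ => ?_
        rw [← (Fin.consEquiv (fun _ : Fin 3 => X)).sum_comp, Fintype.sum_prod_type]
        refine Finset.sum_congr rfl fun b _ => ?_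
        rw [← (Fin.consEquiv (fun _ : Fin 2 => X)).sum_comp, Fintype.sum_prod_type]
        refine Finset.sum_congr rfl fun c _ => ?_
        rw [← (Fin.consEquiv (fun _ : Fin 1 => X)).sum_comp, Fintype.sum_prod_type]
        refine Finset.sum_congr rfl fun d _ => ?_
        rw [Fintype.sum_unique]
        rfl
      rw [e6 _ (fun a b c d => G (hh (a * c)) * G (hh (b * c)) * G (hh (a * d)) *
        G (hh (b * d)))]
    rw [e1, e3, e4]
    have e7 := push (fun (i : {l // l ∈ Q}) (U : Fin 4 → ZMod (i : ℕ)) =>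
      (hit (r i) (U 0 * U 2), hit (r i) (U 1 * U 2), hit (r i) (U 0 * U 3),
        hit (r i) (U 1 * U 3)))
      (fun t => G (fun i => (t i).1) * G (fun i => (t i).2.1) * G (fun i => (t i).2.2.1) *
        G (fun i => (t i).2.2.2))
    rw [e7, split4]
    simp only [Finset.sum_div]
    refine Finset.sum_congr rfl fun x _ => Finset.sum_congr rfl fun y _ =>
      Finset.sum_congr rfl fun v _ => Finset.sum_congr rfl fun w _ => ?_
    have e8 : ∏ i : {l // l ∈ Q}, P4 (r i) (x i) (y i) (v i) (w i) =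
        (∏ i : {l // l ∈ Q}, ((univ.filter (fun U : Fin 4 → ZMod (i : ℕ) =>
          (hit (r i) (U 0 * U 2), hit (r i) (U 1 * U 2), hit (r i) (U 0 * U 3),
            hit (r i) (U 1 * U 3)) = (x i, y i, v i, w i))).card : ℝ)) / (pr Q : ℝ) ^ 4 := by
      rw [hqp, ← Finset.prod_pow, ← Finset.prod_div_distrib]
      refine Finset.prod_congr rfl fun i _ => ?_
      unfold P4
      congr 2
      congr 1
      apply Finset.filter_congr
      intro U _
      simp only [Prod.mk.injEq]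
    rw [e8]
    ring
  -- the chi square inequality
  have hzl : ∀ i : {l // l ∈ Q}, 16 * (Fintype.card κ : ℝ) ^ 2 ≤ ((i : ℕ) : ℝ) :=
    fun i => hK.trans (hzQ i i.2)
  have hC := fun i : {l // l ∈ Q} => hchi (i : ℕ) κ (r i) (hrinj i) (hr0 i) (hzl i)
  have hP1 : ∀ i : {l // l ∈ Q}, ∑ t, P1 (r i) t = 1 := by
    intro i
    unfold P1
    rw [← Finset.sum_div]
    have e1 : ∑ t : Option κ, ((univ.filter (fun x : ZMod (i : ℕ) => hit (r i) x = t)).card : ℝ) =
        ((i : ℕ) : ℝ) := by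
      have e2 : (univ : Finset (ZMod (i : ℕ))).card = ∑ t : Option κ,
          (univ.filter (fun x : ZMod (i : ℕ) => hit (r i) x = t)).card :=
        Finset.card_eq_sum_card_fiberwise (fun x _ => mem_univ _)
      rw [card_univ, ZMod.card] at e2
      exact_mod_cast e2.symm
    rw [e1]
    exact div_self (by exact_mod_cast (hQ i i.2).ne_zero)
  have hP4 : ∀ i : {l // l ∈ Q}, ∑ a, ∑ b, ∑ c, ∑ d, P4 (r i) a b c d = 1 := by
    intro i
    have hi0 : ((i : ℕ) : ℝ) ^ 4 ≠ 0 := pow_ne_zero _ (by exact_mod_cast (hQ i i.2).ne_zero)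
    have e1 : ∑ a, ∑ b, ∑ c, ∑ d, P4 (r i) a b c d =
        (∑ t : Option κ × Option κ × Option κ × Option κ,
          ((univ.filter (fun U : Fin 4 → ZMod (i : ℕ) =>
          (hit (r i) (U 0 * U 2), hit (r i) (U 1 * U 2), hit (r i) (U 0 * U 3),
            hit (r i) (U 1 * U 3)) = t)).card : ℝ)) / ((i : ℕ) : ℝ) ^ 4 := by
      rw [Fintype.sum_prod_type]
      simp only [Fintype.sum_prod_type, Finset.sum_div]
      refine Finset.sum_congr rfl fun x _ => Finset.sum_congr rfl fun y _ =>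
        Finset.sum_congr rfl fun v _ => Finset.sum_congr rfl fun w _ => ?_
      unfold P4
      congr 2
      congr 1
      apply Finset.filter_congr
      intro U _
      simp only [Prod.mk.injEq]
    rw [e1]
    have e2 : (univ : Finset (Fin 4 → ZMod (i : ℕ))).card =
        ∑ t : Option κ × Option κ × Option κ × Option κ,
          (univ.filter (fun U : Fin 4 → ZMod (i : ℕ) =>
          (hit (r i) (U 0 * U 2), hit (r i) (U 1 * U 2), hit (r i) (U 0 * U 3),
            hit (r i) (U 1 * U 3)) = t)).card :=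
      Finset.card_eq_sum_card_fiberwise (fun x _ => mem_univ _)
    rw [card_univ, Fintype.card_fun, ZMod.card, Fintype.card_fin] at e2
    have e3 : ∑ t : Option κ × Option κ × Option κ × Option κ,
          ((univ.filter (fun U : Fin 4 → ZMod (i : ℕ) =>
          (hit (r i) (U 0 * U 2), hit (r i) (U 1 * U 2), hit (r i) (U 0 * U 3),
            hit (r i) (U 1 * U 3)) = t)).card : ℝ) = ((i : ℕ) : ℝ) ^ 4 := by
      exact_mod_cast e2.symm
    rw [e3, div_self hi0]
  have hF0 : ∑ t : {l // l ∈ Q} → Option κ, (∏ i, P1 (r i) (t i)) * G t = 0 := by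
    have := hm1 (fun x => x)
    rw [← this]
    exact hmean
  have main := BOXx.box (fun (i : {l // l ∈ Q}) t => P1 (r i) t)
    (fun (i : {l // l ∈ Q}) a b c d => P4 (r i) a b c d)
    (fun i : {l // l ∈ Q} => 60 * (Fintype.card κ : ℝ) ^ 3 / ((i : ℕ) : ℝ) ^ 2)
    (fun i t => ((hC i).1 t).le) hP1
    (fun i a b c d h => by
      exfalso
      have h1 := mul_pos (mul_pos (mul_pos ((hC i).1 a) ((hC i).1 b)) ((hC i).1 c)) ((hC i).1 d)
      exact h1.ne' h)
    hP4 (fun i => (hC i).2) G hF0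
  have hE2 := hm1 (fun x => x ^ 2)
  have hE0 : 0 ≤ mean (pr Q) fun n => F n ^ 2 := by
    unfold mean
    exact div_nonneg (Finset.sum_nonneg fun n _ => sq_nonneg _) hq0.le
  rw [← hbox, ← hE2] at main
  have hprod : ∏ i : {l // l ∈ Q}, (1 + 60 * (Fintype.card κ : ℝ) ^ 3 / ((i : ℕ) : ℝ) ^ 2) ≤
      Real.exp (120 * (Fintype.card κ : ℝ) ^ 3 / z) := by
    calc ∏ i : {l // l ∈ Q}, (1 + 60 * (Fintype.card κ : ℝ) ^ 3 / ((i : ℕ) : ℝ) ^ 2) ≤
        ∏ i : {l // l ∈ Q}, Real.exp (60 * (Fintype.card κ : ℝ) ^ 3 / ((i : ℕ) : ℝ) ^ 2) := by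
          refine Finset.prod_le_prod (fun i _ => by positivity) fun i _ => ?_
          rw [add_comm]
          exact Real.add_one_le_exp _
      _ = Real.exp (∑ i : {l // l ∈ Q}, 60 * (Fintype.card κ : ℝ) ^ 3 / ((i : ℕ) : ℝ) ^ 2) := by
          rw [Real.exp_sum]
      _ = Real.exp (60 * (Fintype.card κ : ℝ) ^ 3 * ∑ l ∈ Q, 1 / (l : ℝ) ^ 2) := by
          congr 1
          rw [Finset.mul_sum, ← Finset.sum_coe_sort Q]
          refine Finset.sum_congr rfl fun i _ => ?_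
          ring
      _ ≤ Real.exp (120 * (Fintype.card κ : ℝ) ^ 3 / z) := by
          apply Real.exp_le_exp.2
          have h1 := sum_inv hz hzQ
          calc 60 * (Fintype.card κ : ℝ) ^ 3 * ∑ l ∈ Q, 1 / (l : ℝ) ^ 2 ≤
                60 * (Fintype.card κ : ℝ) ^ 3 * (2 / z) := by gcongr
            _ = _ := by ring
  have h1 : |box (pr Q) F| ≤ Real.sqrt ((Real.exp (120 * (Fintype.card κ : ℝ) ^ 3 / z) - 1) *
      (mean (pr Q) fun n => F n ^ 2) ^ 4) := by
    apply Real.abs_le_sqrt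
    refine main.trans ?_
    apply mul_le_mul_of_nonneg_right _ (by positivity)
    linarith
  refine (le_abs_self _).trans (h1.trans ?_)
  rw [show (mean (pr Q) fun n => F n ^ 2) ^ 4 = ((mean (pr Q) fun n => F n ^ 2) ^ 2) ^ 2 by ring,
    Real.sqrt_mul' _ (sq_nonneg _), Real.sqrt_sq (sq_nonneg _)]

end Pool.Agent.IPP
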