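import Mathlib
import Pool.Agent.IPP.Stmts

set_option autoImplicit false

namespace Pool.Agent.IPP.CHIx

open Finset

noncomputable section

variable {κ : Type} {l : ℕ} [Fact l.Prime]

omit [Fact l.Prime] in
lemma hit_some {r : κ → ZMod l} (hr : Function.Injective r) (x : ZMod l) (k : κ) :
    hit r x = some k ↔ x = r k := by
  unfold hit
  split_ifs with h
  · have h0 := h.choose_spec
    constructor
    · intro h1
      have h2 : h.choose = k := by simpa using h1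
      rw [← h0, h2]
    · intro h1
      have h2 : h.choose = k := hr (by rw [h0, h1])
      rw [h2]
  · constructor
    · intro h1
      simp at h1
    · intro h1
      exact absurd ⟨k, h1.symm⟩ h

omit [Fact l.Prime] in
lemma hit_none {r : κ → ZMod l} (x : ZMod l) : hit r x = none ↔ ∀ k, r k ≠ x := by
  unfold hit
  split_ifs with h
  · constructor
    · intro h1
      simp at h1
    · intro h1
      obtain ⟨k, hk⟩ := h
      exact absurd hk (h1 k)
  · constructor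
    · intro _ k hk
      exact h ⟨k, hk⟩
    · intro _
      rfl

lemma P1_some {r : κ → ZMod l} (hr : Function.Injective r) (k : κ) :
    P1 r (some k) = 1 / l := by
  classical
  unfold P1
  have h : (univ.filter (fun x : ZMod l => hit r x = some k)) = {r k} := by
    ext x
    simp [hit_some hr]
  rw [h]
  simp

lemma P1_none [Fintype κ] {r : κ → ZMod l} (hr : Function.Injective r) :
    P1 r none = 1 - (Fintype.card κ : ℝ) / l := by
  classical
  have hl : (l : ℝ) ≠ 0 := by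
    exact_mod_cast (Fact.out : l.Prime).ne_zero
  have h1 : (univ.filter (fun x : ZMod l => hit r x = none)).card + Fintype.card κ = l := by
    have h2 : (univ.filter (fun x : ZMod l => hit r x = none)) = (univ.image r)ᶜ := by
      ext x
      simp [hit_none]
    have h3 : (univ.image r).card = Fintype.card κ := by
      rw [Finset.card_image_of_injective _ hr]
      rfl
    have h4 := Finset.card_compl_add_card (univ.image r)
    rw [h3, ZMod.card] at h4
    rw [h2]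
    exact h4
  unfold P1
  have h5 : ((univ.filter (fun x : ZMod l => hit r x = none)).card : ℝ) =
      l - Fintype.card κ := by
    have : (((univ.filter (fun x : ZMod l => hit r x = none)).card + Fintype.card κ : ℕ) : ℝ) =
        (l : ℝ) := by exact_mod_cast h1
    push_cast at this
    linarith
  have h6 : ((univ.filter (fun x : ZMod l => hit r x = none)).card : ℝ) / l =
      (l - Fintype.card κ) / l := by rw [h5]
  convert h6 using 1
  field_simp

lemma card_det (S : Finset (Fin 4 → ZMod l)) (T : Finset (Fin 4))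
    (h : ∀ u ∈ S, ∀ v ∈ S, (∀ t ∈ T, u t = v t) → u = v) : S.card ≤ l ^ T.card := by
  classical
  have h1 : (S.image (fun u => fun t : T => u t)).card = S.card := by
    apply Finset.card_image_of_injOn
    intro u hu v hv huv
    exact h u hu v hv (fun t ht => congrFun huv ⟨t, ht⟩)
  rw [← h1]
  calc _ ≤ Fintype.card (T → ZMod l) := Finset.card_le_univ _
    _ = l ^ T.card := by simp [ZMod.card]

lemma card_one_ge (i j : Fin 4) (hij : i ≠ j) (α : ZMod l) (hα : α ≠ 0) :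
    (l - 1) * l ^ 2 ≤ (univ.filter (fun u : Fin 4 → ZMod l => u i * u j = α)).card := by
  classical
  set W : Finset (Fin 4 → ZMod l) := Fintype.piFinset (fun t =>
    if t = j then ({0} : Finset (ZMod l)) else if t = i then univ.erase 0 else univ) with hWdef
  have hW : W.card = (l - 1) * l ^ 2 := by
    rw [hWdef, Fintype.card_piFinset]
    fin_cases i <;> fin_cases j <;> simp [Fin.prod_univ_four, ZMod.card] at hij ⊢ <;> ring
  rw [← hW]
  have hmem : ∀ w ∈ W, w j = 0 ∧ w i ≠ 0 := by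
    intro w hw
    rw [hWdef, Fintype.mem_piFinset] at hw
    have h1 := hw j
    have h2 := hw i
    simp [hij] at h1 h2
    exact ⟨h1, h2⟩
  apply Finset.card_le_card_of_injOn (fun w => Function.update w j (α / w i))
  · intro w hw
    have h2 := (hmem w hw).2
    simp only [coe_filter, mem_univ, true_and, Set.mem_ofPred_eq, Function.update_self,
      Function.update_of_ne hij]
    field_simp
  · intro w hw w' hw' h
    funext t
    by_cases ht : t = j
    · rw [ht, (hmem w hw).1, (hmem w' hw').1]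
    · have := congrFun h t
      simpa [Function.update_of_ne ht] using this

lemma cl {a b b' α : ZMod l} (hα : α ≠ 0) (h : a * b = α) (h' : a * b' = α) : b = b' := by
  have ha : a ≠ 0 := by
    intro h0
    rw [h0, zero_mul] at h
    exact hα h.symm
  exact mul_left_cancel₀ ha (h.trans h'.symm)

lemma cr {a b b' α : ZMod l} (hα : α ≠ 0) (h : b * a = α) (h' : b' * a = α) : b = b' := by
  apply cl hα (a := a)
  · rw [mul_comm]; exact h
  · rw [mul_comm]; exact h'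

omit [Fact l.Prime] in
lemma ext4 {u v : Fin 4 → ZMod l} (h0 : u 0 = v 0) (h1 : u 1 = v 1) (h2 : u 2 = v 2)
    (h3 : u 3 = v 3) : u = v := by
  funext t
  fin_cases t
  · exact h0
  · exact h1
  · exact h2
  · exact h3

lemma P4_nonneg (r : κ → ZMod l) (a b c d : Option κ) : 0 ≤ P4 r a b c d := by
  unfold P4
  positivity

lemma P4_bd {r : κ → ZMod l} (a b c d : Option κ) (T : Finset (Fin 4))
    (h : ∀ u v : Fin 4 → ZMod l, (hit r (u 0 * u 2) = a ∧ hit r (u 1 * u 2) = b ∧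
      hit r (u 0 * u 3) = c ∧ hit r (u 1 * u 3) = d) → (hit r (v 0 * v 2) = a ∧
      hit r (v 1 * v 2) = b ∧ hit r (v 0 * v 3) = c ∧ hit r (v 1 * v 3) = d) →
      (∀ t ∈ T, u t = v t) → u = v) : P4 r a b c d ≤ (l : ℝ) ^ T.card / (l : ℝ) ^ 4 := by
  classical
  have hl : (0 : ℝ) < l := by
    exact_mod_cast (Fact.out : l.Prime).pos
  unfold P4
  apply div_le_div_of_nonneg_right _ (by positivity)
  have h1 := card_det (univ.filter (fun u : Fin 4 → ZMod l => hit r (u 0 * u 2) = a ∧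
    hit r (u 1 * u 2) = b ∧ hit r (u 0 * u 3) = c ∧ hit r (u 1 * u 3) = d)) T (by
      intro u hu v hv ht
      rw [Finset.mem_filter] at hu hv
      exact h u v hu.2 hv.2 ht)
  have h2 : ((univ.filter (fun u : Fin 4 → ZMod l => hit r (u 0 * u 2) = a ∧
    hit r (u 1 * u 2) = b ∧ hit r (u 0 * u 3) = c ∧ hit r (u 1 * u 3) = d)).card : ℝ) ≤
      (l : ℝ) ^ T.card := by exact_mod_cast h1
  convert h2 using 2

section bounds

variable {r : κ → ZMod l} (hr : Function.Injective r) (h0 : ∀ k, r k ≠ 0)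
include hr h0

lemma p1a (k : κ) : P4 r (some k) none none none ≤ (l : ℝ) ^ 3 / (l : ℝ) ^ 4 := by
  apply P4_bd (T := {0, 1, 3})
  rintro u v ⟨a1, a2, a3, a4⟩ ⟨b1, b2, b3, b4⟩ ht
  rw [hit_some hr] at a1 b1
  have e0 := ht 0 (by decide)
  have e1 := ht 1 (by decide)
  have e3 := ht 3 (by decide)
  have e2 : u 2 = v 2 := cl (h0 k) a1 (by rw [e0]; exact b1)
  exact ext4 e0 e1 e2 e3

lemma p1b (k : κ) : P4 r none (some k) none none ≤ (l : ℝ) ^ 3 / (l : ℝ) ^ 4 := by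
  apply P4_bd (T := {0, 1, 3})
  rintro u v ⟨a1, a2, a3, a4⟩ ⟨b1, b2, b3, b4⟩ ht
  rw [hit_some hr] at a2 b2
  have e0 := ht 0 (by decide)
  have e1 := ht 1 (by decide)
  have e3 := ht 3 (by decide)
  have e2 : u 2 = v 2 := cl (h0 k) a2 (by rw [e1]; exact b2)
  exact ext4 e0 e1 e2 e3

lemma p1c (k : κ) : P4 r none none (some k) none ≤ (l : ℝ) ^ 3 / (l : ℝ) ^ 4 := by
  apply P4_bd (T := {0, 1, 2})
  rintro u v ⟨a1, a2, a3, a4⟩ ⟨b1, b2, b3, b4⟩ ht
  rw [hit_some hr] at a3 b3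
  have e0 := ht 0 (by decide)
  have e1 := ht 1 (by decide)
  have e2 := ht 2 (by decide)
  have e3 : u 3 = v 3 := cl (h0 k) a3 (by rw [e0]; exact b3)
  exact ext4 e0 e1 e2 e3

lemma p1d (k : κ) : P4 r none none none (some k) ≤ (l : ℝ) ^ 3 / (l : ℝ) ^ 4 := by
  apply P4_bd (T := {0, 1, 2})
  rintro u v ⟨a1, a2, a3, a4⟩ ⟨b1, b2, b3, b4⟩ ht
  rw [hit_some hr] at a4 b4
  have e0 := ht 0 (by decide)
  have e1 := ht 1 (by decide)
  have e2 := ht 2 (by decide)
  have e3 : u 3 = v 3 := cl (h0 k) a4 (by rw [e1]; exact b4)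
  exact ext4 e0 e1 e2 e3

lemma p2ab (k k' : κ) : P4 r (some k) (some k') none none ≤ (l : ℝ) ^ 2 / (l : ℝ) ^ 4 := by
  apply P4_bd (T := {2, 3})
  rintro u v ⟨a1, a2, a3, a4⟩ ⟨b1, b2, b3, b4⟩ ht
  rw [hit_some hr] at a1 b1 a2 b2
  have e2 := ht 2 (by decide)
  have e3 := ht 3 (by decide)
  have e0 : u 0 = v 0 := cr (h0 k) a1 (by rw [e2]; exact b1)
  have e1 : u 1 = v 1 := cr (h0 k') a2 (by rw [e2]; exact b2)
  exact ext4 e0 e1 e2 e3

lemma p2ac (k k' : κ) : P4 r (some k) none (some k') none ≤ (l : ℝ) ^ 2 / (l : ℝ) ^ 4 := by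
  apply P4_bd (T := {0, 1})
  rintro u v ⟨a1, a2, a3, a4⟩ ⟨b1, b2, b3, b4⟩ ht
  rw [hit_some hr] at a1 b1 a3 b3
  have e0 := ht 0 (by decide)
  have e1 := ht 1 (by decide)
  have e2 : u 2 = v 2 := cl (h0 k) a1 (by rw [e0]; exact b1)
  have e3 : u 3 = v 3 := cl (h0 k') a3 (by rw [e0]; exact b3)
  exact ext4 e0 e1 e2 e3

lemma p2ad (k k' : κ) : P4 r (some k) none none (some k') ≤ (l : ℝ) ^ 2 / (l : ℝ) ^ 4 := by
  apply P4_bd (T := {0, 1})
  rintro u v ⟨a1, a2, a3, a4⟩ ⟨b1, b2, b3, b4⟩ ht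
  rw [hit_some hr] at a1 b1 a4 b4
  have e0 := ht 0 (by decide)
  have e1 := ht 1 (by decide)
  have e2 : u 2 = v 2 := cl (h0 k) a1 (by rw [e0]; exact b1)
  have e3 : u 3 = v 3 := cl (h0 k') a4 (by rw [e1]; exact b4)
  exact ext4 e0 e1 e2 e3

lemma p2bc (k k' : κ) : P4 r none (some k) (some k') none ≤ (l : ℝ) ^ 2 / (l : ℝ) ^ 4 := by
  apply P4_bd (T := {0, 1})
  rintro u v ⟨a1, a2, a3, a4⟩ ⟨b1, b2, b3, b4⟩ ht
  rw [hit_some hr] at a2 b2 a3 b3
  have e0 := ht 0 (by decide)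
  have e1 := ht 1 (by decide)
  have e2 : u 2 = v 2 := cl (h0 k) a2 (by rw [e1]; exact b2)
  have e3 : u 3 = v 3 := cl (h0 k') a3 (by rw [e0]; exact b3)
  exact ext4 e0 e1 e2 e3

lemma p2bd (k k' : κ) : P4 r none (some k) none (some k') ≤ (l : ℝ) ^ 2 / (l : ℝ) ^ 4 := by
  apply P4_bd (T := {0, 1})
  rintro u v ⟨a1, a2, a3, a4⟩ ⟨b1, b2, b3, b4⟩ ht
  rw [hit_some hr] at a2 b2 a4 b4
  have e0 := ht 0 (by decide)
  have e1 := ht 1 (by decide)
  have e2 : u 2 = v 2 := cl (h0 k) a2 (by rw [e1]; exact b2)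
  have e3 : u 3 = v 3 := cl (h0 k') a4 (by rw [e1]; exact b4)
  exact ext4 e0 e1 e2 e3

lemma p2cd (k k' : κ) : P4 r none none (some k) (some k') ≤ (l : ℝ) ^ 2 / (l : ℝ) ^ 4 := by
  apply P4_bd (T := {2, 3})
  rintro u v ⟨a1, a2, a3, a4⟩ ⟨b1, b2, b3, b4⟩ ht
  rw [hit_some hr] at a3 b3 a4 b4
  have e2 := ht 2 (by decide)
  have e3 := ht 3 (by decide)
  have e0 : u 0 = v 0 := cr (h0 k) a3 (by rw [e3]; exact b3)
  have e1 : u 1 = v 1 := cr (h0 k') a4 (by rw [e3]; exact b4)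
  exact ext4 e0 e1 e2 e3

lemma p3abc (k k' m : κ) (d : Option κ) :
    P4 r (some k) (some k') (some m) d ≤ (l : ℝ) ^ 1 / (l : ℝ) ^ 4 := by
  apply P4_bd (T := {0})
  rintro u v ⟨a1, a2, a3, a4⟩ ⟨b1, b2, b3, b4⟩ ht
  rw [hit_some hr] at a1 b1 a2 b2 a3 b3
  have e0 := ht 0 (by decide)
  have e2 : u 2 = v 2 := cl (h0 k) a1 (by rw [e0]; exact b1)
  have e3 : u 3 = v 3 := cl (h0 m) a3 (by rw [e0]; exact b3)
  have e1 : u 1 = v 1 := cr (h0 k') a2 (by rw [e2]; exact b2)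
  exact ext4 e0 e1 e2 e3

lemma p3abd (k k' m : κ) :
    P4 r (some k) (some k') none (some m) ≤ (l : ℝ) ^ 1 / (l : ℝ) ^ 4 := by
  apply P4_bd (T := {0})
  rintro u v ⟨a1, a2, a3, a4⟩ ⟨b1, b2, b3, b4⟩ ht
  rw [hit_some hr] at a1 b1 a2 b2 a4 b4
  have e0 := ht 0 (by decide)
  have e2 : u 2 = v 2 := cl (h0 k) a1 (by rw [e0]; exact b1)
  have e1 : u 1 = v 1 := cr (h0 k') a2 (by rw [e2]; exact b2)
  have e3 : u 3 = v 3 := cl (h0 m) a4 (by rw [e1]; exact b4)
  exact ext4 e0 e1 e2 e3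

lemma p3acd (k k' m : κ) :
    P4 r (some k) none (some k') (some m) ≤ (l : ℝ) ^ 1 / (l : ℝ) ^ 4 := by
  apply P4_bd (T := {0})
  rintro u v ⟨a1, a2, a3, a4⟩ ⟨b1, b2, b3, b4⟩ ht
  rw [hit_some hr] at a1 b1 a3 b3 a4 b4
  have e0 := ht 0 (by decide)
  have e2 : u 2 = v 2 := cl (h0 k) a1 (by rw [e0]; exact b1)
  have e3 : u 3 = v 3 := cl (h0 k') a3 (by rw [e0]; exact b3)
  have e1 : u 1 = v 1 := cr (h0 m) a4 (by rw [e3]; exact b4)
  exact ext4 e0 e1 e2 e3

lemma p3bcd (k k' m : κ) :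
    P4 r none (some k) (some k') (some m) ≤ (l : ℝ) ^ 1 / (l : ℝ) ^ 4 := by
  apply P4_bd (T := {0})
  rintro u v ⟨a1, a2, a3, a4⟩ ⟨b1, b2, b3, b4⟩ ht
  rw [hit_some hr] at a2 b2 a3 b3 a4 b4
  have e0 := ht 0 (by decide)
  have e3 : u 3 = v 3 := cl (h0 k') a3 (by rw [e0]; exact b3)
  have e1 : u 1 = v 1 := cr (h0 m) a4 (by rw [e3]; exact b4)
  have e2 : u 2 = v 2 := cl (h0 k) a2 (by rw [e1]; exact b2)
  exact ext4 e0 e1 e2 e3

omit h0 in
lemma p4zero (a b c d : κ) (h : r a * r d ≠ r b * r c) :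
    P4 r (some a) (some b) (some c) (some d) = 0 := by
  classical
  unfold P4
  have h1 : (univ.filter (fun u : Fin 4 → ZMod l => hit r (u 0 * u 2) = some a ∧
    hit r (u 1 * u 2) = some b ∧ hit r (u 0 * u 3) = some c ∧
      hit r (u 1 * u 3) = some d)) = ∅ := by
    apply Finset.filter_eq_empty_iff.2
    rintro u _ ⟨a1, a2, a3, a4⟩
    rw [hit_some hr] at a1 a2 a3 a4
    apply h
    rw [← a1, ← a2, ← a3, ← a4]
    ring
  have h2 : ((univ.filter (fun u : Fin 4 → ZMod l => hit r (u 0 * u 2) = some a ∧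
    hit r (u 1 * u 2) = some b ∧ hit r (u 0 * u 3) = some c ∧
      hit r (u 1 * u 3) = some d)).card : ℝ) / (l : ℝ) ^ 4 = 0 := by
    rw [h1]
    simp
  convert h2 using 2

end bounds

lemma s1 [Fintype κ] (f : κ → ℝ) (B : ℝ) (h : ∀ k, f k ≤ B) :
    ∑ k, f k ≤ Fintype.card κ * B := by
  calc ∑ k, f k ≤ ∑ _k : κ, B := Finset.sum_le_sum fun k _ => h k
    _ = Fintype.card κ * B := by simp

lemma s2 [Fintype κ] (f : κ → κ → ℝ) (B : ℝ) (h : ∀ k k', f k k' ≤ B) :
    ∑ k, ∑ k', f k k' ≤ (Fintype.card κ : ℝ) ^ 2 * B := by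
  calc ∑ k, ∑ k', f k k' ≤ Fintype.card κ * (Fintype.card κ * B) :=
        s1 _ _ fun k => s1 _ _ fun k' => h k k'
    _ = _ := by ring

lemma s3 [Fintype κ] (f : κ → κ → κ → ℝ) (B : ℝ) (h : ∀ k k' m, f k k' m ≤ B) :
    ∑ k, ∑ k', ∑ m, f k k' m ≤ (Fintype.card κ : ℝ) ^ 3 * B := by
  calc ∑ k, ∑ k', ∑ m, f k k' m ≤ Fintype.card κ * ((Fintype.card κ : ℝ) ^ 2 * B) :=
        s1 _ _ fun k => s2 _ _ fun k' m => h k k' m
    _ = _ := by ring

omit [Fact l.Prime] in
lemma H_eq [Fintype κ] [DecidableEq (ZMod l)] {r : κ → ZMod l} (hr : Function.Injective r)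
    (y : ZMod l) :
    (∑ k, if y = r k then (1 : ℝ) else 0) = 0 ∧ hit r y = none ∨
    (∑ k, if y = r k then (1 : ℝ) else 0) = 1 ∧ hit r y ≠ none := by
  classical
  by_cases h : hit r y = none
  · left
    refine ⟨?_, h⟩
    rw [hit_none] at h
    apply Finset.sum_eq_zero
    intro k _
    rw [if_neg (fun h1 => h k h1.symm)]
  · right
    refine ⟨?_, h⟩
    obtain ⟨k, hk⟩ := Option.ne_none_iff_exists'.1 h
    rw [hit_some hr] at hk
    rw [Finset.sum_eq_single k]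
    · rw [if_pos hk]
    · intro k' _ hk'
      rw [if_neg]
      intro h1
      exact hk' (hr (h1.symm.trans hk))
    · intro h1
      exact absurd (Finset.mem_univ k) h1

open Classical in
lemma sumH [Fintype κ] {r : κ → ZMod l} (h0 : ∀ k, r k ≠ 0) (i j : Fin 4)
    (hij : i ≠ j) : (Fintype.card κ : ℝ) * (((l : ℝ) - 1) * (l : ℝ) ^ 2) ≤
      ∑ u : Fin 4 → ZMod l, ∑ k, if u i * u j = r k then (1 : ℝ) else 0 := by
  rw [Finset.sum_comm]
  calc (Fintype.card κ : ℝ) * (((l : ℝ) - 1) * (l : ℝ) ^ 2)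
      = ∑ _k : κ, (((l : ℝ) - 1) * (l : ℝ) ^ 2) := by simp
    _ ≤ _ := by
        apply Finset.sum_le_sum
        intro k _
        rw [Finset.sum_boole]
        have h1 := card_one_ge i j hij (r k) (h0 k)
        have h2 : (((l - 1) * l ^ 2 : ℕ) : ℝ) ≤
          ((univ.filter (fun u : Fin 4 → ZMod l => u i * u j = r k)).card : ℝ) := by
          exact_mod_cast h1
        rw [Nat.cast_mul, Nat.cast_pred (Fact.out : l.Prime).pos, Nat.cast_pow] at h2
        convert h2 using 2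

open Classical in
lemma sumHH [Fintype κ] {r : κ → ZMod l} (i j i' j' : Fin 4) (T : Finset (Fin 4))
    (hT : T.card = 2) (h : ∀ (k k' : κ) (u v : Fin 4 → ZMod l), u i * u j = r k →
      u i' * u j' = r k' → v i * v j = r k → v i' * v j' = r k' →
      (∀ t ∈ T, u t = v t) → u = v) :
    ∑ u : Fin 4 → ZMod l, (∑ k, if u i * u j = r k then (1 : ℝ) else 0) *
      (∑ k, if u i' * u j' = r k then (1 : ℝ) else 0) ≤
      (Fintype.card κ : ℝ) ^ 2 * (l : ℝ) ^ 2 := by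
  calc ∑ u : Fin 4 → ZMod l, (∑ k, if u i * u j = r k then (1 : ℝ) else 0) *
      (∑ k, if u i' * u j' = r k then (1 : ℝ) else 0)
      = ∑ u : Fin 4 → ZMod l, ∑ k, ∑ k',
          if (u i * u j = r k ∧ u i' * u j' = r k') then (1 : ℝ) else 0 := by
        apply Finset.sum_congr rfl
        intro u _
        rw [Finset.sum_mul_sum]
        apply Finset.sum_congr rfl
        intro k _
        apply Finset.sum_congr rfl
        intro k' _
        by_cases h1 : u i * u j = r k <;> by_cases h2 : u i' * u j' = r k' <;> simp [h1, h2]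
    _ = ∑ k, ∑ u : Fin 4 → ZMod l, ∑ k',
          if (u i * u j = r k ∧ u i' * u j' = r k') then (1 : ℝ) else 0 := Finset.sum_comm
    _ = ∑ k, ∑ k', ∑ u : Fin 4 → ZMod l,
          if (u i * u j = r k ∧ u i' * u j' = r k') then (1 : ℝ) else 0 := by
        apply Finset.sum_congr rfl
        intro k _
        exact Finset.sum_comm
    _ ≤ (Fintype.card κ : ℝ) ^ 2 * (l : ℝ) ^ 2 := by
        apply s2
        intro k k'
        rw [Finset.sum_boole]
        have h1 := card_det (univ.filter (fun u : Fin 4 → ZMod l =>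
          u i * u j = r k ∧ u i' * u j' = r k')) T (by
            intro u hu v hv ht
            rw [Finset.mem_filter] at hu hv
            exact h k k' u v hu.2.1 hu.2.2 hv.2.1 hv.2.2 ht)
        rw [hT] at h1
        have h2 : ((univ.filter (fun u : Fin 4 → ZMod l =>
          u i * u j = r k ∧ u i' * u j' = r k')).card : ℝ) ≤ (l : ℝ) ^ 2 := by
          exact_mod_cast h1
        convert h2 using 2

lemma nohit [Fintype κ] {r : κ → ZMod l} (hr : Function.Injective r) (h0 : ∀ k, r k ≠ 0) :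
    P4 r none none none none ≤ 1 - 4 * ((Fintype.card κ : ℝ) / l) * (1 - 1 / l) +
      6 * ((Fintype.card κ : ℝ) / l) ^ 2 := by
  classical
  have hl : (0 : ℝ) < l := by
    exact_mod_cast (Fact.out : l.Prime).pos
  set K : ℝ := (Fintype.card κ : ℝ) with hK
  have key : ((univ.filter (fun u : Fin 4 → ZMod l => hit r (u 0 * u 2) = none ∧
      hit r (u 1 * u 2) = none ∧ hit r (u 0 * u 3) = none ∧
      hit r (u 1 * u 3) = none)).card : ℝ) ≤
      (l : ℝ) ^ 4 - 4 * (K * (((l : ℝ) - 1) * (l : ℝ) ^ 2)) + 6 * (K ^ 2 * (l : ℝ) ^ 2) := by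
    let G : Fin 4 → Fin 4 → (Fin 4 → ZMod l) → ℝ := fun i j u =>
      ∑ k, if u i * u j = r k then (1 : ℝ) else 0
    have e1 : ((univ.filter (fun u : Fin 4 → ZMod l => hit r (u 0 * u 2) = none ∧
      hit r (u 1 * u 2) = none ∧ hit r (u 0 * u 3) = none ∧
      hit r (u 1 * u 3) = none)).card : ℝ) = ∑ u : Fin 4 → ZMod l,
        if (hit r (u 0 * u 2) = none ∧ hit r (u 1 * u 2) = none ∧ hit r (u 0 * u 3) = none ∧
          hit r (u 1 * u 3) = none) then (1 : ℝ) else 0 := by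
      rw [Finset.sum_boole]
    rw [e1]
    have e2 : ∀ u : Fin 4 → ZMod l,
        (if (hit r (u 0 * u 2) = none ∧ hit r (u 1 * u 2) = none ∧ hit r (u 0 * u 3) = none ∧
          hit r (u 1 * u 3) = none) then (1 : ℝ) else 0) ≤
        1 - (G 0 2 u + G 1 2 u + G 0 3 u + G 1 3 u) +
          (G 0 2 u * G 1 2 u + G 0 2 u * G 0 3 u + G 0 2 u * G 1 3 u + G 1 2 u * G 0 3 u +
            G 1 2 u * G 1 3 u + G 0 3 u * G 1 3 u) := by
      intro u
      have g1 : (G 0 2 u = 0 ∧ hit r (u 0 * u 2) = none) ∨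
        (G 0 2 u = 1 ∧ hit r (u 0 * u 2) ≠ none) := H_eq hr _
      have g2 : (G 1 2 u = 0 ∧ hit r (u 1 * u 2) = none) ∨
        (G 1 2 u = 1 ∧ hit r (u 1 * u 2) ≠ none) := H_eq hr _
      have g3 : (G 0 3 u = 0 ∧ hit r (u 0 * u 3) = none) ∨
        (G 0 3 u = 1 ∧ hit r (u 0 * u 3) ≠ none) := H_eq hr _
      have g4 : (G 1 3 u = 0 ∧ hit r (u 1 * u 3) = none) ∨
        (G 1 3 u = 1 ∧ hit r (u 1 * u 3) ≠ none) := H_eq hr _
      rcases g1 with ⟨a1, b1⟩ | ⟨a1, b1⟩ <;> rcases g2 with ⟨a2, b2⟩ | ⟨a2, b2⟩ <;>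
      rcases g3 with ⟨a3, b3⟩ | ⟨a3, b3⟩ <;> rcases g4 with ⟨a4, b4⟩ | ⟨a4, b4⟩ <;>
      rw [a1, a2, a3, a4] <;> simp only [b1, b2, b3, b4, and_true, and_false,
        if_true, if_false] <;> norm_num
    have e3 := Finset.sum_le_sum fun (u : Fin 4 → ZMod l) (_ : u ∈ univ) => e2 u
    refine e3.trans ?_
    rw [Finset.sum_add_distrib, Finset.sum_sub_distrib]
    simp only [Finset.sum_add_distrib]
    have q1 := sumH (r := r) h0 0 2 (by decide)
    have q2 := sumH (r := r) h0 1 2 (by decide)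
    have q3 := sumH (r := r) h0 0 3 (by decide)
    have q4 := sumH (r := r) h0 1 3 (by decide)
    have w1 := sumHH (r := r) 0 2 1 2 {2, 3} (by decide) (by
      intro k k' u v a b a' b' ht
      have f2 := ht 2 (by decide)
      have f3 := ht 3 (by decide)
      exact ext4 (cr (h0 k) a (by rw [f2]; exact a')) (cr (h0 k') b (by rw [f2]; exact b')) f2 f3)
    have w2 := sumHH (r := r) 0 2 0 3 {0, 1} (by decide) (by
      intro k k' u v a b a' b' ht
      have f0 := ht 0 (by decide)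
      have f1 := ht 1 (by decide)
      exact ext4 f0 f1 (cl (h0 k) a (by rw [f0]; exact a')) (cl (h0 k') b (by rw [f0]; exact b')))
    have w3 := sumHH (r := r) 0 2 1 3 {0, 1} (by decide) (by
      intro k k' u v a b a' b' ht
      have f0 := ht 0 (by decide)
      have f1 := ht 1 (by decide)
      exact ext4 f0 f1 (cl (h0 k) a (by rw [f0]; exact a')) (cl (h0 k') b (by rw [f1]; exact b')))
    have w4 := sumHH (r := r) 1 2 0 3 {0, 1} (by decide) (by
      intro k k' u v a b a' b' ht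
      have f0 := ht 0 (by decide)
      have f1 := ht 1 (by decide)
      exact ext4 f0 f1 (cl (h0 k) a (by rw [f1]; exact a')) (cl (h0 k') b (by rw [f0]; exact b')))
    have w5 := sumHH (r := r) 1 2 1 3 {0, 1} (by decide) (by
      intro k k' u v a b a' b' ht
      have f0 := ht 0 (by decide)
      have f1 := ht 1 (by decide)
      exact ext4 f0 f1 (cl (h0 k) a (by rw [f1]; exact a')) (cl (h0 k') b (by rw [f1]; exact b')))
    have w6 := sumHH (r := r) 0 3 1 3 {2, 3} (by decide) (by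
      intro k k' u v a b a' b' ht
      have f2 := ht 2 (by decide)
      have f3 := ht 3 (by decide)
      exact ext4 (cr (h0 k) a (by rw [f3]; exact a')) (cr (h0 k') b (by rw [f3]; exact b')) f2 f3)
    have c1 : ∑ _u : Fin 4 → ZMod l, (1 : ℝ) = (l : ℝ) ^ 4 := by
      rw [Finset.sum_const, Finset.card_univ, Fintype.card_fun, ZMod.card, Fintype.card_fin]
      simp
    rw [c1]
    simp only [G]
    linarith
  have h3 : P4 r none none none none ≤ ((l : ℝ) ^ 4 - 4 * (K * (((l : ℝ) - 1) * (l : ℝ) ^ 2)) +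
      6 * (K ^ 2 * (l : ℝ) ^ 2)) / (l : ℝ) ^ 4 := by
    unfold P4
    apply div_le_div_of_nonneg_right _ (by positivity)
    convert key using 2
  refine h3.trans (le_of_eq ?_)
  field_simp

lemma final (x K L : ℝ) (hL : 0 < L) (hK : 0 ≤ K) (hx : x = K / L) (hx16 : x ≤ 1 / 16)
    (hK1 : K ≤ K ^ 2) (hK2 : K ^ 2 ≤ K ^ 3) (N : ℝ) (hN0 : 0 ≤ N)
    (hN : N ≤ 1 - 4 * x * (1 - 1 / L) + 6 * x ^ 2) :
    N ^ 2 / ((1 - x) * (1 - x) * (1 - x) * (1 - x)) +
      4 * (K * ((L ^ 3 / L ^ 4) ^ 2 / ((1 / L) * (1 - x) ^ 3))) +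
      6 * (K ^ 2 * ((L ^ 2 / L ^ 4) ^ 2 / ((1 / L) ^ 2 * (1 - x) ^ 2))) +
      4 * (K ^ 3 * ((L ^ 1 / L ^ 4) ^ 2 / ((1 / L) ^ 3 * (1 - x)))) +
      K ^ 3 * ((L ^ 1 / L ^ 4) ^ 2 / (1 / L) ^ 4) ≤ 1 + 60 * K ^ 3 / L ^ 2 := by
  have hx0 : 0 ≤ x := by rw [hx]; positivity
  have hq : 0 < 1 - x := by linarith
  have hxL : x / L ≤ x ^ 2 := by
    rw [hx, div_div, div_pow, ← pow_two]
    exact div_le_div_of_nonneg_right hK1 (by positivity)
  have hN2 : N ≤ 1 - 4 * x + 10 * x ^ 2 := by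
    have : 4 * x * (1 - 1 / L) = 4 * x - 4 * (x / L) := by ring
    rw [this] at hN
    linarith
  have t0 : N ^ 2 / ((1 - x) * (1 - x) * (1 - x) * (1 - x)) ≤ 1 - 4 * x + 21 * x ^ 2 := by
    rw [div_le_iff₀ (by positivity)]
    have h1 : N ^ 2 ≤ (1 - 4 * x + 10 * x ^ 2) ^ 2 := pow_le_pow_left₀ hN0 hN2 2
    refine h1.trans ?_
    have h2 : (1 - 4 * x + 21 * x ^ 2) * ((1 - x) * (1 - x) * (1 - x) * (1 - x)) -
      (1 - 4 * x + 10 * x ^ 2) ^ 2 =
        x ^ 2 * (7 - 32 * x + 43 * x ^ 2 - 88 * x ^ 3 + 21 * x ^ 4) := by ring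
    have h3 : 0 ≤ 7 - 32 * x + 43 * x ^ 2 - 88 * x ^ 3 + 21 * x ^ 4 := by
      have h4 : 0 ≤ x ^ 2 * (43 - 88 * x) := mul_nonneg (by positivity) (by linarith)
      have h5 : 0 ≤ 21 * x ^ 4 := by positivity
      nlinarith
    have h6 : 0 ≤ x ^ 2 * (7 - 32 * x + 43 * x ^ 2 - 88 * x ^ 3 + 21 * x ^ 4) :=
      mul_nonneg (by positivity) h3
    linarith
  have t1 : K * ((L ^ 3 / L ^ 4) ^ 2 / ((1 / L) * (1 - x) ^ 3)) ≤ x * (1 + 4 * x) := by
    have e : K * ((L ^ 3 / L ^ 4) ^ 2 / ((1 / L) * (1 - x) ^ 3)) = x / (1 - x) ^ 3 := by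
      rw [hx]
      have : (1 - K / L) ≠ 0 := by rw [← hx]; exact hq.ne'
      field_simp
    rw [e, div_le_iff₀ (by positivity), mul_assoc]
    have h2 : 1 ≤ (1 + 4 * x) * (1 - x) ^ 3 := by
      have h3 : (1 + 4 * x) * (1 - x) ^ 3 - 1 = x * (1 - 9 * x + 11 * x ^ 2 - 4 * x ^ 3) := by
        ring
      have h4 : 0 ≤ x ^ 2 * (11 - 4 * x) := mul_nonneg (by positivity) (by linarith)
      have h5 : 0 ≤ x * (1 - 9 * x + 11 * x ^ 2 - 4 * x ^ 3) := by
        apply mul_nonneg hx0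
        nlinarith
      linarith
    nlinarith
  have t2 : K ^ 2 * ((L ^ 2 / L ^ 4) ^ 2 / ((1 / L) ^ 2 * (1 - x) ^ 2)) ≤ 7 / 6 * x ^ 2 := by
    have e : K ^ 2 * ((L ^ 2 / L ^ 4) ^ 2 / ((1 / L) ^ 2 * (1 - x) ^ 2)) =
        x ^ 2 / (1 - x) ^ 2 := by
      rw [hx]
      have : (1 - K / L) ≠ 0 := by rw [← hx]; exact hq.ne'
      field_simp
    rw [e, div_le_iff₀ (by positivity)]
    have h2 : (15 / 16) ^ 2 ≤ (1 - x) ^ 2 := pow_le_pow_left₀ (by norm_num) (by linarith) 2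
    have h3 : 1 ≤ 7 / 6 * (1 - x) ^ 2 := by nlinarith
    have h4 : x ^ 2 * 1 ≤ x ^ 2 * (7 / 6 * (1 - x) ^ 2) :=
      mul_le_mul_of_nonneg_left h3 (by positivity)
    linarith
  have t3 : K ^ 3 * ((L ^ 1 / L ^ 4) ^ 2 / ((1 / L) ^ 3 * (1 - x))) ≤ 5 / 4 * x ^ 3 := by
    have e : K ^ 3 * ((L ^ 1 / L ^ 4) ^ 2 / ((1 / L) ^ 3 * (1 - x))) = x ^ 3 / (1 - x) := by
      rw [hx]
      have : (1 - K / L) ≠ 0 := by rw [← hx]; exact hq.ne'
      field_simp
    rw [e, div_le_iff₀ hq]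
    have h3 : 1 ≤ 5 / 4 * (1 - x) := by linarith
    have h4 : x ^ 3 * 1 ≤ x ^ 3 * (5 / 4 * (1 - x)) :=
      mul_le_mul_of_nonneg_left h3 (by positivity)
    linarith
  have t4 : K ^ 3 * ((L ^ 1 / L ^ 4) ^ 2 / (1 / L) ^ 4) = K ^ 3 / L ^ 2 := by
    field_simp
  have h5 : x ^ 2 ≤ K ^ 3 / L ^ 2 := by
    rw [hx, div_pow]
    exact div_le_div_of_nonneg_right hK2 (by positivity)
  have h6 : x ^ 3 ≤ x ^ 2 * (1 / 16) := by
    rw [pow_succ x 2]
    exact mul_le_mul_of_nonneg_left hx16 (by positivity)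
  rw [t4]
  have h7 : 60 * K ^ 3 / L ^ 2 = 60 * (K ^ 3 / L ^ 2) := by ring
  rw [h7]
  nlinarith

lemma dv {p q D D' : ℝ} (hp : 0 ≤ p) (hpq : p ≤ q) (hD : D = D') (hD' : 0 < D') :
    p ^ 2 / D ≤ q ^ 2 / D' := by
  subst hD
  exact div_le_div_of_nonneg_right (pow_le_pow_left₀ hp hpq 2) hD'.le

lemma t4sum [Fintype κ] {r : κ → ZMod l} (hr : Function.Injective r) (h0 : ∀ k, r k ≠ 0)
    (a b c : κ) :
    ∑ d, P4 r (some a) (some b) (some c) (some d) ^ 2 /
      (P1 r (some a) * P1 r (some b) * P1 r (some c) * P1 r (some d)) ≤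
      ((l : ℝ) ^ 1 / (l : ℝ) ^ 4) ^ 2 / (1 / (l : ℝ)) ^ 4 := by
  classical
  have hl : (0 : ℝ) < l := by
    exact_mod_cast (Fact.out : l.Prime).pos
  set B : ℝ := ((l : ℝ) ^ 1 / (l : ℝ) ^ 4) ^ 2 / (1 / (l : ℝ)) ^ 4 with hB
  have hB0 : 0 ≤ B := by positivity
  calc ∑ d, P4 r (some a) (some b) (some c) (some d) ^ 2 /
      (P1 r (some a) * P1 r (some b) * P1 r (some c) * P1 r (some d))
      ≤ ∑ d, if r a * r d = r b * r c then B else 0 := by
        apply Finset.sum_le_sum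
        intro d _
        by_cases h : r a * r d = r b * r c
        · rw [if_pos h, P1_some hr, P1_some hr, P1_some hr, P1_some hr]
          exact dv (P4_nonneg _ _ _ _ _) (p3abc hr h0 a b c (some d)) (by ring) (by positivity)
        · rw [if_neg h, p4zero hr a b c d h]
          simp
    _ = ((univ.filter (fun d => r a * r d = r b * r c)).card : ℝ) * B := by
        rw [← Finset.sum_filter, Finset.sum_const, nsmul_eq_mul]
    _ ≤ 1 * B := by
        apply mul_le_mul_of_nonneg_right _ hB0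
        have h1 : (univ.filter (fun d => r a * r d = r b * r c)).card ≤ 1 := by
          apply Finset.card_le_one.2
          intro d hd d' hd'
          rw [Finset.mem_filter] at hd hd'
          exact hr (mul_left_cancel₀ (h0 a) (hd.2.trans hd'.2.symm))
        exact_mod_cast h1
    _ = B := one_mul B

end

end Pool.Agent.IPP.CHIx

namespace Pool.Agent.IPP

open Finset CHIx

theorem chi : StmtCHI := by
  intro l _ κ _ r hr h0 hK16
  have hl : (0 : ℝ) < l := by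
    exact_mod_cast (Fact.out : l.Prime).pos
  obtain ⟨K, hKdef⟩ : ∃ K : ℝ, K = (Fintype.card κ : ℝ) := ⟨_, rfl⟩
  obtain ⟨x, hx⟩ : ∃ x : ℝ, x = K / l := ⟨_, rfl⟩
  have hK0 : 0 ≤ K := by rw [hKdef]; positivity
  have hK1 : K ≤ K ^ 2 := by
    rw [hKdef]
    exact_mod_cast Nat.le_self_pow (by norm_num) (Fintype.card κ)
  have hK2 : K ^ 2 ≤ K ^ 3 := by
    have h1 : K * K ≤ K * K ^ 2 := mul_le_mul_of_nonneg_left hK1 hK0
    calc K ^ 2 = K * K := by ring
      _ ≤ K * K ^ 2 := h1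
      _ = K ^ 3 := by ring
  have hx16 : x ≤ 1 / 16 := by
    rw [hx, div_le_iff₀ hl]
    rw [← hKdef] at hK16
    linarith
  have hq : 0 < 1 - x := by linarith
  have hN : P1 r none = 1 - x := by
    rw [P1_none hr, hx, hKdef]
  have hS : ∀ k, P1 r (some k) = 1 / l := fun k => P1_some hr k
  have hL1 : (0 : ℝ) < 1 / l := by positivity
  refine ⟨?_, ?_⟩
  · rintro (_ | k)
    · rw [hN]; exact hq
    · rw [hS]; exact hL1
  · have b0 : P4 r none none none none ^ 2 / (P1 r none * P1 r none * P1 r none * P1 r none) =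
        P4 r none none none none ^ 2 / ((1 - x) * (1 - x) * (1 - x) * (1 - x)) := by
      rw [hN]
    have b1a : ∑ k, P4 r (some k) none none none ^ 2 / (P1 r (some k) * P1 r none * P1 r none *
        P1 r none) ≤ K * (((l : ℝ) ^ 3 / (l : ℝ) ^ 4) ^ 2 / ((1 / (l : ℝ)) * (1 - x) ^ 3)) := by
      rw [hKdef]
      apply s1
      intro k
      rw [hN, hS]
      exact dv (P4_nonneg _ _ _ _ _) (p1a hr h0 k) (by ring) (by positivity)
    have b1b : ∑ k, P4 r none (some k) none none ^ 2 / (P1 r none * P1 r (some k) * P1 r none *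
        P1 r none) ≤ K * (((l : ℝ) ^ 3 / (l : ℝ) ^ 4) ^ 2 / ((1 / (l : ℝ)) * (1 - x) ^ 3)) := by
      rw [hKdef]
      apply s1
      intro k
      rw [hN, hS]
      exact dv (P4_nonneg _ _ _ _ _) (p1b hr h0 k) (by ring) (by positivity)
    have b1c : ∑ k, P4 r none none (some k) none ^ 2 / (P1 r none * P1 r none * P1 r (some k) *
        P1 r none) ≤ K * (((l : ℝ) ^ 3 / (l : ℝ) ^ 4) ^ 2 / ((1 / (l : ℝ)) * (1 - x) ^ 3)) := by
      rw [hKdef]
      apply s1
      intro k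
      rw [hN, hS]
      exact dv (P4_nonneg _ _ _ _ _) (p1c hr h0 k) (by ring) (by positivity)
    have b1d : ∑ k, P4 r none none none (some k) ^ 2 / (P1 r none * P1 r none * P1 r none *
        P1 r (some k)) ≤ K * (((l : ℝ) ^ 3 / (l : ℝ) ^ 4) ^ 2 / ((1 / (l : ℝ)) * (1 - x) ^ 3)) := by
      rw [hKdef]
      apply s1
      intro k
      rw [hN, hS]
      exact dv (P4_nonneg _ _ _ _ _) (p1d hr h0 k) (by ring) (by positivity)
    have b2ab : ∑ k, ∑ k', P4 r (some k) (some k') none none ^ 2 / (P1 r (some k) *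
        P1 r (some k') * P1 r none * P1 r none) ≤
        K ^ 2 * (((l : ℝ) ^ 2 / (l : ℝ) ^ 4) ^ 2 / ((1 / (l : ℝ)) ^ 2 * (1 - x) ^ 2)) := by
      rw [hKdef]
      apply s2
      intro k k'
      rw [hN, hS, hS]
      exact dv (P4_nonneg _ _ _ _ _) (p2ab hr h0 k k') (by ring) (by positivity)
    have b2ac : ∑ k, ∑ k', P4 r (some k) none (some k') none ^ 2 / (P1 r (some k) *
        P1 r none * P1 r (some k') * P1 r none) ≤
        K ^ 2 * (((l : ℝ) ^ 2 / (l : ℝ) ^ 4) ^ 2 / ((1 / (l : ℝ)) ^ 2 * (1 - x) ^ 2)) := by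
      rw [hKdef]
      apply s2
      intro k k'
      rw [hN, hS, hS]
      exact dv (P4_nonneg _ _ _ _ _) (p2ac hr h0 k k') (by ring) (by positivity)
    have b2ad : ∑ k, ∑ k', P4 r (some k) none none (some k') ^ 2 / (P1 r (some k) *
        P1 r none * P1 r none * P1 r (some k')) ≤
        K ^ 2 * (((l : ℝ) ^ 2 / (l : ℝ) ^ 4) ^ 2 / ((1 / (l : ℝ)) ^ 2 * (1 - x) ^ 2)) := by
      rw [hKdef]
      apply s2
      intro k k'
      rw [hN, hS, hS]
      exact dv (P4_nonneg _ _ _ _ _) (p2ad hr h0 k k') (by ring) (by positivity)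
    have b2bc : ∑ k, ∑ k', P4 r none (some k) (some k') none ^ 2 / (P1 r none *
        P1 r (some k) * P1 r (some k') * P1 r none) ≤
        K ^ 2 * (((l : ℝ) ^ 2 / (l : ℝ) ^ 4) ^ 2 / ((1 / (l : ℝ)) ^ 2 * (1 - x) ^ 2)) := by
      rw [hKdef]
      apply s2
      intro k k'
      rw [hN, hS, hS]
      exact dv (P4_nonneg _ _ _ _ _) (p2bc hr h0 k k') (by ring) (by positivity)
    have b2bd : ∑ k, ∑ k', P4 r none (some k) none (some k') ^ 2 / (P1 r none *
        P1 r (some k) * P1 r none * P1 r (some k')) ≤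
        K ^ 2 * (((l : ℝ) ^ 2 / (l : ℝ) ^ 4) ^ 2 / ((1 / (l : ℝ)) ^ 2 * (1 - x) ^ 2)) := by
      rw [hKdef]
      apply s2
      intro k k'
      rw [hN, hS, hS]
      exact dv (P4_nonneg _ _ _ _ _) (p2bd hr h0 k k') (by ring) (by positivity)
    have b2cd : ∑ k, ∑ k', P4 r none none (some k) (some k') ^ 2 / (P1 r none *
        P1 r none * P1 r (some k) * P1 r (some k')) ≤
        K ^ 2 * (((l : ℝ) ^ 2 / (l : ℝ) ^ 4) ^ 2 / ((1 / (l : ℝ)) ^ 2 * (1 - x) ^ 2)) := by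
      rw [hKdef]
      apply s2
      intro k k'
      rw [hN, hS, hS]
      exact dv (P4_nonneg _ _ _ _ _) (p2cd hr h0 k k') (by ring) (by positivity)
    have b3abc : ∑ k, ∑ k', ∑ m, P4 r (some k) (some k') (some m) none ^ 2 / (P1 r (some k) *
        P1 r (some k') * P1 r (some m) * P1 r none) ≤
        K ^ 3 * (((l : ℝ) ^ 1 / (l : ℝ) ^ 4) ^ 2 / ((1 / (l : ℝ)) ^ 3 * (1 - x))) := by
      rw [hKdef]
      apply s3
      intro k k' m
      rw [hN, hS, hS, hS]
      exact dv (P4_nonneg _ _ _ _ _) (p3abc hr h0 k k' m none) (by ring) (by positivity)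
    have b3abd : ∑ k, ∑ k', ∑ m, P4 r (some k) (some k') none (some m) ^ 2 / (P1 r (some k) *
        P1 r (some k') * P1 r none * P1 r (some m)) ≤
        K ^ 3 * (((l : ℝ) ^ 1 / (l : ℝ) ^ 4) ^ 2 / ((1 / (l : ℝ)) ^ 3 * (1 - x))) := by
      rw [hKdef]
      apply s3
      intro k k' m
      rw [hN, hS, hS, hS]
      exact dv (P4_nonneg _ _ _ _ _) (p3abd hr h0 k k' m) (by ring) (by positivity)
    have b3acd : ∑ k, ∑ k', ∑ m, P4 r (some k) none (some k') (some m) ^ 2 / (P1 r (some k) *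
        P1 r none * P1 r (some k') * P1 r (some m)) ≤
        K ^ 3 * (((l : ℝ) ^ 1 / (l : ℝ) ^ 4) ^ 2 / ((1 / (l : ℝ)) ^ 3 * (1 - x))) := by
      rw [hKdef]
      apply s3
      intro k k' m
      rw [hN, hS, hS, hS]
      exact dv (P4_nonneg _ _ _ _ _) (p3acd hr h0 k k' m) (by ring) (by positivity)
    have b3bcd : ∑ k, ∑ k', ∑ m, P4 r none (some k) (some k') (some m) ^ 2 / (P1 r none *
        P1 r (some k) * P1 r (some k') * P1 r (some m)) ≤
        K ^ 3 * (((l : ℝ) ^ 1 / (l : ℝ) ^ 4) ^ 2 / ((1 / (l : ℝ)) ^ 3 * (1 - x))) := by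
      rw [hKdef]
      apply s3
      intro k k' m
      rw [hN, hS, hS, hS]
      exact dv (P4_nonneg _ _ _ _ _) (p3bcd hr h0 k k' m) (by ring) (by positivity)
    have b4 : ∑ a, ∑ b, ∑ c, ∑ d, P4 r (some a) (some b) (some c) (some d) ^ 2 /
        (P1 r (some a) * P1 r (some b) * P1 r (some c) * P1 r (some d)) ≤
        K ^ 3 * (((l : ℝ) ^ 1 / (l : ℝ) ^ 4) ^ 2 / (1 / (l : ℝ)) ^ 4) := by
      rw [hKdef]
      apply s3
      intro a b c
      exact t4sum hr h0 a b c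
    have hf := final x K l hl hK0 hx hx16 hK1 hK2 (P4 r none none none none)
      (P4_nonneg _ _ _ _ _) (by
        have := nohit hr h0
        rw [← hKdef, ← hx] at this
        exact this)
    rw [← hKdef]
    simp only [Fintype.sum_option, Finset.sum_add_distrib]
    rw [b0]
    linarith

end Pool.Agent.IPP
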