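import Mathlib
import Pool.Agent.IPP.Stmts

set_option autoImplicit false

/-!
LP (MP_e1dc24_nt, block P): functions of the hits are equidistributed on primes of a class and an
interval.
-/

namespace Pool.Agent.IPP

open Finset

namespace LPx

theorem mean_sub_const (q : ℕ) (hq : 0 < q) (F : ℕ → ℝ) (c : ℝ) :
    mean q (fun n => F n - c) = mean q F - c := by
  have hq' : (q : ℝ) ≠ 0 := by positivity
  unfold mean
  rw [Finset.sum_sub_distrib, Finset.sum_const, card_range, nsmul_eq_mul, sub_div,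
    mul_div_cancel_left₀ _ hq']

theorem mean_sq_sub (q : ℕ) (hq : 0 < q) (F : ℕ → ℝ) :
    mean q (fun n => (F n - mean q F) ^ 2) ≤ mean q (fun n => F n ^ 2) := by
  have hq' : (q : ℝ) ≠ 0 := by positivity
  have h : mean q (fun n => (F n - mean q F) ^ 2) =
      mean q (fun n => F n ^ 2) - mean q F ^ 2 := by
    set μ := mean q F with hμ
    have hs : ∑ n ∈ range q, F n = μ * q := by
      rw [hμ]; unfold mean; field_simp
    unfold mean
    have : ∑ n ∈ range q, (F n - μ) ^ 2 = ∑ n ∈ range q, F n ^ 2 - μ ^ 2 * q := by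
      have h1 : ∀ n ∈ range q, (F n - μ) ^ 2 = F n ^ 2 - (2 * μ) * F n + μ ^ 2 := fun n _ => by ring
      rw [Finset.sum_congr rfl h1, Finset.sum_add_distrib, Finset.sum_sub_distrib,
        ← Finset.mul_sum, hs, Finset.sum_const, card_range, nsmul_eq_mul]
      ring
    rw [this]
    field_simp
  rw [h]
  nlinarith [sq_nonneg (mean q F)]

theorem mean_nonneg (q : ℕ) (F : ℕ → ℝ) (h : ∀ n, 0 ≤ F n) : 0 ≤ mean q F := by
  unfold mean
  exact div_nonneg (Finset.sum_nonneg fun n _ => h n) (Nat.cast_nonneg _)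

theorem mean_le (q : ℕ) (hq : 0 < q) (F : ℕ → ℝ) (D : ℝ) (h : ∀ n, F n ≤ D) : mean q F ≤ D := by
  have hq' : (0 : ℝ) < q := by positivity
  unfold mean
  rw [div_le_iff₀ hq']
  calc ∑ n ∈ range q, F n ≤ ∑ n ∈ range q, D := Finset.sum_le_sum fun n _ => h n
    _ = D * q := by rw [Finset.sum_const, card_range, nsmul_eq_mul]; ring

theorem abs_mean_le (q : ℕ) (hq : 0 < q) (F : ℕ → ℝ) (D : ℝ) (h : ∀ n, |F n| ≤ D) :
    |mean q F| ≤ D := by
  rw [abs_le]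
  constructor
  · have h1 : mean q (fun n => - F n) ≤ D := mean_le q hq _ D fun n => by
      have := h n
      rw [abs_le] at this
      linarith
    have h2 : mean q (fun n => - F n) = - mean q F := by
      unfold mean
      rw [Finset.sum_neg_distrib, neg_div]
    rw [h2] at h1
    linarith
  · exact mean_le q hq _ D fun n => (le_abs_self _).trans (h n)

theorem harm (n : ℕ) : ∑ t ∈ Ioc 0 n, (1 : ℝ) / t ≤ 1 + Real.log n := by
  have h := harmonic_le_one_add_log n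
  rw [harmonic_eq_sum_Icc] at h
  push_cast at h
  have h2 : Ioc 0 n = Icc 1 n := by
    ext x; simp only [mem_Ioc, mem_Icc]; omega
  rw [h2]
  calc ∑ t ∈ Icc 1 n, (1 : ℝ) / t = ∑ t ∈ Icc 1 n, ((t : ℝ))⁻¹ :=
        Finset.sum_congr rfl fun t _ => one_div _
    _ ≤ _ := h

theorem exp_sub (x : ℝ) (h0 : 0 ≤ x) (h1 : x ≤ 1) : Real.exp x - 1 ≤ 2 * x := by
  have h := Real.abs_exp_sub_one_le (x := x) (by rw [abs_of_nonneg h0]; exact h1)
  rw [abs_of_nonneg h0] at h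
  exact (le_abs_self _).trans h

/-- The numerical part of the Type II bound. -/
theorem t2num (x N A W H y Y Pn U bx D g : ℝ) (hy : 2 ≤ y) (hW1 : 1 ≤ W) (hW : W ≤ y ^ 3)
    (hN1 : y ^ 10 ≤ 4 * N) (hN2 : N ≤ 2 * y ^ 20) (hH0 : 0 ≤ H) (hHX : H ≤ y ^ 30)
    (hU : U = y ^ 30 / N) (hPn : Pn = U * (U / W + 1)) (hY0 : 0 ≤ Y)
    (hY : Y ≤ 8 * N * H / (y ^ 30 * W)) (hbx : bx ≤ g ^ 4) (hg : 0 ≤ g) (hA : 0 ≤ A) (hD : 0 ≤ D)
    (hx : x ^ 4 ≤ N ^ 2 * A ^ 4 * Pn * (4 * Y ^ 2 * W * (U / W + 1) ^ 2 * bx +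
      4 * Y ^ 2 * W * (2 * D) ^ 4 + 2 * (2 * D) ^ 4 * Pn)) :
    x ≤ A * (7 * (Real.sqrt (y ^ 30 * H) / W) * g + 21 * y ^ 25 * D) := by
  have hy0 : 0 < y := by linarith
  have hN0 : 0 < N := by
    have : 0 < y ^ 10 := by positivity
    linarith
  have hW0 : 0 < W := by linarith
  have hU0 : 0 < U := by rw [hU]; positivity
  have hUN : U * N = y ^ 30 := by rw [hU]; field_simp
  have hUW : W ≤ U := by
    rw [hU, le_div_iff₀ hN0]
    calc W * N ≤ y ^ 3 * (2 * y ^ 20) := mul_le_mul hW hN2 hN0.le (by positivity)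
      _ = 2 * y ^ 23 := by ring
      _ ≤ y ^ 7 * y ^ 23 := by
          apply mul_le_mul_of_nonneg_right _ (by positivity)
          calc (2 : ℝ) ≤ 2 ^ 7 := by norm_num
            _ ≤ y ^ 7 := pow_le_pow_left₀ (by norm_num) hy 7
      _ = y ^ 30 := by ring
  have hUW1 : 1 ≤ U / W := by rw [le_div_iff₀ hW0]; linarith
  have hUW2 : U / W + 1 ≤ 2 * (U / W) := by linarith
  have hPn2 : Pn ≤ 2 * U ^ 2 / W := by
    rw [hPn]
    calc U * (U / W + 1) ≤ U * (2 * (U / W)) := mul_le_mul_of_nonneg_left hUW2 hU0.le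
      _ = 2 * U ^ 2 / W := by ring
  have hPn0 : 0 ≤ Pn := by rw [hPn]; positivity
  set Y1 := 8 * N * H / (y ^ 30 * W) with hY1
  have hY10 : 0 ≤ Y1 := by positivity
  have hYsq : Y ^ 2 ≤ Y1 ^ 2 := pow_le_pow_left₀ hY0 hY 2
  have hg4 : 0 ≤ g ^ 4 := by positivity
  have hbr : 4 * Y ^ 2 * W * (U / W + 1) ^ 2 * bx + 4 * Y ^ 2 * W * (2 * D) ^ 4 +
      2 * (2 * D) ^ 4 * Pn ≤ 4 * Y1 ^ 2 * W * (2 * (U / W)) ^ 2 * g ^ 4 +
      4 * Y1 ^ 2 * W * (2 * D) ^ 4 + 2 * (2 * D) ^ 4 * (2 * U ^ 2 / W) := by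
    have h1 : 4 * Y ^ 2 * W * (U / W + 1) ^ 2 * bx ≤
        4 * Y1 ^ 2 * W * (2 * (U / W)) ^ 2 * g ^ 4 := by
      calc 4 * Y ^ 2 * W * (U / W + 1) ^ 2 * bx ≤ 4 * Y ^ 2 * W * (U / W + 1) ^ 2 * g ^ 4 :=
            mul_le_mul_of_nonneg_left hbx (by positivity)
        _ ≤ 4 * Y1 ^ 2 * W * (2 * (U / W)) ^ 2 * g ^ 4 := by
            apply mul_le_mul_of_nonneg_right _ hg4
            apply mul_le_mul _ _ (by positivity) (by positivity)
            · apply mul_le_mul_of_nonneg_right _ hW0.le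
              linarith
            · exact pow_le_pow_left₀ (by positivity) hUW2 2
    have h2 : 4 * Y ^ 2 * W * (2 * D) ^ 4 ≤ 4 * Y1 ^ 2 * W * (2 * D) ^ 4 := by
      apply mul_le_mul_of_nonneg_right _ (by positivity)
      apply mul_le_mul_of_nonneg_right _ hW0.le
      linarith
    have h3 : 2 * (2 * D) ^ 4 * Pn ≤ 2 * (2 * D) ^ 4 * (2 * U ^ 2 / W) :=
      mul_le_mul_of_nonneg_left hPn2 (by positivity)
    linarith
  have hx2 : x ^ 4 ≤ N ^ 2 * A ^ 4 * (2 * U ^ 2 / W) *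
      (4 * Y1 ^ 2 * W * (2 * (U / W)) ^ 2 * g ^ 4 +
      4 * Y1 ^ 2 * W * (2 * D) ^ 4 + 2 * (2 * D) ^ 4 * (2 * U ^ 2 / W)) := by
    refine hx.trans ?_
    calc N ^ 2 * A ^ 4 * Pn * (4 * Y ^ 2 * W * (U / W + 1) ^ 2 * bx +
          4 * Y ^ 2 * W * (2 * D) ^ 4 + 2 * (2 * D) ^ 4 * Pn)
        ≤ N ^ 2 * A ^ 4 * Pn * (4 * Y1 ^ 2 * W * (2 * (U / W)) ^ 2 * g ^ 4 +
          4 * Y1 ^ 2 * W * (2 * D) ^ 4 + 2 * (2 * D) ^ 4 * (2 * U ^ 2 / W)) :=
          mul_le_mul_of_nonneg_left hbr (by positivity)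
      _ ≤ _ := by
          apply mul_le_mul_of_nonneg_right _ (by positivity)
          exact mul_le_mul_of_nonneg_left hPn2 (by positivity)
  -- the three terms
  have e1 : N ^ 2 * A ^ 4 * (2 * U ^ 2 / W) * (4 * Y1 ^ 2 * W * (2 * (U / W)) ^ 2 * g ^ 4) =
      2048 * (A ^ 4 * ((y ^ 30 * H) ^ 2 / W ^ 4) * g ^ 4) := by
    have : Y1 * (y ^ 30 * W) = 8 * N * H := by
      rw [hY1]; field_simp
    rw [hY1, hU]
    field_simp
    ring
  have e2 : N ^ 2 * A ^ 4 * (2 * U ^ 2 / W) * (4 * Y1 ^ 2 * W * (2 * D) ^ 4) =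
      8192 * (A ^ 4 * (N ^ 2 * H ^ 2 / W ^ 2) * D ^ 4) := by
    rw [hY1, hU]
    field_simp
    ring
  have e3 : N ^ 2 * A ^ 4 * (2 * U ^ 2 / W) * (2 * (2 * D) ^ 4 * (2 * U ^ 2 / W)) =
      128 * (A ^ 4 * ((y ^ 30) ^ 4 / (N ^ 2 * W ^ 2)) * D ^ 4) := by
    rw [hU]
    field_simp
    ring
  have b2 : N ^ 2 * H ^ 2 / W ^ 2 ≤ 4 * (y ^ 25) ^ 4 := by
    rw [div_le_iff₀ (by positivity)]
    have hN2' : N ^ 2 ≤ (2 * y ^ 20) ^ 2 := pow_le_pow_left₀ hN0.le hN2 2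
    have hH2' : H ^ 2 ≤ (y ^ 30) ^ 2 := pow_le_pow_left₀ hH0 hHX 2
    calc N ^ 2 * H ^ 2 ≤ (2 * y ^ 20) ^ 2 * (y ^ 30) ^ 2 :=
          mul_le_mul hN2' hH2' (by positivity) (by positivity)
      _ = 4 * (y ^ 25) ^ 4 * 1 := by ring
      _ ≤ 4 * (y ^ 25) ^ 4 * W ^ 2 :=
          mul_le_mul_of_nonneg_left (one_le_pow₀ hW1) (by positivity)
  have b3 : (y ^ 30) ^ 4 / (N ^ 2 * W ^ 2) ≤ 16 * (y ^ 25) ^ 4 := by
    rw [div_le_iff₀ (by positivity)]
    have hN1' : (y ^ 10) ^ 2 ≤ (4 * N) ^ 2 := pow_le_pow_left₀ (by positivity) hN1 2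
    calc (y ^ 30) ^ 4 = (y ^ 25) ^ 4 * (y ^ 10) ^ 2 * 1 := by ring
      _ ≤ (y ^ 25) ^ 4 * (4 * N) ^ 2 * W ^ 2 := by
          apply mul_le_mul _ (one_le_pow₀ hW1) (by positivity) (by positivity)
          exact mul_le_mul_of_nonneg_left hN1' (by positivity)
      _ = 16 * (y ^ 25) ^ 4 * (N ^ 2 * W ^ 2) := by ring
  have hs : Real.sqrt (y ^ 30 * H) ^ 4 = (y ^ 30 * H) ^ 2 := by
    have : Real.sqrt (y ^ 30 * H) ^ 2 = y ^ 30 * H := Real.sq_sqrt (by positivity)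
    calc Real.sqrt (y ^ 30 * H) ^ 4 = (Real.sqrt (y ^ 30 * H) ^ 2) ^ 2 := by ring
      _ = _ := by rw [this]
  set P := A * (Real.sqrt (y ^ 30 * H) / W) * g with hP
  set S := A * y ^ 25 * D with hS
  have hP0 : 0 ≤ P := by positivity
  have hS0 : 0 ≤ S := by positivity
  have hP4 : P ^ 4 = A ^ 4 * ((y ^ 30 * H) ^ 2 / W ^ 4) * g ^ 4 := by
    rw [hP, ← hs]
    ring
  have hS4 : S ^ 4 = A ^ 4 * (y ^ 25) ^ 4 * D ^ 4 := by
    rw [hS]; ring
  have hfin : x ^ 4 ≤ (7 * P + 21 * S) ^ 4 := by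
    have i1 : 8192 * (A ^ 4 * (N ^ 2 * H ^ 2 / W ^ 2) * D ^ 4) ≤ 32768 * S ^ 4 := by
      rw [hS4]
      calc 8192 * (A ^ 4 * (N ^ 2 * H ^ 2 / W ^ 2) * D ^ 4)
          ≤ 8192 * (A ^ 4 * (4 * (y ^ 25) ^ 4) * D ^ 4) := by
            apply mul_le_mul_of_nonneg_left _ (by norm_num)
            apply mul_le_mul_of_nonneg_right _ (by positivity)
            exact mul_le_mul_of_nonneg_left b2 (by positivity)
        _ = _ := by ring
    have i2 : 128 * (A ^ 4 * ((y ^ 30) ^ 4 / (N ^ 2 * W ^ 2)) * D ^ 4) ≤ 2048 * S ^ 4 := by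
      rw [hS4]
      calc 128 * (A ^ 4 * ((y ^ 30) ^ 4 / (N ^ 2 * W ^ 2)) * D ^ 4)
          ≤ 128 * (A ^ 4 * (16 * (y ^ 25) ^ 4) * D ^ 4) := by
            apply mul_le_mul_of_nonneg_left _ (by norm_num)
            apply mul_le_mul_of_nonneg_right _ (by positivity)
            exact mul_le_mul_of_nonneg_left b3 (by positivity)
        _ = _ := by ring
    have i3 : x ^ 4 ≤ 2048 * P ^ 4 + 32768 * S ^ 4 + 2048 * S ^ 4 := by
      rw [mul_add, mul_add, e1, e2, e3, ← hP4] at hx2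
      linarith
    have i4 : (7 * P) ^ 4 + (21 * S) ^ 4 ≤ (7 * P + 21 * S) ^ 4 := by
      have h1 : 0 ≤ 7 * P := by positivity
      have h2 : 0 ≤ 21 * S := by positivity
      generalize 7 * P = a at *
      generalize 21 * S = b at *
      have : (a + b) ^ 4 = a ^ 4 + b ^ 4 + (4 * a ^ 3 * b + 6 * a ^ 2 * b ^ 2 + 4 * a * b ^ 3) := by
        ring
      rw [this]
      have : 0 ≤ 4 * a ^ 3 * b + 6 * a ^ 2 * b ^ 2 + 4 * a * b ^ 3 := by positivity
      linarith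
    have i5 : 0 ≤ P ^ 4 := by positivity
    have i6 : 0 ≤ S ^ 4 := by positivity
    have i7 : (7 * P) ^ 4 + (21 * S) ^ 4 = 2401 * P ^ 4 + 194481 * S ^ 4 := by ring
    linarith
  have hle : x ≤ 7 * P + 21 * S := by
    have h0 : 0 ≤ 7 * P + 21 * S := by positivity
    exact le_of_pow_le_pow_left₀ (by norm_num) h0 hfin
  calc x ≤ 7 * P + 21 * S := hle
    _ = _ := by rw [hP, hS]; ring

theorem rp (X : ℝ) (hX : 0 ≤ X) (k : ℕ) (e : ℝ) (he : e = (k : ℝ) / 30) :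
    X ^ e = (X ^ (1 / 30 : ℝ)) ^ k := by
  rw [← Real.rpow_natCast, ← Real.rpow_mul hX, he]
  congr 1
  ring

theorem sqrt_theta (x θ : ℝ) (hθ : 0 ≤ θ) (hx : x ≤ 1 / 4) (hxθ : x ≤ θ ^ 8) :
    Real.sqrt (8 * x) ≤ 3 * θ := by
  apply Real.sqrt_le_iff.mpr
  refine ⟨by positivity, ?_⟩
  rcases le_total 1 θ with h | h
  · nlinarith
  · have h8 : θ ^ 8 ≤ θ ^ 2 := pow_le_pow_of_le_one hθ h (by norm_num)
    nlinarith [sq_nonneg θ]

/-- The numerical part of the final bound. -/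
theorem finnum (A G J Sg HR VR VD B : ℝ) (hA : 1 ≤ A) (hG : 0 ≤ G) (hJ : 0 ≤ J)
    (hSg : Sg ≤ 2 * A) (hSg0 : 0 ≤ Sg) (hHR : HR ≤ 3 * G) (hVR : VR ≤ 4 * J)
    (hVD : VD ≤ 2 * J) (hB : B ≤ A * (14 * G + 21 * J)) :
    3 * A * (HR * Sg + VR + VD) + (2 * A + 1) * B ≤ 2 ^ 30 * A ^ 4 * (G + J) := by
  have hA0 : 0 ≤ A := by linarith
  have h1 : HR * Sg ≤ 3 * G * (2 * A) := mul_le_mul hHR hSg hSg0 (by positivity)
  have h2 : 3 * A * (HR * Sg + VR + VD) ≤ 3 * A * (3 * G * (2 * A) + 4 * J + 2 * J) := by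
    apply mul_le_mul_of_nonneg_left _ (by positivity)
    linarith
  have h3 : (2 * A + 1) * B ≤ (3 * A) * (A * (14 * G + 21 * J)) := by
    calc (2 * A + 1) * B ≤ (2 * A + 1) * (A * (14 * G + 21 * J)) :=
          mul_le_mul_of_nonneg_left hB (by positivity)
      _ ≤ (3 * A) * (A * (14 * G + 21 * J)) :=
          mul_le_mul_of_nonneg_right (by linarith) (by positivity)
  have h4 : A ^ 2 * G ≤ A ^ 4 * G :=
    mul_le_mul_of_nonneg_right (pow_le_pow_right₀ hA (by norm_num)) hG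
  have h5 : A ^ 2 * J ≤ A ^ 4 * J :=
    mul_le_mul_of_nonneg_right (pow_le_pow_right₀ hA (by norm_num)) hJ
  have h6 : A * J ≤ A ^ 4 * J := by
    apply mul_le_mul_of_nonneg_right _ hJ
    calc A = A ^ 1 := (pow_one A).symm
      _ ≤ A ^ 4 := pow_le_pow_right₀ hA (by norm_num)
  have h7 : 0 ≤ A ^ 4 * G := by positivity
  have h8 : 0 ≤ A ^ 4 * J := by positivity
  calc 3 * A * (HR * Sg + VR + VD) + (2 * A + 1) * B
      ≤ 3 * A * (3 * G * (2 * A) + 4 * J + 2 * J) + (3 * A) * (A * (14 * G + 21 * J)) :=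
        add_le_add h2 h3
    _ = 60 * (A ^ 2 * G) + 63 * (A ^ 2 * J) + 18 * (A * J) := by ring
    _ ≤ 60 * (A ^ 4 * G) + 63 * (A ^ 4 * J) + 18 * (A ^ 4 * J) := by linarith
    _ ≤ 2 ^ 30 * A ^ 4 * (G + J) := by nlinarith

end LPx

open LPx in
theorem lp : StmtBOX → StmtLEV → StmtT1 → StmtT2 → StmtVAU → StmtLP := by
  intro hBOX hLEV hT1 hT2 hVAU
  refine ⟨2 ^ 30, by positivity, ?_⟩
  intro Q κ _ ρ F z D W s X₁ X₂ hHits hFac hLev hD hzW hz1 hzK hzK3 hzL hW1 hsW hX hX12 hX2 hHX hWX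
  obtain ⟨lconst, -, -, -, lbd, -, -⟩ := hLEV Q hHits.prime
  have hq0 : 0 < pr Q := Finset.prod_pos fun l hl => (hHits.prime l hl).pos
  have hz0 : 0 < z := by linarith
  set μ := mean (pr Q) F with hμ
  set F0 : ℕ → ℝ := fun n => F n - μ with hF0
  have hbF : ∀ n, |F n| ≤ D := (lbd D F hLev).2.1
  have hD0 : 0 ≤ D := by linarith
  have hμD : |μ| ≤ D := abs_mean_le (pr Q) hq0 F D hbF
  have hLev0 : Lev Q (2 * D) F0 := by
    have h1 := Lev.add hLev (lconst (-μ))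
    have h2 : (fun n => F n + -μ) = F0 := by funext n; simp [hF0, sub_eq_add_neg]
    rw [h2] at h1
    exact Lev.mono h1 (by rw [abs_neg]; linarith)
  have hFac0 : Fac Q ρ F0 := fun n n' h => by simp only [hF0]; rw [hFac n n' h]
  have hmean0 : mean (pr Q) F0 = 0 := by
    rw [hF0, mean_sub_const (pr Q) hq0]; exact sub_self _
  set E := mean (pr Q) (fun n => F n ^ 2) with hE
  set E0 := mean (pr Q) (fun n => F0 n ^ 2) with hE0
  have hE00 : 0 ≤ E0 := mean_nonneg _ _ fun n => sq_nonneg _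
  have hE0E : E0 ≤ E := mean_sq_sub (pr Q) hq0 F
  have hEn : 0 ≤ E := hE00.trans hE0E
  have hED : E ≤ D ^ 2 := mean_le (pr Q) hq0 _ _ fun n => by
    rw [← sq_abs]; exact pow_le_pow_left₀ (abs_nonneg _) (hbF n) 2
  have hsED : Real.sqrt E ≤ D := Real.sqrt_le_iff.mpr ⟨hD0, hED⟩
  -- the size parameters
  set X : ℝ := (X₂ : ℝ) with hXdef
  set A : ℝ := Real.log X with hA
  set K : ℝ := (Fintype.card κ : ℝ) with hK
  set y : ℝ := X ^ (1 / 30 : ℝ) with hy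
  have hXpos : 0 < X := lt_of_lt_of_le (by positivity) hX
  have hy0 : 0 < y := Real.rpow_pos_of_pos hXpos _
  have hy30 : y ^ 30 = X := by
    have := rp X hXpos.le 30 1 (by norm_num)
    rw [Real.rpow_one] at this
    exact this.symm
  have hy2 : 2 ≤ y := by
    apply le_of_pow_le_pow_left₀ (n := 30) (by norm_num) hy0.le
    rw [hy30]; exact hX
  have hy27 : X ^ (9 / 10 : ℝ) = y ^ 27 := rp X hXpos.le 27 _ (by norm_num)
  have hy3 : X ^ (1 / 10 : ℝ) = y ^ 3 := rp X hXpos.le 3 _ (by norm_num)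
  have hy25 : X ^ (5 / 6 : ℝ) = y ^ 25 := rp X hXpos.le 25 _ (by norm_num)
  set H : ℝ := X - (X₁ : ℝ) with hH
  have hX1X : (X₁ : ℝ) < X := by rw [hXdef]; exact_mod_cast hX12
  have hX1X2 : X ≤ 2 * (X₁ : ℝ) := by rw [hXdef]; exact_mod_cast hX2
  have hX1pos : (0 : ℝ) < X₁ := by linarith
  have hX1nat : 1 ≤ X₁ := by exact_mod_cast hX1pos
  have hH0 : 0 < H := by rw [hH]; linarith
  have hHX' : H ≤ X := by rw [hH]; linarith
  rw [hy27] at hHX
  rw [hy3] at hWX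
  have hWr : (1 : ℝ) ≤ W := by exact_mod_cast hW1
  have hWr0 : (0 : ℝ) < W := by linarith
  have hA1 : 1 ≤ A := by
    rw [hA, Real.le_log_iff_exp_le hXpos]
    have := Real.exp_one_lt_d9
    linarith
  have hA0 : 0 ≤ A := by linarith
  have hK0 : 0 ≤ K := Nat.cast_nonneg _
  have hKK2 : K ≤ K ^ 2 := by
    rw [hK]; exact_mod_cast Nat.le_self_pow (by norm_num) _
  have hKK3 : K ≤ K ^ 3 := by
    rw [hK]; exact_mod_cast Nat.le_self_pow (by norm_num) _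
  have hK2 : 2 * K ≤ z := by nlinarith
  -- V
  set V : ℕ := ⌊y ^ 10⌋₊ with hV
  have hy10 : (1 : ℝ) ≤ y ^ 10 := one_le_pow₀ (by linarith)
  have hV1 : 1 ≤ V := Nat.le_floor (by exact_mod_cast hy10)
  have hVle : (V : ℝ) ≤ y ^ 10 := Nat.floor_le (by positivity)
  have hVlt : y ^ 10 < (V : ℝ) + 1 := Nat.lt_floor_add_one _
  have hVr1 : (1 : ℝ) ≤ V := by exact_mod_cast hV1
  have hVhalf : y ^ 10 ≤ 2 * V := by linarith
  have hVsq : ((V : ℝ)) ^ 2 ≤ y ^ 20 := by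
    calc (V : ℝ) ^ 2 ≤ (y ^ 10) ^ 2 := pow_le_pow_left₀ (by positivity) hVle 2
      _ = y ^ 20 := by ring
  have hy20X : y ^ 20 ≤ X := by
    rw [← hy30]; exact pow_le_pow_right₀ (by linarith) (by norm_num)
  have hV2 : V ^ 2 ≤ X₂ := by
    have : ((V ^ 2 : ℕ) : ℝ) ≤ (X₂ : ℝ) := by push_cast; linarith
    exact_mod_cast this
  have hVX1 : V ≤ X₁ := by
    have h1 : 2 * y ^ 10 ≤ X := by
      rw [← hy30]
      calc 2 * y ^ 10 ≤ y ^ 20 * y ^ 10 := by
            apply mul_le_mul_of_nonneg_right _ (by positivity)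
            calc (2 : ℝ) ≤ 2 ^ 20 := by norm_num
              _ ≤ y ^ 20 := pow_le_pow_left₀ (by norm_num) hy2 20
        _ = y ^ 30 := by ring
    have : (V : ℝ) ≤ (X₁ : ℝ) := by linarith
    exact_mod_cast this
  -- theta
  set θ : ℝ := (K ^ 3 * A / z) ^ (1 / 8 : ℝ) with hθ
  have hθ0 : 0 ≤ θ := by positivity
  have hθ8 : θ ^ 8 = K ^ 3 * A / z := by
    rw [hθ, ← Real.rpow_natCast, ← Real.rpow_mul (by positivity)]
    norm_num
  have hxq : K * A / z ≤ 1 / 4 := by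
    rw [div_le_iff₀ hz0]; linarith
  have hxθ : K * A / z ≤ θ ^ 8 := by
    rw [hθ8]
    apply div_le_div_of_nonneg_right _ hz0.le
    exact mul_le_mul_of_nonneg_right hKK3 hA0
  set R : ℝ := Real.sqrt E * Real.sqrt (8 * (K * A / z)) with hR
  have hR0 : 0 ≤ R := by positivity
  have hR3 : R ≤ 3 * (θ * Real.sqrt E) := by
    rw [hR]
    calc Real.sqrt E * Real.sqrt (8 * (K * A / z)) ≤ Real.sqrt E * (3 * θ) :=
          mul_le_mul_of_nonneg_left (sqrt_theta _ _ hθ0 hxq hxθ) (Real.sqrt_nonneg _)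
      _ = _ := by ring
  have hR2 : R ≤ 2 * D := by
    have h1 : Real.sqrt (8 * (K * A / z)) ≤ 2 := by
      apply Real.sqrt_le_iff.mpr
      constructor
      · norm_num
      · linarith
    calc R ≤ D * 2 := by
          rw [hR]; exact mul_le_mul hsED h1 (Real.sqrt_nonneg _) hD0
      _ = 2 * D := by ring
  -- the weight
  set w : ℕ → ℝ := fun n => if n % W = s % W then F0 n else 0 with hw
  set T : ℕ → ℝ := fun t => (H / (t * W) + 2) * R + 2 * D with hT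
  have hTI : ∀ t : ℕ, 1 ≤ t → t ≤ V ^ 2 → ∀ Y₁ Y₂ : ℕ, X₁ / t ≤ Y₁ → Y₁ ≤ Y₂ → Y₂ ≤ X₂ / t →
      |∑ k ∈ Ioc Y₁ Y₂, w (t * k)| ≤ T t := by
    intro t ht1 htV Y₁ Y₂ hY1 hY12 hY2
    have hsum : ∑ k ∈ Ioc Y₁ Y₂, w (t * k) =
        ∑ n ∈ (Ioc Y₁ Y₂).filter (fun n => (t * n) % W = s % W), F0 (t * n) := by
      rw [Finset.sum_filter]
    rw [hsum]
    have h := hT1 Q κ ρ F0 z (2 * D) W s t Y₁ Y₂ hHits hFac0 hLev0 hzW hz1 hK2 hmean0 hW1 hsW
      ht1 hY12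
    refine h.trans ?_
    have htr : (1 : ℝ) ≤ t := by exact_mod_cast ht1
    have htr0 : (0 : ℝ) < t := by linarith
    have hlogt : Real.log t ≤ A := by
      rw [hA]
      apply Real.log_le_log htr0
      have : (t : ℝ) ≤ ((V ^ 2 : ℕ) : ℝ) := by exact_mod_cast htV
      have h2 : ((V ^ 2 : ℕ) : ℝ) ≤ (X₂ : ℝ) := by exact_mod_cast hV2
      exact this.trans h2
    have hlogt0 : 0 ≤ Real.log t := Real.log_nonneg htr
    have hu0 : 0 ≤ 4 * K * Real.log t / z := by positivity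
    have huA : 4 * K * Real.log t / z ≤ 4 * (K * A / z) := by
      have : 4 * K * Real.log t ≤ 4 * (K * A) := by nlinarith
      calc 4 * K * Real.log t / z ≤ 4 * (K * A) / z := div_le_div_of_nonneg_right this hz0.le
        _ = _ := by ring
    have hu1 : 4 * K * Real.log t / z ≤ 1 := by linarith
    have hexp : Real.exp (4 * K * Real.log t / z) - 1 ≤ 8 * (K * A / z) := by
      have := exp_sub _ hu0 hu1
      linarith
    have hprod : Real.sqrt (mean (pr Q) fun n => F0 n ^ 2) *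
        Real.sqrt (Real.exp (4 * (Fintype.card κ : ℝ) * Real.log t / z) - 1) ≤ R := by
      rw [hR]
      exact mul_le_mul (Real.sqrt_le_sqrt hE0E) (Real.sqrt_le_sqrt hexp) (Real.sqrt_nonneg _)
        (Real.sqrt_nonneg _)
    have hYY : ((Y₂ : ℝ) - Y₁) / W + 1 ≤ H / (t * W) + 2 := by
      have h1 : (Y₂ : ℝ) ≤ X / t := by
        have : (Y₂ : ℝ) ≤ ((X₂ / t : ℕ) : ℝ) := by exact_mod_cast hY2
        exact this.trans Nat.cast_div_le
      have h2 : (X₁ : ℝ) / t ≤ Y₁ + 1 := by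
        rw [div_le_iff₀ htr0]
        have h3 : X₁ < (X₁ / t + 1) * t := by
          have := Nat.lt_div_mul_add (a := X₁) (b := t) (by omega)
          calc X₁ < X₁ / t * t + t := this
            _ = (X₁ / t + 1) * t := by ring
        have h4 : X₁ ≤ (Y₁ + 1) * t := by
          refine h3.le.trans ?_
          exact Nat.mul_le_mul_right _ (by omega)
        exact_mod_cast h4
      have h3 : (Y₂ : ℝ) - Y₁ ≤ H / t + 1 := by
        rw [hH, sub_div]; linarith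
      have h4 : ((Y₂ : ℝ) - Y₁) / W ≤ H / (t * W) + 1 := by
        calc ((Y₂ : ℝ) - Y₁) / W ≤ (H / t + 1) / W := div_le_div_of_nonneg_right h3 hWr0.le
          _ = H / (t * W) + 1 / W := by field_simp
          _ ≤ H / (t * W) + 1 := by
              have : 1 / (W : ℝ) ≤ 1 := by rw [div_le_one hWr0]; exact hWr
              linarith
      linarith
    have hYY0 : 0 ≤ ((Y₂ : ℝ) - Y₁) / W + 1 := by
      have : (Y₁ : ℝ) ≤ Y₂ := by exact_mod_cast hY12
      have : 0 ≤ ((Y₂ : ℝ) - Y₁) / W := div_nonneg (by linarith) hWr0.le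
      linarith
    have hfin : (((Y₂ : ℝ) - Y₁) / W + 1) * (Real.sqrt (mean (pr Q) fun n => F0 n ^ 2) *
        Real.sqrt (Real.exp (4 * (Fintype.card κ : ℝ) * Real.log t / z) - 1)) ≤
        (H / (t * W) + 2) * R :=
      mul_le_mul hYY hprod (by positivity) (by positivity)
    simp only [hT]
    linarith
  set B : ℝ := A * (7 * (Real.sqrt (y ^ 30 * H) / W) * (2 * θ * Real.sqrt E) +
    21 * y ^ 25 * D) with hB
  have hTII : ∀ N : ℕ, V < 2 * N → N * V ≤ X₂ → ∀ α β : ℕ → ℝ, (∀ v, |α v| ≤ 1) →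
      (∀ u ≤ X₂, |β u| ≤ Real.log X₂) →
      |∑ v ∈ Ico N (2 * N), α v * ∑ u ∈ Ioc (X₁ / v) (X₂ / v), β u * w (u * v)| ≤ B := by
    intro N hVN hNV α β hα hβ
    have hsum : ∑ v ∈ Ico N (2 * N), α v * ∑ u ∈ Ioc (X₁ / v) (X₂ / v), β u * w (u * v) =
        ∑ v ∈ Ico N (2 * N), α v *
          ∑ u ∈ (Ioc (X₁ / v) (X₂ / v)).filter (fun u => (u * v) % W = s % W),
            β u * F0 (u * v) := by
      refine Finset.sum_congr rfl fun v _ => ?_
      congr 1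
      rw [Finset.sum_filter]
      refine Finset.sum_congr rfl fun u _ => ?_
      simp only [hw]
      split_ifs <;> simp
    rw [hsum]
    have hN1 : 1 ≤ N := by omega
    have hNr1 : (1 : ℝ) ≤ N := by exact_mod_cast hN1
    have hNr0 : (0 : ℝ) < N := by linarith
    have h := hT2 Q F0 (2 * D) A W s N X₁ X₂ α β (fun l hl => ⟨hHits.prime l hl, (hzW l hl).2⟩)
      hLev0 (by linarith) hA0 hα hβ hW1 hsW hN1 hX1nat hX12.le _ _ _ rfl rfl rfl
    have hbox := hBOX Q κ ρ F0 z hHits hFac0 (fun l hl => (hzW l hl).1) hz1 hzK hmean0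
    -- bounds for N
    have hN4 : y ^ 10 ≤ 4 * (N : ℝ) := by
      have : (V : ℝ) < 2 * N := by exact_mod_cast hVN
      linarith
    have hN20 : (N : ℝ) ≤ 2 * y ^ 20 := by
      have h1 : (N : ℝ) * V ≤ X := by rw [hXdef]; exact_mod_cast hNV
      have h2 : (N : ℝ) * y ^ 10 ≤ 2 * y ^ 20 * y ^ 10 := by
        calc (N : ℝ) * y ^ 10 ≤ N * (2 * V) := mul_le_mul_of_nonneg_left hVhalf hNr0.le
          _ = 2 * (N * V) := by ring
          _ ≤ 2 * X := by linarith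
          _ = 2 * y ^ 20 * y ^ 10 := by rw [← hy30]; ring
      exact le_of_mul_le_mul_right h2 (by positivity)
    have hY : 2 * (N : ℝ) * (X - X₁) / (X₁ * W) + 2 ≤ 8 * N * H / (y ^ 30 * W) := by
      have h1 : 2 * (N : ℝ) * (X - X₁) / (X₁ * W) ≤ 4 * N * H / (y ^ 30 * W) := by
        rw [hy30, div_le_div_iff₀ (by positivity) (by positivity), ← hH]
        calc 2 * (N : ℝ) * H * (X * W) = (2 * N * H * W) * X := by ring
          _ ≤ (2 * N * H * W) * (2 * X₁) := mul_le_mul_of_nonneg_left hX1X2 (by positivity)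
          _ = 4 * N * H * (X₁ * W) := by ring
      have h2 : 2 ≤ 4 * (N : ℝ) * H / (y ^ 30 * W) := by
        rw [le_div_iff₀ (by positivity)]
        calc 2 * (y ^ 30 * (W : ℝ)) ≤ 2 * (y ^ 30 * y ^ 3) := by
              apply mul_le_mul_of_nonneg_left _ (by norm_num)
              exact mul_le_mul_of_nonneg_left hWX (by positivity)
          _ = 2 * y ^ 33 := by ring
          _ ≤ y ^ 4 * y ^ 33 := by
              apply mul_le_mul_of_nonneg_right _ (by positivity)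
              calc (2 : ℝ) ≤ 2 ^ 4 := by norm_num
                _ ≤ y ^ 4 := pow_le_pow_left₀ (by norm_num) hy2 4
          _ = y ^ 10 * y ^ 27 := by ring
          _ ≤ 4 * N * H := mul_le_mul hN4 hHX (by positivity) (by positivity)
      calc 2 * (N : ℝ) * (X - X₁) / (X₁ * W) + 2 ≤
            4 * N * H / (y ^ 30 * W) + 4 * N * H / (y ^ 30 * W) := add_le_add h1 h2
        _ = 8 * N * H / (y ^ 30 * W) := by ring
    have hY0 : 0 ≤ 2 * (N : ℝ) * (X - X₁) / (X₁ * W) + 2 := by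
      have : 0 ≤ X - X₁ := by linarith
      positivity
    have hg4 : box (pr Q) F0 ≤ (2 * θ * Real.sqrt E) ^ 4 := by
      refine hbox.trans ?_
      have hu0 : 0 ≤ 120 * K ^ 3 / z := by positivity
      have hu1 : 120 * K ^ 3 / z ≤ 1 := by rw [div_le_one hz0]; exact hzK3
      have h1 : Real.exp (120 * K ^ 3 / z) - 1 ≤ (16 * θ ^ 4) ^ 2 := by
        have h2 := exp_sub _ hu0 hu1
        have h3 : (16 * θ ^ 4) ^ 2 = 256 * (K ^ 3 * A / z) := by rw [← hθ8]; ring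
        rw [h3]
        have h4 : K ^ 3 / z ≤ K ^ 3 * A / z := by
          apply div_le_div_of_nonneg_right _ hz0.le
          nlinarith [pow_nonneg hK0 3]
        have h5 : 0 ≤ K ^ 3 / z := by positivity
        have h6 : 120 * K ^ 3 / z = 120 * (K ^ 3 / z) := by ring
        rw [h6] at h2 ⊢
        linarith
      have h2 : Real.sqrt (Real.exp (120 * K ^ 3 / z) - 1) ≤ 16 * θ ^ 4 :=
        Real.sqrt_le_iff.mpr ⟨by positivity, h1⟩
      have h3 : E0 ^ 2 ≤ E ^ 2 := pow_le_pow_left₀ hE00 hE0E 2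
      have h4 : (Real.sqrt E) ^ 4 = E ^ 2 := by
        calc (Real.sqrt E) ^ 4 = ((Real.sqrt E) ^ 2) ^ 2 := by ring
          _ = E ^ 2 := by rw [Real.sq_sqrt hEn]
      calc Real.sqrt (Real.exp (120 * K ^ 3 / z) - 1) * E0 ^ 2 ≤ 16 * θ ^ 4 * E ^ 2 :=
            mul_le_mul h2 h3 (by positivity) (by positivity)
        _ = (2 * θ * Real.sqrt E) ^ 4 := by rw [← h4]; ring
    have hxx := t2num _ (N : ℝ) A (W : ℝ) H y _ _ _ (box (pr Q) F0) D (2 * θ * Real.sqrt E) hy2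
      hWr hWX hN4 hN20 hH0.le (by rw [hy30]; exact hHX') (by rw [hy30]) rfl hY0 hY hg4
      (by positivity) hA0 hD0 h
    exact hxx
  have hmain := hVAU V X₁ X₂ w T B hV1 hVX1 hX12.le hV2 hTI hTII
  have hlhs : ∑ n ∈ (Ioc X₁ X₂).filter (fun n => n % W = s % W),
      ArithmeticFunction.vonMangoldt n * (F n - μ) =
      ∑ n ∈ Ioc X₁ X₂, ArithmeticFunction.vonMangoldt n * w n := by
    rw [Finset.sum_filter]
    refine Finset.sum_congr rfl fun n _ => ?_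
    simp only [hw, hF0]
    split_ifs <;> simp
  rw [hlhs]
  refine hmain.trans ?_
  -- the final bound
  set G : ℝ := Real.sqrt (X * H) / W * θ * Real.sqrt E with hG
  set J : ℝ := X ^ (5 / 6 : ℝ) * (W : ℝ) ^ (1 / 4 : ℝ) * D with hJ
  have hG0 : 0 ≤ G := by positivity
  have hJ0 : 0 ≤ J := by positivity
  have hW4 : 1 ≤ (W : ℝ) ^ (1 / 4 : ℝ) := Real.one_le_rpow hWr (by norm_num)
  have hJ25 : y ^ 25 * D ≤ J := by
    rw [hJ, hy25]
    calc y ^ 25 * D = y ^ 25 * 1 * D := by ring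
      _ ≤ y ^ 25 * (W : ℝ) ^ (1 / 4 : ℝ) * D := by
          apply mul_le_mul_of_nonneg_right _ hD0
          exact mul_le_mul_of_nonneg_left hW4 (by positivity)
  have hVD : (V : ℝ) ^ 2 * D ≤ J := by
    refine le_trans ?_ hJ25
    apply mul_le_mul_of_nonneg_right _ hD0
    exact hVsq.trans (pow_le_pow_right₀ (by linarith) (by norm_num))
  have hsumT : ∑ t ∈ Ioc 0 (V ^ 2), 3 * Real.log X * T t =
      3 * A * (H / W * R * (∑ t ∈ Ioc 0 (V ^ 2), (1 : ℝ) / t) + 2 * (V : ℝ) ^ 2 * R +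
        2 * (V : ℝ) ^ 2 * D) := by
    have h1 : ∀ t ∈ Ioc 0 (V ^ 2), 3 * Real.log X * T t =
        3 * A * (H / W * R) * (1 / (t : ℝ)) + 3 * A * (2 * R + 2 * D) := by
      intro t ht
      simp only [hT]
      rw [mem_Ioc] at ht
      have : (t : ℝ) ≠ 0 := by
        have := ht.1
        positivity
      field_simp
      ring
    rw [Finset.sum_congr rfl h1, Finset.sum_add_distrib, ← Finset.mul_sum, Finset.sum_const,
      Nat.card_Ioc, Nat.sub_zero, nsmul_eq_mul]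
    push_cast
    ring
  rw [hsumT]
  have hSg : ∑ t ∈ Ioc 0 (V ^ 2), (1 : ℝ) / t ≤ 2 * A := by
    refine (harm _).trans ?_
    have hle : Real.log ((V ^ 2 : ℕ) : ℝ) ≤ A := by
      rw [hA]
      apply Real.log_le_log
      · have : 0 < V ^ 2 := by positivity
        exact_mod_cast this
      · rw [hXdef]; exact_mod_cast hV2
    linarith
  have hSg0 : 0 ≤ ∑ t ∈ Ioc 0 (V ^ 2), (1 : ℝ) / t := Finset.sum_nonneg fun t _ => by positivity
  have hHs : H ≤ Real.sqrt (X * H) := by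
    apply Real.le_sqrt_of_sq_le
    nlinarith
  have hHR : H / W * R ≤ 3 * G := by
    calc H / W * R ≤ Real.sqrt (X * H) / W * (3 * (θ * Real.sqrt E)) := by
          apply mul_le_mul _ hR3 hR0 (by positivity)
          exact div_le_div_of_nonneg_right hHs hWr0.le
      _ = 3 * G := by rw [hG]; ring
  have hVR : 2 * (V : ℝ) ^ 2 * R ≤ 4 * J := by
    calc 2 * (V : ℝ) ^ 2 * R ≤ 2 * (V : ℝ) ^ 2 * (2 * D) :=
          mul_le_mul_of_nonneg_left hR2 (by positivity)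
      _ = 4 * ((V : ℝ) ^ 2 * D) := by ring
      _ ≤ 4 * J := by linarith
  have hVD2 : 2 * (V : ℝ) ^ 2 * D ≤ 2 * J := by
    calc 2 * (V : ℝ) ^ 2 * D = 2 * ((V : ℝ) ^ 2 * D) := by ring
      _ ≤ 2 * J := by linarith
  have hBle : B ≤ A * (14 * G + 21 * J) := by
    rw [hB]
    apply mul_le_mul_of_nonneg_left _ hA0
    have h1 : 7 * (Real.sqrt (y ^ 30 * H) / W) * (2 * θ * Real.sqrt E) = 14 * G := by
      rw [hG, hy30]; ring
    have h2 : 21 * y ^ 25 * D ≤ 21 * J := by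
      calc 21 * y ^ 25 * D = 21 * (y ^ 25 * D) := by ring
        _ ≤ 21 * J := by linarith
    linarith
  exact finnum A G J _ _ _ _ B hA1 hG0 hJ0 hSg hSg0 hHR hVR hVD2 hBle

end Pool.Agent.IPP
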