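import Mathlib
import Pool.Agent.IPP.Stmts

set_option autoImplicit false

/-!
Module T1 of block P (MP_e1dc24_nt): Type I sums of a function of the hits.
-/

namespace Pool.Agent.IPP

open Finset Pool.Agent.Lib_helper9.LG

noncomputable section

namespace T1x

/-- An inverse of `t` modulo `W`. -/
theorem inv_exists {t W : ℕ} (hW : 1 ≤ W) (h : t.Coprime W) : ∃ r : ℕ, t * r ≡ 1 [MOD W] := by
  refine ⟨t ^ (W.totient - 1), ?_⟩
  have h1 : 0 < W.totient := Nat.totient_pos.2 hW
  have h2 : t * t ^ (W.totient - 1) = t ^ W.totient := by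
    conv_rhs => rw [← Nat.sub_add_cancel h1]
    rw [pow_succ]
    exact Nat.mul_comm _ _
  rw [h2]
  exact Nat.ModEq.pow_totient h

/-- The condition on `t * n` is a condition on `n`. -/
theorem class_iff {t W s r : ℕ} (hr : t * r ≡ 1 [MOD W]) (n : ℕ) :
    (t * n) % W = s % W ↔ n % W = (r * s) % W := by
  constructor
  · intro h
    have h1 : t * n ≡ s [MOD W] := h
    have h2 : r * (t * n) ≡ r * s [MOD W] := Nat.ModEq.mul_left r h1
    have h3 : t * r * n ≡ 1 * n [MOD W] := Nat.ModEq.mul_right n hr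
    have h4 : r * (t * n) = t * r * n := by ring
    rw [h4] at h2
    rw [one_mul] at h3
    exact h3.symm.trans h2
  · intro h
    have h1 : n ≡ r * s [MOD W] := h
    have h2 : t * n ≡ t * (r * s) [MOD W] := Nat.ModEq.mul_left t h1
    have h3 : t * r * s ≡ 1 * s [MOD W] := Nat.ModEq.mul_right s hr
    rw [← mul_assoc] at h2
    rw [one_mul] at h3
    exact h2.trans h3

/-- If `t` has a common factor with `W` no multiple of `t` is in the class. -/
theorem coprime_of_mem {t W s n : ℕ} (hs : s.Coprime W) (h : (t * n) % W = s % W) :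
    t.Coprime W := by
  have h1 : t * n ≡ s [MOD W] := h
  have h2 : (t * n).Coprime W := by
    have h3 := Nat.ModEq.gcd_eq h1
    unfold Nat.Coprime
    rw [h3]
    exact hs
  exact Nat.Coprime.coprime_mul_right h2

end T1x

theorem t1 : StmtLEV → StmtAVI → StmtTYM → StmtT1 := by
  intro hLEV hAVI hTYM Q κ _ ρ F z a W s t Y₁ Y₂ hH hF hL hQ hz hK hm hW hs ht hY
  have hprime : ∀ l ∈ Q, l.Prime := hH.prime
  obtain ⟨-, -, hdil, -, hbd, -, -⟩ := hLEV Q hprime
  have ha : 0 ≤ a := (hbd a F hL).1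
  have hWr : (0 : ℝ) < W := by exact_mod_cast hW
  have hlen : 0 ≤ ((Y₂ : ℝ) - Y₁) / W + 1 := by
    have h1 : (Y₁ : ℝ) ≤ Y₂ := by exact_mod_cast hY
    have h2 : 0 ≤ ((Y₂ : ℝ) - Y₁) / W := div_nonneg (by linarith) hWr.le
    linarith
  have hbnd : 0 ≤ Real.sqrt (mean (pr Q) fun n => F n ^ 2) *
      Real.sqrt (Real.exp (4 * (Fintype.card κ : ℝ) * Real.log t / z) - 1) :=
    mul_nonneg (Real.sqrt_nonneg _) (Real.sqrt_nonneg _)
  by_cases hc : t.Coprime W
  · obtain ⟨r, hr⟩ := T1x.inv_exists hW hc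
    have hfil : (Ioc Y₁ Y₂).filter (fun n => (t * n) % W = s % W) =
        (Ioc Y₁ Y₂).filter (fun n => n % W = (r * s) % W) := by
      apply Finset.filter_congr
      intro n _
      exact T1x.class_iff hr n
    rw [hfil]
    obtain ⟨h1, h2⟩ := hAVI Q W (r * s) Y₁ Y₂ a (fun n => F (t * n)) hW hY
      (fun l hl => ⟨hprime l hl, (hQ l hl).2⟩) (hdil a F t hL)
    have h3 := hTYM Q κ ρ F z t hH hF (fun l hl => (hQ l hl).1) hz hK ht
    rw [hm, sub_zero] at h3
    set S := ∑ n ∈ (Ioc Y₁ Y₂).filter (fun n => n % W = (r * s) % W), F (t * n) with hS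
    set c : ℝ := (((Ioc Y₁ Y₂).filter (fun n => n % W = (r * s) % W)).card : ℝ) with hcdef
    set μ := mean (pr Q) (fun n => F (t * n)) with hμ
    set B := Real.sqrt (mean (pr Q) fun n => F n ^ 2) *
      Real.sqrt (Real.exp (4 * (Fintype.card κ : ℝ) * Real.log t / z) - 1) with hB
    have hc0 : 0 ≤ c := Nat.cast_nonneg _
    have h4 : |c * μ| ≤ (((Y₂ : ℝ) - Y₁) / W + 1) * B := by
      rw [abs_mul, abs_of_nonneg hc0]
      exact mul_le_mul h2 h3 (abs_nonneg _) hlen
    have h5 : |S| ≤ |S - c * μ| + |c * μ| := by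
      have h6 : S = (S - c * μ) + c * μ := by ring
      calc |S| = |(S - c * μ) + c * μ| := by rw [← h6]
        _ ≤ |S - c * μ| + |c * μ| := abs_add_le _ _
    linarith
  · have hfil : (Ioc Y₁ Y₂).filter (fun n => (t * n) % W = s % W) = ∅ := by
      rw [Finset.filter_eq_empty_iff]
      intro n _ h
      exact hc (T1x.coprime_of_mem hs h)
    rw [hfil, Finset.sum_empty, abs_zero]
    have h6 := mul_nonneg hlen hbnd
    linarith

end

end Pool.Agent.IPP
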