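import Pool.Agent.IPP.Stmts

set_option autoImplicit false

/-!
Type II sums of one dyadic block (MP_e1dc24_nt, block P, T2).
-/

namespace Pool.Agent.IPP

open Finset

noncomputable section

namespace T2x

theorem pr_pos {Q : Finset ℕ} (h : ∀ l ∈ Q, l.Prime) : 0 < pr Q :=
  Finset.prod_pos fun l hl => (h l hl).pos

theorem mean_const {q : ℕ} (hq : 0 < q) (c : ℝ) : mean q (fun _ => c) = c := by
  have h : (q : ℝ) ≠ 0 := by positivity
  unfold mean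
  rw [sum_const, card_range, nsmul_eq_mul]
  field_simp

theorem mean_mono (q : ℕ) {f g : ℕ → ℝ} (h : ∀ n, f n ≤ g n) : mean q f ≤ mean q g := by
  unfold mean
  exact div_le_div_of_nonneg_right (sum_le_sum fun n _ => h n) (Nat.cast_nonneg q)

theorem mean_add (q : ℕ) (f g : ℕ → ℝ) :
    mean q (fun n => f n + g n) = mean q f + mean q g := by
  unfold mean
  rw [sum_add_distrib, add_div]

theorem mean_mul (q : ℕ) (c : ℝ) (f : ℕ → ℝ) : mean q (fun n => c * f n) = c * mean q f := by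
  unfold mean
  rw [← mul_sum, mul_div_assoc]

theorem mean_sum {ι : Type} (q : ℕ) (s : Finset ι) (f : ι → ℕ → ℝ) :
    mean q (fun n => ∑ i ∈ s, f i n) = ∑ i ∈ s, mean q (f i) := by
  unfold mean
  rw [sum_comm, sum_div]

theorem cor_sq (q : ℕ) (F : ℕ → ℝ) (u u' : ℕ) :
    cor q F u u' ^ 2 =
      mean q fun v => mean q fun v' => (F (u * v) * F (u * v')) * (F (u' * v) * F (u' * v')) := by
  have h : (fun v => mean q fun v' => (F (u * v) * F (u * v')) * (F (u' * v) * F (u' * v'))) =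
      fun v => cor q F u u' * (F (u * v) * F (u' * v)) := by
    funext v
    have h1 : (fun v' => (F (u * v) * F (u * v')) * (F (u' * v) * F (u' * v'))) =
        fun v' => (F (u * v) * F (u' * v)) * (F (u * v') * F (u' * v')) := by
      funext v'; ring
    rw [h1, mean_mul]
    unfold cor
    ring
  rw [h, mean_mul, pow_two]
  rfl

theorem cor_sum (q : ℕ) (F : ℕ → ℝ) (I : Finset ℕ) :
    ∑ u ∈ I, ∑ u' ∈ I, cor q F u u' ^ 2 =
      mean q fun v => mean q fun v' => (∑ u ∈ I, F (v * u) * F (v' * u)) ^ 2 := by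
  have h1 : ∀ v v' : ℕ, (∑ u ∈ I, F (v * u) * F (v' * u)) ^ 2 =
      ∑ u ∈ I, ∑ u' ∈ I, (F (u * v) * F (u * v')) * (F (u' * v) * F (u' * v')) := by
    intro v v'
    rw [pow_two, sum_mul_sum]
    refine sum_congr rfl fun u _ => sum_congr rfl fun u' _ => ?_
    rw [mul_comm v u, mul_comm v' u, mul_comm v u', mul_comm v' u']
  simp only [h1, mean_sum, cor_sq]

theorem two_sq {S c a : ℝ} {M : ℝ} (h : |S - c * M| ≤ a) : S ^ 2 ≤ 2 * (c ^ 2 * M ^ 2) + 2 * a ^ 2 := by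
  have h1 : (S - c * M) ^ 2 ≤ a ^ 2 := by
    rw [← sq_abs (S - c * M)]
    exact pow_le_pow_left₀ (abs_nonneg _) h 2
  nlinarith [sq_nonneg (S - 2 * (c * M))]

/-- Splitting pairs by the residue class. -/
theorem pairs_sum (W n : ℕ) (hW : 1 ≤ W) (f : ℕ → ℕ → ℝ) :
    ∑ p ∈ ((Ioc 0 n) ×ˢ (Ioc 0 n)).filter (fun p => p.1 % W = p.2 % W), f p.1 p.2 =
      ∑ w ∈ range W, ∑ u ∈ (Ioc 0 n).filter (fun u => u % W = w % W),
        ∑ u' ∈ (Ioc 0 n).filter (fun u' => u' % W = w % W), f u u' := by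
  rw [sum_filter, sum_product]
  have h1 : ∀ w ∈ range W, ∑ u ∈ (Ioc 0 n).filter (fun u => u % W = w % W),
        ∑ u' ∈ (Ioc 0 n).filter (fun u' => u' % W = w % W), f u u' =
      ∑ u ∈ (Ioc 0 n).filter (fun u => u % W = w),
        ∑ u' ∈ (Ioc 0 n).filter (fun u' => u' % W = u % W), f u u' := by
    intro w hw
    have hw' : w % W = w := Nat.mod_eq_of_lt (mem_range.1 hw)
    rw [hw']
    refine sum_congr rfl fun u hu => ?_
    rw [(mem_filter.1 hu).2]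
  rw [sum_congr rfl h1, sum_fiberwise_of_maps_to (s := Ioc 0 n) (t := range W)
    (g := fun u => u % W) (fun u _ => mem_range.2 (Nat.mod_lt _ (by omega)))
    (f := fun u => ∑ u' ∈ (Ioc 0 n).filter (fun u' => u' % W = u % W), f u u')]
  refine sum_congr rfl fun u _ => ?_
  rw [sum_filter]
  refine sum_congr rfl fun u' _ => ?_
  by_cases h : u % W = u' % W
  · rw [if_pos h, if_pos h.symm]
  · rw [if_neg h, if_neg (fun h' => h h'.symm)]

/-- The number of pairs. -/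
theorem pairs_card (hA : StmtAVI) (W n : ℕ) (hW : 1 ≤ W) (U : ℝ) (hU : (n : ℝ) ≤ U) :
    ((((Ioc 0 n) ×ˢ (Ioc 0 n)).filter (fun p => p.1 % W = p.2 % W)).card : ℝ) ≤
      U * (U / W + 1) := by
  have hU0 : 0 ≤ U := le_trans (Nat.cast_nonneg n) hU
  have h0 : ((((Ioc 0 n) ×ˢ (Ioc 0 n)).filter (fun p => p.1 % W = p.2 % W)).card : ℝ) =
      ∑ u ∈ Ioc 0 n, (((Ioc 0 n).filter (fun u' => u' % W = u % W)).card : ℝ) := by
    rw [card_eq_sum_ones, Nat.cast_sum, sum_filter, sum_product]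
    refine sum_congr rfl fun u _ => ?_
    rw [card_eq_sum_ones, Nat.cast_sum, sum_filter]
    refine sum_congr rfl fun u' _ => ?_
    by_cases h : u % W = u' % W
    · rw [if_pos h, if_pos h.symm]
    · rw [if_neg h, if_neg (fun h' => h h'.symm)]
  rw [h0]
  have h1 : ∀ u ∈ Ioc 0 n, (((Ioc 0 n).filter (fun u' => u' % W = u % W)).card : ℝ) ≤
      U / W + 1 := by
    intro u _
    have h2 := (hA ∅ W u 0 n 0 (fun _ => 0) hW (Nat.zero_le _) (by simp) Lev.zero).2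
    refine h2.trans ?_
    have h3 : ((n : ℝ) - ((0 : ℕ) : ℝ)) / W ≤ U / W := by
      apply div_le_div_of_nonneg_right _ (Nat.cast_nonneg W)
      rw [Nat.cast_zero, sub_zero]; exact hU
    linarith
  refine (sum_le_card_nsmul _ _ _ h1).trans ?_
  rw [nsmul_eq_mul, Nat.card_Ioc, Nat.sub_zero]
  have h4 : 0 ≤ U / W + 1 := by positivity
  exact mul_le_mul_of_nonneg_right hU h4

/-- The level of the product of two dilations. -/
theorem lev2 (hL : StmtLEV) {Q : Finset ℕ} (hQ : ∀ l ∈ Q, l.Prime) {D : ℝ} {F : ℕ → ℝ}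
    (hF : Lev Q D F) (u u' : ℕ) : Lev Q (D * D) (fun v => F (u * v) * F (u' * v)) := by
  obtain ⟨-, hmul, hdil, -⟩ := hL Q hQ
  exact hmul D D _ _ (hdil D F u hF) (hdil D F u' hF)

/-- The sum of the squares of the correlations. -/
theorem pairs_cor (hL : StmtLEV) (hA : StmtAVI) {Q : Finset ℕ} {D : ℝ} {F : ℕ → ℝ} (W n : ℕ)
    (hQ : ∀ l ∈ Q, l.Prime ∧ ¬ l ∣ W) (hF : Lev Q D F) (hW : 1 ≤ W) (U : ℝ) (hU : (n : ℝ) ≤ U) :
    ∑ p ∈ ((Ioc 0 n) ×ˢ (Ioc 0 n)).filter (fun p => p.1 % W = p.2 % W),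
        cor (pr Q) F p.1 p.2 ^ 2 ≤
      2 * W * (U / W + 1) ^ 2 * box (pr Q) F + 2 * W * D ^ 4 := by
  have hq : 0 < pr Q := pr_pos fun l hl => (hQ l hl).1
  have hU0 : 0 ≤ U := le_trans (Nat.cast_nonneg n) hU
  rw [pairs_sum W n hW (fun u u' => cor (pr Q) F u u' ^ 2)]
  have h1 : ∀ w ∈ range W, ∑ u ∈ (Ioc 0 n).filter (fun u => u % W = w % W),
        ∑ u' ∈ (Ioc 0 n).filter (fun u' => u' % W = w % W), cor (pr Q) F u u' ^ 2 ≤
      2 * (U / W + 1) ^ 2 * box (pr Q) F + 2 * D ^ 4 := by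
    intro w _
    rw [cor_sum]
    have h2 : ∀ v v' : ℕ, (∑ u ∈ (Ioc 0 n).filter (fun u => u % W = w % W),
        F (v * u) * F (v' * u)) ^ 2 ≤
        2 * D ^ 4 + 2 * (U / W + 1) ^ 2 * cor (pr Q) F v v' ^ 2 := by
      intro v v'
      have h3 := hA Q W w 0 n (D * D) (fun u => F (v * u) * F (v' * u)) hW (Nat.zero_le _) hQ
        (lev2 hL (fun l hl => (hQ l hl).1) hF v v')
      have h4 := two_sq h3.1
      have h5 : (((Ioc 0 n).filter (fun u => u % W = w % W)).card : ℝ) ≤ U / W + 1 := by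
        refine h3.2.trans ?_
        have h6 : ((n : ℝ) - ((0 : ℕ) : ℝ)) / W ≤ U / W := by
          apply div_le_div_of_nonneg_right _ (Nat.cast_nonneg W)
          rw [Nat.cast_zero, sub_zero]; exact hU
        linarith
      have h7 : (((Ioc 0 n).filter (fun u => u % W = w % W)).card : ℝ) ^ 2 ≤ (U / W + 1) ^ 2 :=
        pow_le_pow_left₀ (Nat.cast_nonneg _) h5 2
      have h8 : (((Ioc 0 n).filter (fun u => u % W = w % W)).card : ℝ) ^ 2 *
          mean (pr Q) (fun u => F (v * u) * F (v' * u)) ^ 2 ≤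
          (U / W + 1) ^ 2 * cor (pr Q) F v v' ^ 2 :=
        mul_le_mul_of_nonneg_right h7 (sq_nonneg _)
      calc _ ≤ _ := h4
        _ ≤ 2 * ((U / W + 1) ^ 2 * cor (pr Q) F v v' ^ 2) + 2 * (D * D) ^ 2 := by linarith
        _ = _ := by ring
    calc mean (pr Q) (fun v => mean (pr Q) fun v' =>
          (∑ u ∈ (Ioc 0 n).filter (fun u => u % W = w % W), F (v * u) * F (v' * u)) ^ 2)
        ≤ mean (pr Q) (fun v => mean (pr Q) fun v' =>
          2 * D ^ 4 + 2 * (U / W + 1) ^ 2 * cor (pr Q) F v v' ^ 2) :=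
          mean_mono _ fun v => mean_mono _ fun v' => h2 v v'
      _ = 2 * (U / W + 1) ^ 2 * box (pr Q) F + 2 * D ^ 4 := by
          simp only [mean_add, mean_mul, mean_const hq]
          unfold box
          ring
  calc _ ≤ ∑ w ∈ range W, (2 * (U / W + 1) ^ 2 * box (pr Q) F + 2 * D ^ 4) := sum_le_sum h1
    _ = _ := by
      rw [sum_const, card_range, nsmul_eq_mul]
      ring

/-- The condition on `v` for the pair `p`. -/
def Cd (W s X₁ X₂ : ℕ) (p : ℕ × ℕ) (v : ℕ) : Prop :=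
  (X₁ < p.1 * v ∧ p.1 * v ≤ X₂) ∧ (X₁ < p.2 * v ∧ p.2 * v ≤ X₂) ∧
    (p.1 * v) % W = s % W ∧ (p.2 * v) % W = s % W

instance (W s X₁ X₂ : ℕ) (p : ℕ × ℕ) (v : ℕ) : Decidable (Cd W s X₁ X₂ p v) := by
  unfold Cd; infer_instance

/-- One pair. -/
theorem one_pair (hL : StmtLEV) (hA : StmtAVI) {Q : Finset ℕ} {D : ℝ} {F : ℕ → ℝ}
    (W s N X₁ X₂ : ℕ) (hQ : ∀ l ∈ Q, l.Prime ∧ ¬ l ∣ W) (hF : Lev Q D F) (hW : 1 ≤ W)
    (hs : s.Coprime W) (hN : 1 ≤ N) (hX₁ : 1 ≤ X₁) (hX : X₁ ≤ X₂) (p : ℕ × ℕ) :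
    (∑ v ∈ (Ico N (2 * N)).filter (Cd W s X₁ X₂ p), F (p.1 * v) * F (p.2 * v)) ^ 2 ≤
      2 * (2 * N * ((X₂ : ℝ) - X₁) / (X₁ * W) + 2) ^ 2 * cor (pr Q) F p.1 p.2 ^ 2 +
        2 * D ^ 4 := by
  have hXr : (X₁ : ℝ) ≤ X₂ := by exact_mod_cast hX
  have hWr : (1 : ℝ) ≤ W := by exact_mod_cast hW
  have hX1r : (1 : ℝ) ≤ X₁ := by exact_mod_cast hX₁
  rcases ((Ico N (2 * N)).filter (Cd W s X₁ X₂ p)).eq_empty_or_nonempty with he | ⟨v₀, hv₀⟩
  · rw [he, sum_empty, zero_pow two_ne_zero]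
    positivity
  · obtain ⟨hv₀I, ⟨h1a, h1b⟩, ⟨h2a, h2b⟩, h3, h4⟩ := mem_filter.1 hv₀
    rw [mem_Ico] at hv₀I
    obtain ⟨hNv, hvN⟩ := hv₀I
    have hp1 : 0 < p.1 := by
      rcases Nat.eq_zero_or_pos p.1 with h | h
      · rw [h, zero_mul] at h1a; omega
      · exact h
    have hp2 : 0 < p.2 := by
      rcases Nat.eq_zero_or_pos p.2 with h | h
      · rw [h, zero_mul] at h2a; omega
      · exact h
    -- coprimality
    have hco : ∀ u v : ℕ, (u * v) % W = s % W → u.Coprime W := by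
      intro u v h
      have h5 : (u * v).Coprime W := by
        have h6 : Nat.gcd (u * v) W = Nat.gcd s W := Nat.ModEq.gcd_eq h
        unfold Nat.Coprime
        rw [h6]; exact hs
      exact Nat.Coprime.coprime_mul_right h5
    have hc1 : p.1.Coprime W := hco _ _ h3
    -- the set as an interval in a class
    have hset : (Ico N (2 * N)).filter (Cd W s X₁ X₂ p) =
        (Ioc (max (N - 1) (max (X₁ / p.1) (X₁ / p.2)))
          (min (2 * N - 1) (min (X₂ / p.1) (X₂ / p.2)))).filter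
          (fun v => v % W = v₀ % W) := by
      ext v
      rw [mem_filter, mem_filter, mem_Ico, mem_Ioc]
      unfold Cd
      rw [max_lt_iff, max_lt_iff, le_min_iff, le_min_iff, Nat.div_lt_iff_lt_mul hp1,
        Nat.div_lt_iff_lt_mul hp2, Nat.le_div_iff_mul_le hp1, Nat.le_div_iff_mul_le hp2,
        mul_comm v p.1, mul_comm v p.2]
      constructor
      · rintro ⟨⟨a1, a2⟩, ⟨a3, a4⟩, ⟨a5, a6⟩, a7, -⟩
        refine ⟨⟨⟨by omega, a3, a5⟩, by omega, a4, a6⟩, ?_⟩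
        have h6 : (p.1 * v) ≡ (p.1 * v₀) [MOD W] := by
          unfold Nat.ModEq; rw [a7, h3]
        exact Nat.ModEq.cancel_left_of_coprime (by rw [Nat.gcd_comm]; exact hc1) h6
      · rintro ⟨⟨⟨a1, a3, a5⟩, a2, a4, a6⟩, a7⟩
        have h6 : ∀ u : ℕ, (u * v) % W = (u * v₀) % W := by
          intro u
          exact Nat.ModEq.mul_left u a7
        refine ⟨⟨by omega, by omega⟩, ⟨a3, a4⟩, ⟨a5, a6⟩, ?_, ?_⟩
        · rw [h6, h3]
        · rw [h6, h4]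
    rw [hset] at hv₀ ⊢
    have hv₁ := (mem_Ioc.1 (mem_filter.1 hv₀).1)
    have h7 := hA Q W v₀ (max (N - 1) (max (X₁ / p.1) (X₁ / p.2)))
      (min (2 * N - 1) (min (X₂ / p.1) (X₂ / p.2))) (D * D) (fun v => F (p.1 * v) * F (p.2 * v))
      hW (hv₁.1.le.trans hv₁.2) hQ (lev2 hL (fun l hl => (hQ l hl).1) hF p.1 p.2)
    have h8 := two_sq h7.1
    -- the number of elements
    have hp1r : (0 : ℝ) < p.1 := by exact_mod_cast hp1
    have h9 : ((min (2 * N - 1) (min (X₂ / p.1) (X₂ / p.2)) : ℕ) : ℝ) ≤ (X₂ : ℝ) / p.1 := by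
      have h10 : ((min (2 * N - 1) (min (X₂ / p.1) (X₂ / p.2)) : ℕ) : ℝ) ≤
          ((X₂ / p.1 : ℕ) : ℝ) := by
        exact_mod_cast (min_le_right _ _).trans (min_le_left _ _)
      exact h10.trans Nat.cast_div_le
    have h11 : (X₁ : ℝ) / p.1 - 1 ≤
        ((max (N - 1) (max (X₁ / p.1) (X₁ / p.2)) : ℕ) : ℝ) := by
      have h12 : ((X₁ / p.1 : ℕ) : ℝ) ≤
          ((max (N - 1) (max (X₁ / p.1) (X₁ / p.2)) : ℕ) : ℝ) := by
        exact_mod_cast (le_max_left _ _).trans (le_max_right _ _)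
      have h13 : X₁ < p.1 * (X₁ / p.1 + 1) := Nat.lt_mul_div_succ X₁ hp1
      have h14 : (X₁ : ℝ) < p.1 * (((X₁ / p.1 : ℕ) : ℝ) + 1) := by exact_mod_cast h13
      have h15 : (X₁ : ℝ) / p.1 ≤ ((X₁ / p.1 : ℕ) : ℝ) + 1 := by
        rw [div_le_iff₀ hp1r]
        linarith [mul_comm (p.1 : ℝ) (((X₁ / p.1 : ℕ) : ℝ) + 1)]
      linarith
    have h16 : (X₁ : ℝ) ≤ p.1 * (2 * N) := by
      have h17 : X₁ ≤ p.1 * (2 * N) := h1a.le.trans (Nat.mul_le_mul_left _ hvN.le)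
      exact_mod_cast h17
    have h18 : ((X₂ : ℝ) - X₁) / p.1 ≤ 2 * N * ((X₂ : ℝ) - X₁) / X₁ := by
      rw [div_le_div_iff₀ hp1r (by linarith)]
      have h19 : 0 ≤ (X₂ : ℝ) - X₁ := by linarith
      nlinarith [mul_le_mul_of_nonneg_left h16 h19]
    have h20 : ((((min (2 * N - 1) (min (X₂ / p.1) (X₂ / p.2)) : ℕ) : ℝ) -
        ((max (N - 1) (max (X₁ / p.1) (X₁ / p.2)) : ℕ) : ℝ)) / W + 1) ≤
        2 * N * ((X₂ : ℝ) - X₁) / (X₁ * W) + 2 := by
      have h21 : ((min (2 * N - 1) (min (X₂ / p.1) (X₂ / p.2)) : ℕ) : ℝ) -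
        ((max (N - 1) (max (X₁ / p.1) (X₁ / p.2)) : ℕ) : ℝ) ≤
          2 * N * ((X₂ : ℝ) - X₁) / X₁ + 1 := by
        have h22 : ((X₂ : ℝ) - X₁) / p.1 = (X₂ : ℝ) / p.1 - (X₁ : ℝ) / p.1 := sub_div _ _ _
        linarith
      have h23 : (2 * N * ((X₂ : ℝ) - X₁) / X₁ + 1) / W ≤
          2 * N * ((X₂ : ℝ) - X₁) / (X₁ * W) + 1 := by
        rw [add_div, div_div]
        have h24 : (1 : ℝ) / W ≤ 1 := by
          rw [div_le_one (by linarith)]; exact hWr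
        linarith
      have h25 := div_le_div_of_nonneg_right h21 (by linarith : (0 : ℝ) ≤ W)
      linarith
    have h26 := h7.2.trans h20
    have h27 := pow_le_pow_left₀ (Nat.cast_nonneg _) h26 2
    have h28 := mul_le_mul_of_nonneg_right h27 (sq_nonneg (cor (pr Q) F p.1 p.2))
    have h29 : mean (pr Q) (fun v => F (p.1 * v) * F (p.2 * v)) = cor (pr Q) F p.1 p.2 := rfl
    rw [h29] at h8
    calc _ ≤ _ := h8
      _ ≤ 2 * ((2 * N * ((X₂ : ℝ) - X₁) / (X₁ * W) + 2) ^ 2 * cor (pr Q) F p.1 p.2 ^ 2) +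
          2 * (D * D) ^ 2 := by linarith
      _ = _ := by ring

/-- Opening the squares and exchanging the sums. -/
theorem exchange (W s N X₁ X₂ : ℕ) (β F : ℕ → ℝ) (hs : s.Coprime W)
    (hN : 1 ≤ N) :
    ∑ v ∈ Ico N (2 * N), (∑ u ∈ (Ioc (X₁ / v) (X₂ / v)).filter
        (fun u => (u * v) % W = s % W), β u * F (u * v)) ^ 2 =
      ∑ p ∈ ((Ioc 0 (X₂ / N)) ×ˢ (Ioc 0 (X₂ / N))).filter (fun p => p.1 % W = p.2 % W),
        (β p.1 * β p.2) * ∑ v ∈ (Ico N (2 * N)).filter (Cd W s X₁ X₂ p),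
          F (p.1 * v) * F (p.2 * v) := by
  have h1 : ∀ v ∈ Ico N (2 * N), (∑ u ∈ (Ioc (X₁ / v) (X₂ / v)).filter
        (fun u => (u * v) % W = s % W), β u * F (u * v)) ^ 2 =
      ∑ p ∈ ((Ioc 0 (X₂ / N)) ×ˢ (Ioc 0 (X₂ / N))).filter (fun p => p.1 % W = p.2 % W),
        if Cd W s X₁ X₂ p v then (β p.1 * β p.2) * (F (p.1 * v) * F (p.2 * v)) else 0 := by
    intro v hv
    rw [mem_Ico] at hv
    have hv0 : 0 < v := by omega
    rw [← sum_filter, pow_two, sum_mul_sum, ← sum_product']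
    have h2 : (Ioc (X₁ / v) (X₂ / v)).filter (fun u => (u * v) % W = s % W) ×ˢ
        (Ioc (X₁ / v) (X₂ / v)).filter (fun u => (u * v) % W = s % W) =
        (((Ioc 0 (X₂ / N)) ×ˢ (Ioc 0 (X₂ / N))).filter (fun p => p.1 % W = p.2 % W)).filter
          (fun p => Cd W s X₁ X₂ p v) := by
      ext p
      rw [mem_product, mem_filter, mem_filter, mem_filter, mem_filter, mem_product]
      unfold Cd
      rw [mem_Ioc, mem_Ioc, mem_Ioc, mem_Ioc, Nat.div_lt_iff_lt_mul hv0,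
        Nat.div_lt_iff_lt_mul hv0, Nat.le_div_iff_mul_le hv0, Nat.le_div_iff_mul_le hv0]
      constructor
      · rintro ⟨⟨⟨a1, a2⟩, a3⟩, ⟨b1, b2⟩, b3⟩
        have hle : ∀ u : ℕ, u * v ≤ X₂ → u ≤ X₂ / N := by
          intro u hu
          rw [Nat.le_div_iff_mul_le (by omega)]
          exact (Nat.mul_le_mul_left u hv.1).trans hu
        have hpos : ∀ u : ℕ, X₁ < u * v → 0 < u := by
          intro u hu
          rcases Nat.eq_zero_or_pos u with h | h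
          · rw [h, zero_mul] at hu; omega
          · exact h
        have hcv : v.Coprime W := by
          have h5 : (p.1 * v).Coprime W := by
            have h6 : Nat.gcd (p.1 * v) W = Nat.gcd s W := Nat.ModEq.gcd_eq a3
            unfold Nat.Coprime
            rw [h6]; exact hs
          exact Nat.Coprime.coprime_mul_left h5
        have h7 : (p.1 * v) ≡ (p.2 * v) [MOD W] := by
          unfold Nat.ModEq; rw [a3, b3]
        refine ⟨⟨⟨⟨hpos _ a1, hle _ a2⟩, hpos _ b1, hle _ b2⟩, ?_⟩, ⟨a1, a2⟩, ⟨b1, b2⟩, a3, b3⟩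
        exact Nat.ModEq.cancel_right_of_coprime (by rw [Nat.gcd_comm]; exact hcv) h7
      · rintro ⟨-, ⟨a1, a2⟩, ⟨b1, b2⟩, a3, b3⟩
        exact ⟨⟨⟨a1, a2⟩, a3⟩, ⟨b1, b2⟩, b3⟩
    rw [h2]
    refine sum_congr rfl fun p _ => ?_
    ring
  rw [sum_congr rfl h1, sum_comm]
  refine sum_congr rfl fun p _ => ?_
  rw [← sum_filter, mul_sum]

end T2x

open T2x in
theorem t2 : StmtLEV → StmtAVI → StmtT2 := by
  intro hL hA Q F D A W s N X₁ X₂ α β hQ hF hD hA0 hα hβ hW hs hN hX₁ hX U Pn Y hU hPn hY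
  have hWr : (1 : ℝ) ≤ W := by exact_mod_cast hW
  have hNr : (1 : ℝ) ≤ N := by exact_mod_cast hN
  have hX1r : (1 : ℝ) ≤ X₁ := by exact_mod_cast hX₁
  have hXr : (X₁ : ℝ) ≤ X₂ := by exact_mod_cast hX
  have hUn : ((X₂ / N : ℕ) : ℝ) ≤ U := by rw [hU]; exact Nat.cast_div_le
  have hU0 : 0 ≤ U := le_trans (Nat.cast_nonneg _) hUn
  have hPn0 : 0 ≤ Pn := by rw [hPn]; positivity
  set P : Finset (ℕ × ℕ) :=
    ((Ioc 0 (X₂ / N)) ×ˢ (Ioc 0 (X₂ / N))).filter (fun p => p.1 % W = p.2 % W) with hPdef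
  set S : ℕ × ℕ → ℝ := fun p => ∑ v ∈ (Ico N (2 * N)).filter (Cd W s X₁ X₂ p),
    F (p.1 * v) * F (p.2 * v) with hSdef
  set I : ℕ → ℝ := fun v => ∑ u ∈ (Ioc (X₁ / v) (X₂ / v)).filter
    (fun u => (u * v) % W = s % W), β u * F (u * v) with hIdef
  -- the first use of Cauchy–Schwarz
  have h1 : (∑ v ∈ Ico N (2 * N), α v * I v) ^ 2 ≤ N * ∑ v ∈ Ico N (2 * N), I v ^ 2 := by
    have h2 := sum_mul_sq_le_sq_mul_sq (Ico N (2 * N)) α I
    have h3 : ∑ v ∈ Ico N (2 * N), α v ^ 2 ≤ N := by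
      have h4 : ∀ v ∈ Ico N (2 * N), α v ^ 2 ≤ 1 := by
        intro v _
        rw [← sq_abs]
        exact pow_le_one₀ (abs_nonneg _) (hα v)
      have h5 := sum_le_card_nsmul _ _ _ h4
      rw [Nat.card_Ico, nsmul_eq_mul, mul_one] at h5
      refine h5.trans ?_
      have h6 : 2 * N - N = N := by omega
      rw [h6]
    refine h2.trans (mul_le_mul_of_nonneg_right h3 (sum_nonneg fun v _ => sq_nonneg _))
  -- exchange
  have h7 : ∑ v ∈ Ico N (2 * N), I v ^ 2 = ∑ p ∈ P, (β p.1 * β p.2) * S p :=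
    exchange W s N X₁ X₂ β F hs hN
  have h8 : ∑ v ∈ Ico N (2 * N), I v ^ 2 ≤ A ^ 2 * ∑ p ∈ P, |S p| := by
    rw [h7, mul_sum]
    refine sum_le_sum fun p hp => ?_
    rw [hPdef, mem_filter, mem_product, mem_Ioc, mem_Ioc] at hp
    have h9 : ∀ u : ℕ, u ≤ X₂ / N → |β u| ≤ A := by
      intro u hu
      exact hβ u (hu.trans (Nat.div_le_self _ _))
    have h10 : |β p.1 * β p.2| ≤ A ^ 2 := by
      rw [abs_mul, pow_two]
      exact mul_le_mul (h9 _ hp.1.1.2) (h9 _ hp.1.2.2) (abs_nonneg _) hA0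
    calc β p.1 * β p.2 * S p ≤ |β p.1 * β p.2 * S p| := le_abs_self _
      _ = |β p.1 * β p.2| * |S p| := abs_mul _ _
      _ ≤ A ^ 2 * |S p| := mul_le_mul_of_nonneg_right h10 (abs_nonneg _)
  -- the second use of Cauchy–Schwarz
  have h11 : (∑ p ∈ P, |S p|) ^ 2 ≤ Pn * ∑ p ∈ P, S p ^ 2 := by
    have h12 := sq_sum_le_card_mul_sum_sq (s := P) (f := fun p => |S p|)
    simp only [sq_abs] at h12
    refine h12.trans (mul_le_mul_of_nonneg_right ?_ (sum_nonneg fun p _ => sq_nonneg _))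
    rw [hPn]
    exact pairs_card hA W (X₂ / N) hW U hUn
  -- the sum over the pairs
  have h13 : ∑ p ∈ P, S p ^ 2 ≤ 4 * Y ^ 2 * W * (U / W + 1) ^ 2 * box (pr Q) F +
      4 * Y ^ 2 * W * D ^ 4 + 2 * D ^ 4 * Pn := by
    have h14 : ∀ p ∈ P, S p ^ 2 ≤ 2 * Y ^ 2 * cor (pr Q) F p.1 p.2 ^ 2 + 2 * D ^ 4 := by
      intro p _
      rw [hY]
      exact one_pair hL hA W s N X₁ X₂ hQ hF hW hs hN hX₁ hX p
    have h15 := pairs_cor hL hA W (X₂ / N) hQ hF hW U hUn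
    have h16 := pairs_card hA W (X₂ / N) hW U hUn
    rw [← hPn] at h16
    calc ∑ p ∈ P, S p ^ 2 ≤ ∑ p ∈ P, (2 * Y ^ 2 * cor (pr Q) F p.1 p.2 ^ 2 + 2 * D ^ 4) :=
          sum_le_sum h14
      _ = 2 * Y ^ 2 * ∑ p ∈ P, cor (pr Q) F p.1 p.2 ^ 2 + P.card * (2 * D ^ 4) := by
          rw [sum_add_distrib, ← mul_sum, sum_const, nsmul_eq_mul]
      _ ≤ 2 * Y ^ 2 * (2 * W * (U / W + 1) ^ 2 * box (pr Q) F + 2 * W * D ^ 4) +
          Pn * (2 * D ^ 4) := by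
          have h17 : 0 ≤ 2 * Y ^ 2 := by positivity
          have h18 : 0 ≤ 2 * D ^ 4 := by positivity
          exact add_le_add (mul_le_mul_of_nonneg_left h15 h17)
            (mul_le_mul_of_nonneg_right h16 h18)
      _ = _ := by ring
  -- the end
  have hT2 : (∑ v ∈ Ico N (2 * N), α v * I v) ^ 2 ≤ N * (A ^ 2 * ∑ p ∈ P, |S p|) :=
    h1.trans (mul_le_mul_of_nonneg_left h8 (Nat.cast_nonneg _))
  have hT4 := pow_le_pow_left₀ (sq_nonneg _) hT2 2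
  have habs : |∑ v ∈ Ico N (2 * N), α v * I v| ^ 4 = ((∑ v ∈ Ico N (2 * N), α v * I v) ^ 2) ^ 2 := by
    rw [← sq_abs (∑ v ∈ Ico N (2 * N), α v * I v), ← pow_mul]
  have hgoal : |∑ v ∈ Ico N (2 * N), α v * I v| ^ 4 ≤
    (N : ℝ) ^ 2 * A ^ 4 * Pn * (4 * Y ^ 2 * W * (U / W + 1) ^ 2 * box (pr Q) F +
      4 * Y ^ 2 * W * D ^ 4 + 2 * D ^ 4 * Pn) := by
    rw [habs]
    refine hT4.trans ?_
    have h19 : (N * (A ^ 2 * ∑ p ∈ P, |S p|)) ^ 2 =
        (N : ℝ) ^ 2 * A ^ 4 * (∑ p ∈ P, |S p|) ^ 2 := by ring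
    rw [h19]
    have h20 : 0 ≤ (N : ℝ) ^ 2 * A ^ 4 := by positivity
    rw [mul_assoc ((N : ℝ) ^ 2 * A ^ 4) Pn]
    exact mul_le_mul_of_nonneg_left (h11.trans (mul_le_mul_of_nonneg_left h13 hPn0)) h20
  exact hgoal

end

end Pool.Agent.IPP
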