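import Mathlib
import Pool.Agent.IPP.Stmts

set_option autoImplicit false

/-!
TYM: the mean of a dilation of a function of the hits.
-/

namespace Pool.Agent.IPP

open Finset

namespace TYMx

lemma sum_coprime {a b : ℕ} (ha : 0 < a) (hb : 0 < b) (hab : a.Coprime b) {f g : ℕ → ℝ}
    (hf : Function.Periodic f a) (hg : Function.Periodic g b) :
    ∑ n ∈ range (a * b), f n * g n = (∑ n ∈ range a, f n) * ∑ n ∈ range b, g n := by
  rw [sum_mul_sum, ← sum_product']
  refine sum_nbij' (fun n => (n % a, n % b))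
    (fun p => ((Nat.chineseRemainder hab p.1 p.2 : _) : ℕ)) ?_ ?_ ?_ ?_ ?_
  · intro n _
    rw [mem_product, mem_range, mem_range]
    exact ⟨Nat.mod_lt _ ha, Nat.mod_lt _ hb⟩
  · intro p _
    rw [mem_range]
    exact Nat.chineseRemainder_lt_mul hab p.1 p.2 ha.ne' hb.ne'
  · intro n hn
    rw [mem_range] at hn
    have h1 : n ≡ (Nat.chineseRemainder hab (n % a) (n % b) : ℕ) [MOD a * b] :=
      Nat.chineseRemainder_modEq_unique hab (Nat.mod_modEq n a).symm (Nat.mod_modEq n b).symm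
    exact (Nat.ModEq.eq_of_lt_of_lt h1 hn
      (Nat.chineseRemainder_lt_mul hab _ _ ha.ne' hb.ne')).symm
  · intro p hp
    rw [mem_product, mem_range, mem_range] at hp
    have h1 := (Nat.chineseRemainder hab p.1 p.2).2
    refine Prod.ext ?_ ?_
    · exact Eq.trans h1.1 (Nat.mod_eq_of_lt hp.1)
    · exact Eq.trans h1.2 (Nat.mod_eq_of_lt hp.2)
  · intro n _
    simp only
    rw [hf.map_mod_nat, hg.map_mod_nat]

lemma sum_right {a b : ℕ} (ha : 0 < a) (hb : 0 < b) (hab : a.Coprime b) {g : ℕ → ℝ}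
    (hg : Function.Periodic g b) :
    ∑ n ∈ range (a * b), g n = a * ∑ n ∈ range b, g n := by
  have h := sum_coprime (f := fun _ => (1 : ℝ)) ha hb hab (fun _ => rfl) hg
  simpa using h

lemma sum_left {a b : ℕ} (ha : 0 < a) (hb : 0 < b) (hab : a.Coprime b) {f : ℕ → ℝ}
    (hf : Function.Periodic f a) :
    ∑ n ∈ range (a * b), f n = b * ∑ n ∈ range a, f n := by
  have h := sum_coprime (g := fun _ => (1 : ℝ)) ha hb hab hf (fun _ => rfl)
  simpa [mul_comm] using h

lemma sum_dil {b t : ℕ} (hb : 0 < b) (h : t.Coprime b) {g : ℕ → ℝ}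
    (hg : Function.Periodic g b) : ∑ n ∈ range b, g (t * n) = ∑ n ∈ range b, g n := by
  have hinj : Set.InjOn (fun n => t * n % b) (range b : Finset ℕ) := by
    intro x hx y hy hxy
    rw [mem_coe, mem_range] at hx hy
    have h1 : t * x ≡ t * y [MOD b] := hxy
    have h2 : x ≡ y [MOD b] := Nat.ModEq.cancel_left_of_coprime h.symm h1
    exact Nat.ModEq.eq_of_lt_of_lt h2 hx hy
  have him : (range b).image (fun n => t * n % b) = range b := by
    apply eq_of_subset_of_card_le
    · intro m hm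
      rw [mem_image] at hm
      obtain ⟨n, _, rfl⟩ := hm
      exact mem_range.2 (Nat.mod_lt _ hb)
    · rw [card_image_of_injOn hinj]
  conv_rhs => rw [← him, sum_image hinj]
  exact sum_congr rfl fun n _ => (hg.map_mod_nat _).symm

lemma prod_pos {S : Finset ℕ} (hS : ∀ l ∈ S, l.Prime) : 0 < ∏ l ∈ S, l :=
  Finset.prod_pos fun l hl => (hS l hl).pos

lemma coprime_prod {S : Finset ℕ} {q : ℕ} (hS : ∀ l ∈ S, l.Prime) (hq : q.Prime) (hqS : q ∉ S) :
    q.Coprime (∏ l ∈ S, l) :=
  Nat.Coprime.prod_right fun l hl => (Nat.coprime_primes hq (hS l hl)).2 fun h => hqS (h ▸ hl)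

/-- the mean of a product of functions of the classes modulo distinct primes -/
lemma sum_prod (S : Finset ℕ) (hS : ∀ l ∈ S, l.Prime) (v : ℕ → ℕ → ℝ)
    (hv : ∀ l ∈ S, Function.Periodic (v l) l) :
    Function.Periodic (fun n => ∏ l ∈ S, v l n) (∏ l ∈ S, l) ∧
    ∑ n ∈ range (∏ l ∈ S, l), ∏ l ∈ S, v l n = ∏ l ∈ S, ∑ n ∈ range l, v l n := by
  induction S using Finset.induction_on with
  | empty => simp [Function.Periodic]
  | insert q S hq ih =>
    have hS' : ∀ l ∈ S, l.Prime := fun l hl => hS l (mem_insert_of_mem hl)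
    obtain ⟨i1, i2⟩ := ih hS' fun l hl => hv l (mem_insert_of_mem hl)
    have hqp := hS q (mem_insert_self _ _)
    have hqv := hv q (mem_insert_self _ _)
    simp only [prod_insert hq]
    constructor
    · refine Function.Periodic.mul ?_ ?_
      · have := hqv.nat_mul (∏ l ∈ S, l)
        rw [mul_comm] at this
        simpa using this
      · have := i1.nat_mul q
        simpa using this
    · rw [sum_coprime hqp.pos (prod_pos hS') (coprime_prod hS' hqp hq) hqv i1, i2]

lemma le_exp_two {x : ℝ} (h0 : 0 ≤ x) (h1 : x ≤ 1 / 2) : 1 / (1 - x) ≤ Real.exp (2 * x) := by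
  have h2 : 1 + 2 * x ≤ Real.exp (2 * x) := by
    have := Real.add_one_le_exp (2 * x)
    linarith
  refine le_trans ?_ h2
  rw [div_le_iff₀ (by linarith)]
  nlinarith

end TYMx

open TYMx in
theorem tym : StmtTYM := by
  classical
  intro Q κ _ ρ F z t hH hF hz hz1 hK ht
  set K : ℝ := (Fintype.card κ : ℝ) with hKdef
  have hK0 : 0 ≤ K := Nat.cast_nonneg _
  -- the two parts of `Q`
  set Q1 := Q.filter (fun l => l ∣ t) with hQ1
  set Q2 := Q.filter (fun l => ¬ l ∣ t) with hQ2
  have hP1 : ∀ l ∈ Q1, l.Prime := fun l hl => hH.prime l (mem_filter.1 hl).1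
  have hP2 : ∀ l ∈ Q2, l.Prime := fun l hl => hH.prime l (mem_filter.1 hl).1
  set A := ∏ l ∈ Q1, l with hA
  set B := ∏ l ∈ Q2, l with hB
  have hA0 : 0 < A := prod_pos hP1
  have hB0 : 0 < B := prod_pos hP2
  have hpr : pr Q = A * B := by
    unfold pr
    rw [hA, hB, hQ1, hQ2, prod_filter_mul_prod_filter_not]
  have hAB : A.Coprime B := by
    refine Nat.Coprime.prod_left fun l hl => coprime_prod hP2 (hP1 l hl) fun h => ?_
    exact (mem_filter.1 h).2 (mem_filter.1 hl).2
  have htB : t.Coprime B := by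
    refine Nat.Coprime.prod_right fun l hl => ?_
    exact ((hP2 l hl).coprime_iff_not_dvd.2 (mem_filter.1 hl).2).symm
  obtain ⟨e, he⟩ := (Nat.chineseRemainder hAB 0 1 : {k // k ≡ 0 [MOD A] ∧ k ≡ 1 [MOD B]})
  have he1 : ∀ l ∈ Q1, ∀ n, e * n % l = 0 := by
    intro l hl n
    have h1 : l ∣ A := dvd_prod_of_mem _ hl
    have h2 : e ≡ 0 [MOD l] := he.1.of_dvd h1
    have h3 : e * n ≡ 0 * n [MOD l] := h2.mul_right n
    rw [zero_mul] at h3
    unfold Nat.ModEq at h3
    rw [h3, Nat.zero_mod]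
  have he2 : ∀ l ∈ Q2, ∀ n, e * n % l = n % l := by
    intro l hl n
    have h1 : l ∣ B := dvd_prod_of_mem _ hl
    have h2 : e ≡ 1 [MOD l] := he.2.of_dvd h1
    have h3 : e * n ≡ 1 * n [MOD l] := h2.mul_right n
    rw [one_mul] at h3
    exact h3
  set H : ℕ → ℝ := fun n => F (e * n) with hHdef
  have hcase : ∀ l ∈ Q, l ∈ Q1 ∨ l ∈ Q2 := by
    intro l hl
    by_cases h : l ∣ t
    · left; exact mem_filter.2 ⟨hl, h⟩
    · right; exact mem_filter.2 ⟨hl, h⟩
  have hHper : Function.Periodic H B := by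
    intro n
    refine hF _ _ fun l hl k => ?_
    rcases hcase l hl with h | h
    · rw [he1 l h, he1 l h]
    · rw [he2 l h, he2 l h]
      have h1 : l ∣ B := dvd_prod_of_mem _ h
      obtain ⟨c, hc⟩ := h1
      rw [hc, Nat.add_mul_mod_self_left]
  have hFt : ∀ n, F (t * n) = H (t * n) := by
    intro n
    refine hF _ _ fun l hl k => ?_
    rcases hcase l hl with h | h
    · rw [he1 l h]
      have h1 : t * n % l = 0 := Nat.mod_eq_zero_of_dvd (((mem_filter.1 h).2).mul_right n)
      rw [h1]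
    · rw [he2 l h]
  -- the density
  set v : ℕ → ℕ → ℝ := fun l n => if ∃ k, n % l = ρ l k then 0 else 1 / (1 - K / l) with hv
  have hvper : ∀ l, Function.Periodic (v l) l := by
    intro l n
    simp only [hv, Nat.add_mod_right]
  set w : ℕ → ℝ := fun n => ∏ l ∈ Q1, v l n with hw
  have hl0 : ∀ l ∈ Q, (0 : ℝ) < l ∧ K / l ≤ K / z ∧ K / z ≤ 1 / 2 ∧ 0 ≤ K / l := by
    intro l hl
    have h1 := hz l hl
    refine ⟨by linarith, ?_, ?_, ?_⟩
    · gcongr
    · rw [div_le_div_iff₀ (by linarith) (by norm_num)]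
      linarith
    · have : (0 : ℝ) ≤ l := by linarith
      positivity
  have hcard : ∀ l ∈ Q, (((range l).filter fun n => ∃ k, n % l = ρ l k).card : ℝ) = K := by
    intro l hl
    have h1 : ((range l).filter fun n => ∃ k, n % l = ρ l k) = univ.image (ρ l) := by
      ext n
      simp only [mem_filter, mem_range, mem_image, mem_univ, true_and]
      constructor
      · rintro ⟨h2, k, hk⟩
        exact ⟨k, by rw [← hk, Nat.mod_eq_of_lt h2]⟩
      · rintro ⟨k, rfl⟩
        exact ⟨hH.lt l hl k, k, Nat.mod_eq_of_lt (hH.lt l hl k)⟩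
    rw [h1, card_image_of_injective _ (hH.inj l hl), card_univ]
  have hsumv : ∀ l ∈ Q, ∀ c : ℝ, ∑ n ∈ range l, (if ∃ k, n % l = ρ l k then (0 : ℝ) else c) =
      (l - K) * c := by
    intro l hl c
    have h1 : ∀ n, (if ∃ k, n % l = ρ l k then (0 : ℝ) else c) =
        c - c * (if ∃ k, n % l = ρ l k then (1 : ℝ) else 0) := by
      intro n
      split_ifs <;> ring
    simp only [h1]
    rw [sum_sub_distrib, ← mul_sum, sum_boole, hcard l hl]
    simp only [sum_const, card_range, nsmul_eq_mul]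
    ring
  have hv1 : ∀ l ∈ Q, ∑ n ∈ range l, v l n = l := by
    intro l hl
    obtain ⟨a1, a2, a3, a4⟩ := hl0 l hl
    simp only [hv]
    rw [hsumv l hl]
    have h7 : (l : ℝ) - K ≠ 0 := by
      have h8 : K / l * l = K := by field_simp
      nlinarith
    have h9 : (1 : ℝ) - K / l = (l - K) / l := by field_simp
    rw [h9]
    field_simp
  have hv2 : ∀ l ∈ Q, ∑ n ∈ range l, v l n ^ 2 = l * (1 / (1 - K / l)) := by
    intro l hl
    obtain ⟨a1, a2, a3, a4⟩ := hl0 l hl
    have h1 : ∀ n, v l n ^ 2 = if ∃ k, n % l = ρ l k then (0 : ℝ) else (1 / (1 - K / l)) ^ 2 := by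
      intro n
      simp only [hv]
      split_ifs <;> simp
    simp only [h1]
    rw [hsumv l hl]
    have : (1 : ℝ) - K / l ≠ 0 := by linarith
    field_simp
  have hQ1Q : ∀ l ∈ Q1, l ∈ Q := fun l hl => (mem_filter.1 hl).1
  obtain ⟨hwper, hwsum⟩ := sum_prod Q1 hP1 v fun l _ => hvper l
  obtain ⟨hw2per, hw2sum⟩ := sum_prod Q1 hP1 (fun l n => v l n ^ 2) fun l _ n => by
    simp only [hvper l n]
  rw [← hA] at hwper hwsum hw2per hw2sum
  have hwA : ∑ n ∈ range A, w n = A := by
    rw [hw, hwsum, prod_congr rfl fun l hl => hv1 l (hQ1Q l hl), hA]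
    push_cast
    rfl
  have hw2 : ∀ n, w n ^ 2 = ∏ l ∈ Q1, v l n ^ 2 := fun n => (prod_pow _ _ _).symm
  have hw2A : ∑ n ∈ range A, w n ^ 2 = A * ∏ l ∈ Q1, (1 / (1 - K / l)) := by
    simp only [hw2]
    rw [hw2sum, prod_congr rfl fun l hl => hv2 l (hQ1Q l hl), prod_mul_distrib, hA]
    push_cast
    rfl
  have hwF : ∀ n, w n * F n = w n * H n := by
    intro n
    by_cases h : ∃ l ∈ Q1, ∃ k, n % l = ρ l k
    · obtain ⟨l, hl, hk⟩ := h
      have : w n = 0 := prod_eq_zero hl (by simp only [hv, if_pos hk])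
      rw [this, zero_mul, zero_mul]
    · have h1 : F n = H n := by
        refine hF _ _ fun l hl k => ?_
        rcases hcase l hl with h2 | h2
        · rw [he1 l h2]
          constructor
          · intro h3; exact absurd ⟨l, h2, k, h3⟩ h
          · intro h3
            have := hH.pos l hl k
            omega
        · rw [he2 l h2]
      rw [h1]
  -- the mean of the dilation
  have hP0 : (0 : ℝ) < (A * B : ℕ) := by exact_mod_cast Nat.mul_pos hA0 hB0
  have hkey : ∑ n ∈ range (A * B), F (t * n) = ∑ n ∈ range (A * B), w n * F n := by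
    simp only [hFt, hwF]
    have h1 : Function.Periodic (fun n => H (t * n)) B := by
      intro n
      have h2 : t * (n + B) = t * n + t * B := by ring
      simp only [h2]
      have h3 := hHper.nat_mul t
      simpa using h3 (t * n)
    rw [sum_right hA0 hB0 hAB h1, sum_dil hB0 htB hHper,
      sum_coprime hA0 hB0 hAB hwper hHper, ← hw, hwA]
  have hw1P : ∑ n ∈ range (A * B), w n = (A * B : ℕ) := by
    rw [sum_left hA0 hB0 hAB hwper, ← hw, hwA]
    push_cast
    ring
  have hw2P : ∑ n ∈ range (A * B), w n ^ 2 = (A * B : ℕ) * ∏ l ∈ Q1, (1 / (1 - K / l)) := by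
    have hper : Function.Periodic (fun n => w n ^ 2) A := by
      intro n
      simp only [hw2]
      exact hw2per n
    rw [sum_left hA0 hB0 hAB hper, hw2A]
    push_cast
    ring
  -- the second moment
  have hmom : ∏ l ∈ Q1, (1 / (1 - K / l)) ≤ Real.exp (4 * K * Real.log t / z) := by
    have h1 : ∏ l ∈ Q1, (1 / (1 - K / l)) ≤ ∏ l ∈ Q1, Real.exp (2 * (K / z)) := by
      refine prod_le_prod (fun l hl => ?_) fun l hl => ?_
      · obtain ⟨a1, a2, a3, a4⟩ := hl0 l (hQ1Q l hl)
        have : (0 : ℝ) < 1 - K / l := by linarith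
        positivity
      · obtain ⟨a1, a2, a3, a4⟩ := hl0 l (hQ1Q l hl)
        refine (le_exp_two a4 (by linarith)).trans ?_
        apply Real.exp_le_exp.2
        linarith
    refine h1.trans ?_
    rw [prod_const, ← Real.exp_nat_mul]
    apply Real.exp_le_exp.2
    have h2 : (Q1.card : ℝ) ≤ 2 * Real.log t := by
      have h3 : 2 ^ Q1.card ≤ t := by
        have h4 : A ∣ t := by
          rw [hA]
          refine Finset.prod_primes_dvd _ (fun l hl => (hP1 l hl).prime)
            fun l hl => (mem_filter.1 hl).2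
        calc 2 ^ Q1.card = ∏ _l ∈ Q1, 2 := (prod_const 2).symm
          _ ≤ ∏ l ∈ Q1, l := prod_le_prod' fun l hl => (hP1 l hl).two_le
          _ ≤ t := Nat.le_of_dvd (by omega) h4
      have h4 : (2 : ℝ) ^ Q1.card ≤ t := by exact_mod_cast h3
      have h5 := Real.log_le_log (by positivity) h4
      rw [Real.log_pow] at h5
      have h6 : (1 : ℝ) / 2 ≤ Real.log 2 := by
        have := Real.log_two_gt_d9
        linarith
      have h7 : (0 : ℝ) ≤ Q1.card := Nat.cast_nonneg _
      nlinarith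
    have h3 : 0 ≤ 2 * (K / z) := by positivity
    calc (Q1.card : ℝ) * (2 * (K / z)) ≤ 2 * Real.log t * (2 * (K / z)) :=
          mul_le_mul_of_nonneg_right h2 h3
      _ = 4 * K * Real.log t / z := by ring
  -- Cauchy-Schwarz
  have hdiff : mean (pr Q) (fun n => F (t * n)) - mean (pr Q) F =
      (∑ n ∈ range (A * B), F n * (w n - 1)) / (A * B : ℕ) := by
    unfold mean
    rw [hpr, hkey, ← sub_div, ← sum_sub_distrib]
    congr 1
    refine sum_congr rfl fun n _ => ?_
    ring
  have hvar : ∑ n ∈ range (A * B), (w n - 1) ^ 2 =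
      (A * B : ℕ) * (∏ l ∈ Q1, (1 / (1 - K / l)) - 1) := by
    have h1 : ∀ n, (w n - 1) ^ 2 = w n ^ 2 - 2 * w n + 1 := fun n => by ring
    simp only [h1]
    rw [sum_add_distrib, sum_sub_distrib, ← mul_sum, hw2P, hw1P]
    simp only [sum_const, card_range, nsmul_eq_mul]
    ring
  have hM : 1 ≤ ∏ l ∈ Q1, (1 / (1 - K / (l : ℝ))) := by
    have h1 : 0 ≤ ∑ n ∈ range (A * B), (w n - 1) ^ 2 := sum_nonneg fun _ _ => sq_nonneg _
    rw [hvar] at h1
    by_contra hcon
    push Not at hcon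
    nlinarith
  rw [hdiff, abs_div, abs_of_pos hP0]
  have hcs := sum_mul_sq_le_sq_mul_sq (range (A * B)) F (fun n => w n - 1)
  rw [hvar] at hcs
  have hmeanF : mean (pr Q) (fun n => F n ^ 2) = (∑ n ∈ range (A * B), F n ^ 2) / (A * B : ℕ) := by
    unfold mean
    rw [hpr]
  rw [← Real.sqrt_mul (by
    rw [hmeanF]
    exact div_nonneg (sum_nonneg fun _ _ => sq_nonneg _) hP0.le)]
  apply Real.le_sqrt_of_sq_le
  rw [div_pow, sq_abs, hmeanF, div_le_iff₀ (by positivity)]
  have hS0 : 0 ≤ ∑ n ∈ range (A * B), F n ^ 2 := sum_nonneg fun _ _ => sq_nonneg _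
  calc (∑ n ∈ range (A * B), F n * (w n - 1)) ^ 2
      ≤ (∑ n ∈ range (A * B), F n ^ 2) * ((A * B : ℕ) * (∏ l ∈ Q1, (1 / (1 - K / l)) - 1)) := hcs
    _ ≤ (∑ n ∈ range (A * B), F n ^ 2) * ((A * B : ℕ) *
        (Real.exp (4 * K * Real.log t / z) - 1)) := by
        refine mul_le_mul_of_nonneg_left (mul_le_mul_of_nonneg_left ?_ hP0.le) hS0
        linarith
    _ = _ := by
        have hne : ((A * B : ℕ) : ℝ) ≠ 0 := hP0.ne'
        field_simp

end Pool.Agent.IPP
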