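import Mathlib
import Pool.Agent.IPP.Stmts
import Pool.Agent.Lib_helper72.AP.Vaughan

set_option autoImplicit false

/-!
Vaughan's identity for an arbitrary weight.
-/

namespace Pool.Agent.IPP

open Finset Pool.Agent.Lib_helper72.AP

noncomputable section

namespace VAUx

open ArithmeticFunction
open scoped ArithmeticFunction.zeta ArithmeticFunction.Moebius

/-- Abel summation with the logarithm. -/
lemma abel (f : ℕ → ℝ) (T : ℝ) (a : ℕ) : ∀ b : ℕ, a ≤ b →
    (∀ j, a ≤ j → j ≤ b → |∑ k ∈ Ioc j b, f k| ≤ T) →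
    |∑ k ∈ Ioc a b, Real.log k * f k| ≤ T * Real.log b := by
  have key : ∀ n : ℕ, ∀ b : ℕ, a + n = b →
      ∑ k ∈ Ioc a b, Real.log k * f k = Real.log a * ∑ k ∈ Ioc a b, f k +
        ∑ j ∈ Ico a b, (Real.log (j + 1 : ℕ) - Real.log j) * ∑ k ∈ Ioc j b, f k := by
    intro n
    induction n with
    | zero =>
      intro b hb
      have : b = a := by omega
      subst this
      simp
    | succ n ih =>
      intro b hb
      obtain ⟨c, rfl⟩ : ∃ c, b = c + 1 := ⟨a + n, by omega⟩
      have hac : a ≤ c := by omega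
      have h1 : ∀ j, j ≤ c → ∑ k ∈ Ioc j (c + 1), f k = ∑ k ∈ Ioc j c, f k + f (c + 1) :=
        fun j hj => Finset.sum_Ioc_succ_top hj _
      rw [Finset.sum_Ioc_succ_top hac, ih c (by omega), h1 a hac, Finset.sum_Ico_succ_top hac]
      have h2 : ∑ j ∈ Ico a c, (Real.log (j + 1 : ℕ) - Real.log j) * ∑ k ∈ Ioc j (c + 1), f k =
          ∑ j ∈ Ico a c, (Real.log (j + 1 : ℕ) - Real.log j) * ∑ k ∈ Ioc j c, f k +
            (∑ j ∈ Ico a c, (Real.log (j + 1 : ℕ) - Real.log j)) * f (c + 1) := by
        rw [Finset.sum_mul, ← Finset.sum_add_distrib]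
        apply Finset.sum_congr rfl
        intro j hj
        rw [mem_Ico] at hj
        rw [h1 j (by omega)]
        ring
      have h3 : ∑ j ∈ Ico a c, (Real.log (j + 1 : ℕ) - Real.log j) = Real.log c - Real.log a :=
        Finset.sum_Ico_sub (fun j : ℕ => Real.log j) hac
      rw [h2, h3, h1 c le_rfl, Ioc_self, Finset.sum_empty]
      ring
  intro b hab hb
  have hT : 0 ≤ T := (abs_nonneg _).trans (hb a le_rfl hab)
  rw [key (b - a) b (by omega)]
  have hmono : ∀ j : ℕ, 0 ≤ Real.log (j + 1 : ℕ) - Real.log j := by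
    intro j
    rcases Nat.eq_zero_or_pos j with h | h
    · subst h
      simp
    · have : Real.log j ≤ Real.log (j + 1 : ℕ) := by
        apply Real.log_le_log (by exact_mod_cast h)
        push_cast
        linarith
      linarith
  have hlog : ∀ j : ℕ, 0 ≤ Real.log j := fun j => Real.log_natCast_nonneg j
  have h1 : |Real.log a * ∑ k ∈ Ioc a b, f k| ≤ Real.log a * T := by
    rw [abs_mul, abs_of_nonneg (hlog a)]
    exact mul_le_mul_of_nonneg_left (hb a le_rfl hab) (hlog a)
  have h2 : |∑ j ∈ Ico a b, (Real.log (j + 1 : ℕ) - Real.log j) * ∑ k ∈ Ioc j b, f k| ≤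
      ∑ j ∈ Ico a b, (Real.log (j + 1 : ℕ) - Real.log j) * T := by
    refine (Finset.abs_sum_le_sum_abs _ _).trans (Finset.sum_le_sum fun j hj => ?_)
    rw [mem_Ico] at hj
    rw [abs_mul, abs_of_nonneg (hmono j)]
    exact mul_le_mul_of_nonneg_left (hb j hj.1 hj.2.le) (hmono j)
  have h3 : ∑ j ∈ Ico a b, (Real.log (j + 1 : ℕ) - Real.log j) = Real.log b - Real.log a :=
    Finset.sum_Ico_sub (fun j : ℕ => Real.log j) hab
  rw [← Finset.sum_mul, h3] at h2
  calc _ ≤ Real.log a * T + (Real.log b - Real.log a) * T :=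
        (abs_add_le _ _).trans (add_le_add h1 h2)
    _ = T * Real.log b := by ring

/-- Sums over dyadic blocks. -/
lemma dyadic (g : ℕ → ℝ) (J : ℕ) :
    ∑ v ∈ Ico 1 (2 ^ J), g v = ∑ j ∈ range J, ∑ v ∈ Ico (2 ^ j) (2 * 2 ^ j), g v := by
  induction J with
  | zero => simp
  | succ J ih =>
    rw [Finset.sum_range_succ, ← ih, pow_succ, mul_comm (2 ^ J) 2]
    rw [Finset.sum_Ico_consecutive g (Nat.one_le_two_pow) (by omega)]

end VAUx

open VAUx ArithmeticFunction in
theorem vau : StmtVAU := by
  intro V X₁ X₂ w T B hV hVX hX hVV H1 H2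
  have hX2 : 1 ≤ X₂ := le_trans (by nlinarith) hVV
  set L : ℝ := Real.log X₂ with hL
  have hL0 : 0 ≤ L := Real.log_natCast_nonneg X₂
  have hT : ∀ t : ℕ, 1 ≤ t → t ≤ V ^ 2 → 0 ≤ T t := fun t h1 h2 =>
    (abs_nonneg _).trans (H1 t h1 h2 (X₁ / t) (X₁ / t) le_rfl le_rfl (Nat.div_le_div_right hX))
  have hB : 0 ≤ B := by
    refine (abs_nonneg _).trans (H2 V (by omega) (by nlinarith) (fun _ => 0) (fun _ => 0) ?_ ?_)
    · intro v; simp
    · intro u _; simpa using hL0
  -- the four sums
  have hv : ∀ n, vonMangoldt n = small vonMangoldt V n + (small muR V * ArithmeticFunction.log) n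
      - ((small muR V * small vonMangoldt V) * (zeta : ArithmeticFunction ℝ)) n
      + (large muR V * (large vonMangoldt V * (zeta : ArithmeticFunction ℝ))) n := by
    intro n
    have h1 : vonMangoldt + (small muR V * small vonMangoldt V) *
        (zeta : ArithmeticFunction ℝ) = small vonMangoldt V + small muR V * ArithmeticFunction.log
        + large muR V * (large vonMangoldt V * (zeta : ArithmeticFunction ℝ)) := by
      have h2 := vaughan V V
      generalize small vonMangoldt V = A1 at h2 ⊢
      generalize large vonMangoldt V = A2 at h2 ⊢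
      rw [h2]
      ring
    have := congrArg (fun F : ArithmeticFunction ℝ => F n) h1
    simp only [ArithmeticFunction.add_apply] at this
    linarith
  have hsum : ∑ n ∈ Ioc X₁ X₂, vonMangoldt n * w n =
      ∑ n ∈ Ioc X₁ X₂, small vonMangoldt V n * w n
      + ∑ n ∈ Ioc X₁ X₂, (small muR V * ArithmeticFunction.log) n * w n
      - ∑ n ∈ Ioc X₁ X₂, ((small muR V * small vonMangoldt V) *
          (zeta : ArithmeticFunction ℝ)) n * w n
      + ∑ n ∈ Ioc X₁ X₂, (large muR V * (large vonMangoldt V *
          (zeta : ArithmeticFunction ℝ))) n * w n := by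
    rw [← Finset.sum_add_distrib, ← Finset.sum_sub_distrib, ← Finset.sum_add_distrib]
    apply Finset.sum_congr rfl
    intro n _
    rw [hv n]
    ring
  have h0 : ∑ n ∈ Ioc X₁ X₂, small vonMangoldt V n * w n = 0 := by
    apply Finset.sum_eq_zero
    intro n hn
    rw [mem_Ioc] at hn
    rw [small_apply, if_neg (by omega), zero_mul]
  -- a type one bound
  have type1 : ∀ (c : ℕ → ℝ) (g : ℕ → ℝ) (G : ℝ), 0 ≤ G → (∀ t, V ^ 2 < t → c t = 0) →
      (∀ t, 1 ≤ t → t ≤ V ^ 2 → |c t * ∑ k ∈ Ioc (X₁ / t) (X₂ / t), g k * w (t * k)| ≤ G * T t) →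
      |∑ m ∈ Ioc 0 X₂, c m * ∑ k ∈ Ioc (X₁ / m) (X₂ / m), g k * w (m * k)| ≤
        ∑ t ∈ Ioc 0 (V ^ 2), G * T t := by
    intro c g G hG hc hb
    have e : ∑ m ∈ Ioc 0 X₂, c m * ∑ k ∈ Ioc (X₁ / m) (X₂ / m), g k * w (m * k) =
        ∑ m ∈ Ioc 0 (V ^ 2), c m * ∑ k ∈ Ioc (X₁ / m) (X₂ / m), g k * w (m * k) := by
      symm
      apply Finset.sum_subset (Finset.Ioc_subset_Ioc_right hVV)
      intro m _ hm
      rw [mem_Ioc] at hm
      by_cases h : m = 0
      · subst h
        have hm' : (0 : ℕ) ∈ Ioc 0 X₂ := by assumption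
        simp at hm'
      · rw [hc m (by omega), zero_mul]
    rw [e]
    refine (Finset.abs_sum_le_sum_abs _ _).trans (Finset.sum_le_sum fun t ht => ?_)
    rw [mem_Ioc] at ht
    exact hb t ht.1 ht.2
  -- the second sum
  have h1 : |∑ n ∈ Ioc X₁ X₂, (small muR V * ArithmeticFunction.log) n * w n| ≤
      ∑ t ∈ Ioc 0 (V ^ 2), L * T t := by
    rw [sum_conv_weight]
    apply type1 _ _ L hL0
    · intro t ht
      rw [small_apply, if_neg]
      have : V ≤ V ^ 2 := by nlinarith
      omega
    · intro t ht1 ht2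
      have ha : |small muR V t| ≤ 1 := by
        rw [small_apply]
        split_ifs
        · exact abs_muR_le _
        · simp
      have hb : |∑ k ∈ Ioc (X₁ / t) (X₂ / t), (ArithmeticFunction.log : ArithmeticFunction ℝ) k *
          w (t * k)| ≤ T t * L := by
        have hle : X₁ / t ≤ X₂ / t := Nat.div_le_div_right hX
        have h3 := abel (fun k => w (t * k)) (T t) (X₁ / t) (X₂ / t) hle
          (fun j hj1 hj2 => H1 t ht1 ht2 j (X₂ / t) hj1 hj2 le_rfl)
        simp only [ArithmeticFunction.log_apply]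
        refine h3.trans (mul_le_mul_of_nonneg_left ?_ (hT t ht1 ht2))
        rcases Nat.eq_zero_or_pos (X₂ / t) with h | h
        · rw [h]
          simpa using hL0
        · apply Real.log_le_log (by exact_mod_cast h)
          exact_mod_cast Nat.div_le_self X₂ t
      rw [abs_mul]
      calc |small muR V t| * _ ≤ 1 * (T t * L) :=
            mul_le_mul ha hb (abs_nonneg _) zero_le_one
        _ = L * T t := by ring
  -- the third sum
  have h2 : |∑ n ∈ Ioc X₁ X₂, ((small muR V * small vonMangoldt V) *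
      (zeta : ArithmeticFunction ℝ)) n * w n| ≤ ∑ t ∈ Ioc 0 (V ^ 2), L * T t := by
    rw [sum_conv_weight]
    apply type1 _ _ L hL0
    · intro t ht
      exact small_mul_small_eq_zero V V t (by rwa [← sq])
    · intro t ht1 ht2
      have ha : |(small muR V * small vonMangoldt V) t| ≤ L := by
        refine (abs_small_mul_small_le V V t).trans ?_
        apply Real.log_le_log (by exact_mod_cast ht1)
        exact_mod_cast ht2.trans hVV
      have hb : |∑ k ∈ Ioc (X₁ / t) (X₂ / t), (zeta : ArithmeticFunction ℝ) k * w (t * k)| ≤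
          T t := by
        have e : ∑ k ∈ Ioc (X₁ / t) (X₂ / t), (zeta : ArithmeticFunction ℝ) k * w (t * k) =
            ∑ k ∈ Ioc (X₁ / t) (X₂ / t), w (t * k) := by
          apply Finset.sum_congr rfl
          intro k hk
          rw [mem_Ioc] at hk
          have hk0 : k ≠ 0 := (Nat.lt_of_le_of_lt (Nat.zero_le _) hk.1).ne'
          simp [hk0]
        rw [e]
        exact H1 t ht1 ht2 _ _ le_rfl (Nat.div_le_div_right hX) le_rfl
      rw [abs_mul]
      exact mul_le_mul ha hb (abs_nonneg _) hL0
  -- the fourth sum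
  have h3 : |∑ n ∈ Ioc X₁ X₂, (large muR V * (large vonMangoldt V *
      (zeta : ArithmeticFunction ℝ))) n * w n| ≤ (2 * L + 1) * B := by
    rw [sum_conv_weight]
    set β : ℕ → ℝ := fun u => (large vonMangoldt V * (zeta : ArithmeticFunction ℝ)) u with hβ
    set α : ℕ → ℝ := fun v => large muR V v with hα
    set g : ℕ → ℝ := fun v => α v * ∑ u ∈ Ioc (X₁ / v) (X₂ / v), β u * w (u * v) with hg
    set J := Nat.log 2 X₂ + 1 with hJ
    have hXJ : X₂ < 2 ^ J := Nat.lt_pow_succ_log_self (by norm_num) X₂
    have e1 : ∑ m ∈ Ioc 0 X₂, large muR V m * ∑ k ∈ Ioc (X₁ / m) (X₂ / m),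
        (large vonMangoldt V * (zeta : ArithmeticFunction ℝ)) k * w (m * k) =
        ∑ v ∈ Ico 1 (2 ^ J), g v := by
      have e2 : ∀ m, large muR V m * ∑ k ∈ Ioc (X₁ / m) (X₂ / m),
          (large vonMangoldt V * (zeta : ArithmeticFunction ℝ)) k * w (m * k) = g m := by
        intro m
        simp only [hg, hα, hβ]
        congr 1
        apply Finset.sum_congr rfl
        intro k _
        rw [mul_comm m k]
      rw [Finset.sum_congr rfl fun m _ => e2 m]
      apply Finset.sum_subset
      · intro m hm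
        rw [mem_Ioc] at hm
        rw [mem_Ico]
        omega
      · intro m hm hm'
        rw [mem_Ico] at hm
        rw [mem_Ioc] at hm'
        have h4 : X₂ / m = 0 := Nat.div_eq_of_lt (by omega)
        have h5 : X₁ / m = 0 := Nat.div_eq_of_lt (by omega)
        simp only [hg, h4, h5, Ioc_self, Finset.sum_empty, mul_zero]
    rw [e1, dyadic g J]
    have hblock : ∀ j ∈ range J, |∑ v ∈ Ico (2 ^ j) (2 * 2 ^ j), g v| ≤ B := by
      intro j _
      by_cases hc1 : V < 2 * 2 ^ j
      · by_cases hc2 : 2 ^ j * V ≤ X₂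
        · refine H2 (2 ^ j) hc1 hc2 α β ?_ ?_
          · intro v
            simp only [hα, large_apply]
            split_ifs
            · simp
            · exact abs_muR_le _
          · intro u hu
            simp only [hβ]
            rw [abs_of_nonneg (large_mul_zeta_nonneg V u)]
            refine (large_mul_zeta_le V u).trans ?_
            rcases Nat.eq_zero_or_pos u with h | h
            · rw [h]
              simpa using hL0
            · apply Real.log_le_log (by exact_mod_cast h)
              exact_mod_cast hu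
        · have : ∑ v ∈ Ico (2 ^ j) (2 * 2 ^ j), g v = 0 := by
            apply Finset.sum_eq_zero
            intro v hv
            rw [mem_Ico] at hv
            simp only [hg]
            have : ∑ u ∈ Ioc (X₁ / v) (X₂ / v), β u * w (u * v) = 0 := by
              apply Finset.sum_eq_zero
              intro u hu
              rw [mem_Ioc] at hu
              have hvpos : 0 < v := lt_of_lt_of_le (by positivity) hv.1
              have h6 : u * v ≤ X₂ := (Nat.le_div_iff_mul_le hvpos).1 hu.2
              have h7 : u ≤ V := by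
                by_contra hcon
                push Not at hcon
                apply hc2
                calc 2 ^ j * V ≤ v * u := Nat.mul_le_mul hv.1 hcon.le
                  _ = u * v := mul_comm _ _
                  _ ≤ X₂ := h6
              simp only [hβ]
              rw [large_mul_zeta_eq_zero V u h7, zero_mul]
            rw [this, mul_zero]
          rw [this, abs_zero]
          exact hB
      · have : ∑ v ∈ Ico (2 ^ j) (2 * 2 ^ j), g v = 0 := by
          apply Finset.sum_eq_zero
          intro v hv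
          rw [mem_Ico] at hv
          simp only [hg, hα]
          rw [large_apply, if_pos (by omega), zero_mul]
        rw [this, abs_zero]
        exact hB
    refine (Finset.abs_sum_le_sum_abs _ _).trans ((Finset.sum_le_sum hblock).trans ?_)
    rw [Finset.sum_const, card_range, nsmul_eq_mul]
    apply mul_le_mul_of_nonneg_right _ hB
    have h8 : ((Nat.log 2 X₂ : ℕ) : ℝ) ≤ 2 * L := by
      have h9 : 2 ^ Nat.log 2 X₂ ≤ X₂ := Nat.pow_log_le_self 2 (by omega)
      have h10 : Real.log ((2 ^ Nat.log 2 X₂ : ℕ) : ℝ) ≤ L :=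
        Real.log_le_log (by positivity) (by exact_mod_cast h9)
      push_cast at h10
      rw [Real.log_pow] at h10
      have h11 : (1 : ℝ) / 2 ≤ Real.log 2 := by
        have := Real.log_two_gt_d9
        linarith
      have h12 : (0 : ℝ) ≤ ((Nat.log 2 X₂ : ℕ) : ℝ) := Nat.cast_nonneg _
      nlinarith
    rw [hJ]
    push_cast
    linarith
  rw [hsum, h0, zero_add]
  have h4 : ∑ t ∈ Ioc 0 (V ^ 2), L * T t + ∑ t ∈ Ioc 0 (V ^ 2), L * T t ≤
      ∑ t ∈ Ioc 0 (V ^ 2), 3 * L * T t := by
    rw [← Finset.sum_add_distrib]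
    apply Finset.sum_le_sum
    intro t ht
    rw [mem_Ioc] at ht
    have := mul_nonneg hL0 (hT t ht.1 ht.2)
    nlinarith
  calc _ ≤ (∑ t ∈ Ioc 0 (V ^ 2), L * T t + ∑ t ∈ Ioc 0 (V ^ 2), L * T t) + (2 * L + 1) * B := by
        refine (abs_add_le _ _).trans (add_le_add ?_ h3)
        exact (abs_sub _ _).trans (add_le_add h1 h2)
    _ ≤ _ := by linarith

end

end Pool.Agent.IPP
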