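import Pool.Agent.IPP.LEV
import Pool.Agent.IPP.AVG
import Pool.Agent.IPP.AVI
import Pool.Agent.IPP.CHI
import Pool.Agent.IPP.BOX
import Pool.Agent.IPP.TYM
import Pool.Agent.IPP.T1
import Pool.Agent.IPP.T2
import Pool.Agent.IPP.VAU
import Pool.Agent.IPP.LP
import Pool.Agent.IPP.INT
import Pool.Agent.IPP.FAC
import Pool.Agent.IPP.GLEV
import Pool.Agent.IPP.LPG

set_option autoImplicit false

/-!
Assembly of block P.
-/

namespace Pool.Agent.IPP

theorem stmtLP : StmtLP :=
  lp (box_small chi) lev (t1 lev (avi avg) tym) (t2 lev (avi avg)) vau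

theorem s_LPG : IP.S_LPG :=
  t_LPG lev avg (int_form lev stmtLP) fac (glev lev)

end Pool.Agent.IPP
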